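import Pool.Agent.W2helper76.SP.Der
import Pool.Agent.N530.LS.A2

/-!
# Finitely generated rings which are stable under a derivation
-/

set_option autoImplicit false
set_option linter.unusedSectionVars false

namespace Pool.Agent.W2helper76.SP

open Pool.Agent.W2helper76.UE

section general

variable {C : Type} [Field C] [CharZero C] (D : Derivation ℤ C C)

lemma D_subring (T : Set C) (A : Subring C) (hT : Subring.closure T ≤ A) (h : ∀ t ∈ T, D t ∈ A)
    {x : C} (hx : x ∈ Subring.closure T) : D x ∈ A := by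
  induction hx using Subring.closure_induction with
  | mem x hx => exact h x hx
  | zero => rw [map_zero]; exact zero_mem A
  | one => rw [Derivation.map_one_eq_zero]; exact zero_mem A
  | add x y _ _ hx hy => rw [map_add]; exact add_mem hx hy
  | neg x _ hx => rw [map_neg]; exact neg_mem hx
  | mul x y hx' hy' hx hy =>
    rw [Derivation.leibniz, smul_eq_mul, smul_eq_mul]
    exact add_mem (mul_mem (hT hx') hy) (mul_mem (hT hy') hx)

lemma D_inv (x : C) : D x⁻¹ = -(x⁻¹ * x⁻¹ * D x) := by
  rw [Derivation.leibniz_inv, smul_eq_mul]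
  ring

lemma D_subfield (T : Set C) (M : Subfield C) (hT : Subfield.closure T ≤ M)
    (h : ∀ t ∈ T, D t ∈ M) {x : C} (hx : x ∈ Subfield.closure T) : D x ∈ M := by
  induction hx using Subfield.closure_induction with
  | mem x hx => exact h x hx
  | one => rw [Derivation.map_one_eq_zero]; exact zero_mem M
  | add x y _ _ hx hy => rw [map_add]; exact add_mem hx hy
  | neg x _ hx => rw [map_neg]; exact neg_mem hx
  | inv x hx' hx =>
    rw [D_inv]
    exact neg_mem (mul_mem (mul_mem (inv_mem (hT hx')) (inv_mem (hT hx'))) hx)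
  | mul x y hx' hy' hx hy =>
    rw [Derivation.leibniz, smul_eq_mul, smul_eq_mul]
    exact add_mem (mul_mem (hT hx') hy) (mul_mem (hT hy') hx)

lemma aeval_mem' {F M : Subfield C} (hFM : F ≤ M) {z : C} (hz : z ∈ M) (p : Polynomial F) :
    Polynomial.aeval z p ∈ M := by
  induction p using Polynomial.induction_on' with
  | add p q hp hq => rw [map_add]; exact add_mem hp hq
  | monomial n a =>
    rw [Polynomial.aeval_monomial]
    exact mul_mem (hFM a.2) (pow_mem hz n)

/-- derivatives of algebraic elements -/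
lemma D_alg (F M : Subfield C) (hFM : F ≤ M) (hF : ∀ x ∈ F, D x ∈ F) {z : C}
    (hz : IsAlgebraic F z) (hzM : z ∈ M) : D z ∈ M := by
  have key : ∀ p : Polynomial F, ∃ w ∈ M, D (Polynomial.aeval z p) =
      w + Polynomial.aeval z (Polynomial.derivative p) * D z := by
    intro p
    induction p using Polynomial.induction_on' with
    | add p q hp hq =>
      obtain ⟨w, hw, h1⟩ := hp
      obtain ⟨w', hw', h2⟩ := hq
      refine ⟨w + w', add_mem hw hw', ?_⟩
      rw [map_add, map_add, h1, h2, map_add, map_add]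
      ring
    | monomial n a =>
      refine ⟨z ^ n * D (a : C), mul_mem (pow_mem hzM n) (hFM (hF _ a.2)), ?_⟩
      rw [Polynomial.aeval_monomial, Derivation.leibniz, Derivation.leibniz_pow,
        Polynomial.derivative_monomial, Polynomial.aeval_monomial, map_mul, map_natCast]
      simp only [smul_eq_mul, nsmul_eq_mul]
      have : algebraMap F C a = (a : C) := rfl
      rw [this]
      ring
  obtain ⟨w, hw, h1⟩ := key (minpoly F z)
  rw [minpoly.aeval, map_zero] at h1
  have hsep : Polynomial.aeval z (Polynomial.derivative (minpoly F z)) ≠ 0 := by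
    have := (minpoly.irreducible hz.isIntegral).separable
    exact this.aeval_derivative_ne_zero (minpoly.aeval F z)
  have h2 : D z = -w / Polynomial.aeval z (Polynomial.derivative (minpoly F z)) := by
    rw [eq_div_iff hsep]
    linear_combination (-1 : C) * h1
  rw [h2]
  exact div_mem (neg_mem hw) (aeval_mem' hFM hzM _)

/-- a stable ring -/
lemma stab (T : Finset C) (h : ∀ t ∈ T, D t ∈ Subfield.closure (T : Set C)) :
    ∃ q ∈ Subring.closure (T : Set C), q ≠ 0 ∧
      ∀ x ∈ Subring.closure (insert q⁻¹ (T : Set C)),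
        D x ∈ Subring.closure (insert q⁻¹ (T : Set C)) := by
  classical
  have h' : ∀ t, ∃ y z : C, y ∈ Subring.closure (T : Set C) ∧ z ∈ Subring.closure (T : Set C) ∧
      z ≠ 0 ∧ (t ∈ T → z * D t = y) := by
    intro t
    by_cases ht : t ∈ T
    · obtain ⟨y, hy, z, hz, hyz⟩ := Subfield.mem_closure_iff.1 (h t ht)
      by_cases hz0 : z = 0
      · refine ⟨0, 1, zero_mem _, one_mem _, one_ne_zero, fun _ => ?_⟩
        rw [← hyz, hz0, div_zero, mul_zero]
      · refine ⟨y, z, hy, hz, hz0, fun _ => ?_⟩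
        rw [← hyz]; field_simp
    · exact ⟨0, 1, zero_mem _, one_mem _, one_ne_zero, fun h => absurd h ht⟩
  choose y z hy hz hz0 hyz using h'
  have hq : ∏ t ∈ T, z t ∈ Subring.closure (T : Set C) := prod_mem fun t _ => hz t
  have hq0 : ∏ t ∈ T, z t ≠ 0 := Finset.prod_ne_zero_iff.2 fun t _ => hz0 t
  refine ⟨∏ t ∈ T, z t, hq, hq0, ?_⟩
  set q := ∏ t ∈ T, z t with hqdef
  set A := Subring.closure (insert q⁻¹ (T : Set C)) with hA
  have hle : Subring.closure (T : Set C) ≤ A := Subring.closure_mono (Set.subset_insert _ _)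
  have hqA : q⁻¹ ∈ A := Subring.subset_closure (Set.mem_insert _ _)
  have hT : ∀ t ∈ T, D t ∈ A := by
    intro t ht
    have : D t = y t * (∏ s ∈ T.erase t, z s) * q⁻¹ := by
      rw [eq_mul_inv_iff_mul_eq₀ hq0, hqdef, ← Finset.mul_prod_erase T z ht, ← hyz t ht]
      ring
    rw [this]
    exact mul_mem (mul_mem (hle (hy t)) (prod_mem fun s _ => hle (hz s))) hqA
  intro x hx
  refine D_subring D _ A le_rfl ?_ hx
  intro t ht
  rcases Set.mem_insert_iff.1 ht with rfl | ht
  · rw [D_inv]
    exact neg_mem (mul_mem (mul_mem hqA hqA) (D_subring D _ A hle hT hq))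
  · exact hT t ht

end general

section padic

variable {p : ℕ} [Fact p.Prime]

lemma norm_le_of_closure (s : Set ℂ) (σ : Subfield.closure s →+* ℚ_[p]) (S : Set ℂ)
    (hS : S ⊆ Subfield.closure s) (h : ∀ x : Subfield.closure s, (x : ℂ) ∈ S → ‖σ x‖ ≤ 1)
    {x : ℂ} (hx : x ∈ Subring.closure S) :
    ∃ hx' : x ∈ Subfield.closure s, ‖σ ⟨x, hx'⟩‖ ≤ 1 := by
  induction hx using Subring.closure_induction with
  | mem x hx => exact ⟨hS hx, h ⟨x, hS hx⟩ hx⟩
  | zero => exact ⟨zero_mem _, by
      have : (⟨0, zero_mem _⟩ : Subfield.closure s) = 0 := rfl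
      rw [this, map_zero, norm_zero]; exact zero_le_one⟩
  | one => exact ⟨one_mem _, by
      have : (⟨1, one_mem _⟩ : Subfield.closure s) = 1 := rfl
      rw [this, map_one, norm_one]⟩
  | add x y _ _ hx hy =>
    obtain ⟨hx', hx⟩ := hx
    obtain ⟨hy', hy⟩ := hy
    refine ⟨add_mem hx' hy', ?_⟩
    have : (⟨x + y, add_mem hx' hy'⟩ : Subfield.closure s) = ⟨x, hx'⟩ + ⟨y, hy'⟩ := rfl
    rw [this, map_add]
    exact (IsUltrametricDist.norm_add_le_max _ _).trans (max_le hx hy)
  | neg x _ hx =>
    obtain ⟨hx', hx⟩ := hx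
    refine ⟨neg_mem hx', ?_⟩
    have : (⟨-x, neg_mem hx'⟩ : Subfield.closure s) = -⟨x, hx'⟩ := rfl
    rw [this, map_neg, norm_neg]
    exact hx
  | mul x y _ _ hx hy =>
    obtain ⟨hx', hx⟩ := hx
    obtain ⟨hy', hy⟩ := hy
    refine ⟨mul_mem hx' hy', ?_⟩
    have : (⟨x * y, mul_mem hx' hy'⟩ : Subfield.closure s) = ⟨x, hx'⟩ * ⟨y, hy'⟩ := rfl
    rw [this, map_mul, norm_mul]
    exact mul_le_one₀ hx (norm_nonneg _) hy

end padic

end Pool.Agent.W2helper76.SP
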