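import Pool.Agent.W2helper76.SP.Nrm
import Pool.Agent.W2helper76.SP.Stab

/-!
# The local part
-/

set_option autoImplicit false
set_option linter.unusedSectionVars false

namespace Pool.Agent.W2helper76.SP

open PowerSeries

/-- restriction of a derivation -/
noncomputable def resD {M : Subfield ℂ} (D : Derivation ℤ ℂ ℂ) (E : IntermediateField M ℂ)
    (h : ∀ x ∈ E, D x ∈ E) : Derivation ℤ E E :=
  Derivation.mk' (A := E) (M := E)
    { toFun := fun x => ⟨D x, h x x.2⟩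
      map_add' := fun x y => Subtype.ext (map_add D (x : ℂ) (y : ℂ))
      map_smul' := fun n x => Subtype.ext (by
        simp) }
    (fun x y => Subtype.ext (D.leibniz (x : ℂ) (y : ℂ)))

lemma resD_coe {M : Subfield ℂ} (D : Derivation ℤ ℂ ℂ) (E : IntermediateField M ℂ)
    (h : ∀ x ∈ E, D x ∈ E) (x : E) : ((resD D E h x : E) : ℂ) = D x := rfl

lemma resD_iter {M : Subfield ℂ} (D : Derivation ℤ ℂ ℂ) (E : IntermediateField M ℂ)
    (h : ∀ x ∈ E, D x ∈ E) (n : ℕ) (x : E) : (((resD D E h)^[n] x : E) : ℂ) = D^[n] x := by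
  induction n with
  | zero => rfl
  | succ n ih => rw [Function.iterate_succ_apply', Function.iterate_succ_apply', resD_coe, ih]

lemma iter_mem (D : Derivation ℤ ℂ ℂ) (M : Subfield ℂ) (hM : ∀ x ∈ M, D x ∈ M) {x : ℂ}
    (hx : x ∈ M) (n : ℕ) : D^[n] x ∈ M := by
  induction n with
  | zero => exact hx
  | succ n ih => rw [Function.iterate_succ_apply']; exact hM _ ih

/-- the local part -/
theorem local_part {p : ℕ} [Fact p.Prime] (M : Subfield ℂ) (σ : M →+* ℚ_[p])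
    (D : Derivation ℤ ℂ ℂ) (hM : ∀ x ∈ M, D x ∈ M)
    (N : ℕ) (hN : N + 2 ≤ p) (x : ℂ) (hx : x ∈ M)
    (hlow : ∀ n, 1 ≤ n → n < N → ‖σ ⟨D^[n] x, iter_mem D M hM hx n⟩‖ ≤ ((p : ℝ)⁻¹) ^ N)
    (hN1 : ‖σ ⟨D^[N] x, iter_mem D M hM hx N⟩‖ = 1)
    (hall : ∀ n, 1 ≤ n → ‖σ ⟨D^[n] x, iter_mem D M hM hx n⟩‖ ≤ 1)
    {J : Type} [Fintype J] [Nonempty J] (hcard : Fintype.card J ≤ N)
    (δ : J → M) (hδ1 : ∀ j, ‖σ (δ j)‖ ≤ 1) (hinj : Function.Injective δ)
    (hDδ : ∀ j, D (δ j : ℂ) = 0)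
    (y : J → ℂ) (hy : ∀ j, IsAlgebraic M (y j)) (hy0 : ∀ j, y j ≠ 0)
    (hDy : ∀ j, D (y j) = δ j * y j)
    (Q : J → Polynomial ℂ) (hQ : ∀ j i, IsAlgebraic M ((Q j).coeff i))
    (hQD : ∀ j i, D ((Q j).coeff i) = 0) (hQx : ∀ j, (Q j).eval x ≠ 0)
    (hrel : ∑ j, (Q j).eval x * y j = 0) : False := by
  classical
  set E₀ : IntermediateField M ℂ := algebraicClosure M ℂ with hE₀
  have hp0 : (0 : ℝ) < p := by exact_mod_cast (Fact.out : p.Prime).pos
  have hp1 : (1 : ℝ) < p := by exact_mod_cast (Fact.out : p.Prime).one_lt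
  have hρ0 : (0 : ℝ) ≤ (p : ℝ)⁻¹ := by positivity
  have hρ1 : (p : ℝ)⁻¹ < 1 := inv_lt_one_of_one_lt₀ hp1
  -- the derivation
  have hstab : ∀ z ∈ E₀, D z ∈ E₀ := fun z hz =>
    D_alg D M E₀.toSubfield (fun m hm => E₀.algebraMap_mem ⟨m, hm⟩) hM
      (mem_algebraicClosure_iff.1 hz) hz
  set D₀ := resD D E₀ hstab with hD₀
  -- the embedding
  obtain ⟨τ, hτ⟩ : ∃ τ : E₀ →+* PadicAlgCl p, ∀ m : M,
      τ (algebraMap M E₀ m) = algebraMap ℚ_[p] (PadicAlgCl p) (σ m) := by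
    let _ : Algebra M (PadicAlgCl p) := ((algebraMap ℚ_[p] (PadicAlgCl p)).comp σ).toAlgebra
    exact ⟨(IsAlgClosed.lift (R := M) (S := E₀) (M := PadicAlgCl p)).toRingHom,
      fun m => AlgHom.commutes _ m⟩
  have hnorm : ∀ m : M, ‖τ (algebraMap M E₀ m)‖ = ‖σ m‖ := by
    intro m
    rw [hτ, norm_algebraMap']
  set x₀ : E₀ := algebraMap M E₀ ⟨x, hx⟩ with hx₀
  have hDx : ∀ n, D₀^[n] x₀ = algebraMap M E₀ ⟨D^[n] x, iter_mem D M hM hx n⟩ := by
    intro n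
    apply Subtype.ext
    rw [hD₀, resD_iter]
    rfl
  set y₀ : J → E₀ := fun j => ⟨y j, mem_algebraicClosure_iff.2 (hy j)⟩ with hy₀
  have hDy₀ : ∀ j, D₀ (y₀ j) = algebraMap M E₀ (δ j) * y₀ j := by
    intro j
    apply Subtype.ext
    rw [hD₀, resD_coe]
    exact hDy j
  have hDδ₀ : ∀ j, D₀ (algebraMap M E₀ (δ j)) = 0 := by
    intro j
    apply Subtype.ext
    rw [hD₀, resD_coe]
    exact hDδ j
  -- the polynomials
  have hQ' : ∀ j, ∃ q : Polynomial E₀, q.map (algebraMap E₀ ℂ) = Q j := by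
    intro j
    have h1 : Q j ∈ Polynomial.lifts (algebraMap E₀ ℂ) := by
      rw [Polynomial.lifts_iff_coeff_lifts]
      intro i
      exact ⟨⟨(Q j).coeff i, mem_algebraicClosure_iff.2 (hQ j i)⟩, rfl⟩
    exact (Polynomial.mem_lifts _).1 h1
  choose q hq using hQ'
  have hqc : ∀ j i, D₀ ((q j).coeff i) = 0 := by
    intro j i
    apply Subtype.ext
    rw [hD₀, resD_coe]
    have h1 := hQD j i
    rw [← hq j, Polynomial.coeff_map] at h1
    exact h1
  have hqe : ∀ j, (((q j).eval x₀ : E₀) : ℂ) = (Q j).eval x := by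
    intro j
    rw [← hq j, Polynomial.eval_map]
    have : x = algebraMap E₀ ℂ x₀ := rfl
    rw [this, Polynomial.eval₂_at_apply]
    rfl
  have hrel₀ : ∑ j, (q j).eval x₀ * y₀ j = 0 := by
    apply Subtype.ext
    have h1 : ((∑ j, (q j).eval x₀ * y₀ j : E₀) : ℂ) = ∑ j, (Q j).eval x * y j := by
      push_cast
      refine Finset.sum_congr rfl fun j _ => ?_
      rw [hqe]
    rw [h1, hrel]
    rfl
  set ϖ : PadicAlgCl p := (p : PadicAlgCl p) with hϖ
  refine no_relation (Ω := PadicAlgCl p) (s := (Finset.univ : Finset J))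
    (δ := fun j => τ (algebraMap M E₀ (δ j))) (u := fun j => τ (y₀ j)) (N := N) (ρ := (p : ℝ)⁻¹)
    (e := ee ϖ) (l := fun n => τ (D₀^[n] x₀)) (fun j => (q j).map τ) hρ0 hρ1 hcard ?_ ?_ ?_ ?_ ?_
    ?_ ?_ ?_ ?_ ?_
  · intro j _
    rw [hnorm]
    exact hδ1 j
  · intro j _ j' _ hjj
    exact hinj ((algebraMap M E₀).injective (τ.injective hjj))
  · obtain ⟨j⟩ := ‹Nonempty J›
    refine ⟨j, Finset.mem_univ j, ?_⟩
    apply mul_ne_zero
    · have h1 : ((q j).map τ).eval (τ (D₀^[0] x₀)) = τ ((q j).eval x₀) := by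
        rw [Polynomial.eval_map, Function.iterate_zero, id, Polynomial.eval₂_at_apply]
      rw [h1]
      intro h0
      rw [_root_.map_eq_zero] at h0
      apply hQx j
      rw [← hqe, h0]
      rfl
    · intro h0
      rw [_root_.map_eq_zero] at h0
      exact hy0 j (congrArg Subtype.val h0)
  · intro k hk
    rw [← norm_ne_zero_iff, hϖ, norm_ee_lt (by omega)]
    positivity
  · exact ee_zero ϖ
  · intro n
    exact norm_ee_le_one hN
  · intro n hn k hk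
    have h1 : ‖ee ϖ n‖ ≤ ((p : ℝ)⁻¹) ^ N := by
      rcases Nat.eq_or_lt_of_le hn with h2 | h2
      · rw [← h2, hϖ, norm_ee_lt (by omega)]
      · refine (norm_ee_le hN h2).trans ?_
        exact pow_le_pow_of_le_one hρ0 hρ1.le (Nat.le_succ N)
    refine h1.trans ?_
    rw [hϖ, norm_ee_lt (by omega), ← pow_succ']
    exact pow_le_pow_of_le_one hρ0 hρ1.le hk
  · show ‖τ (D₀^[N] x₀)‖ = 1
    rw [hDx, hnorm]
    exact hN1
  · intro i hi0 hiN
    show ‖τ (D₀^[i] x₀) * ee ϖ i‖ ≤ _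
    rw [norm_mul, hDx, hnorm, hϖ, norm_ee_lt (n := N) (by omega), ← pow_succ']
    rcases lt_or_gt_of_ne hiN with h2 | h2
    · rw [norm_ee_lt (by omega)]
      calc ‖σ ⟨D^[i] x, iter_mem D M hM hx i⟩‖ * ((p : ℝ)⁻¹) ^ i
          ≤ ((p : ℝ)⁻¹) ^ N * ((p : ℝ)⁻¹) ^ 1 := by
            refine mul_le_mul (hlow i (by omega) h2) ?_ (by positivity) (by positivity)
            exact pow_le_pow_of_le_one hρ0 hρ1.le (by omega)
        _ = _ := by rw [← pow_add]
    · calc ‖σ ⟨D^[i] x, iter_mem D M hM hx i⟩‖ * ‖ee (p : PadicAlgCl p) i‖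
          ≤ 1 * ((p : ℝ)⁻¹) ^ (N + 1) :=
            mul_le_mul (hall i (by omega)) (norm_ee_le hN h2) (norm_nonneg _) zero_le_one
        _ = _ := one_mul _
  · have h1 := congrArg (tayHom D₀ τ ϖ) hrel₀
    rw [map_zero, map_sum] at h1
    rw [← h1]
    refine Finset.sum_congr rfl fun j _ => ?_
    rw [map_mul]
    congr 1
    · rw [Polynomial.aeval_def, Polynomial.eval₂_map, Polynomial.eval₂_eq_sum_range,
        Polynomial.eval_eq_sum_range, map_sum]
      refine Finset.sum_congr rfl fun i _ => ?_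
      rw [map_mul, map_pow]
      have h2 : tayHom D₀ τ ϖ ((q j).coeff i) = C (τ ((q j).coeff i)) :=
        tay_const D₀ τ ϖ (hqc j i)
      rw [h2]
      rfl
    · exact (tay_exp D₀ τ ϖ (hDδ₀ j) (hDy₀ j)).symm

end Pool.Agent.W2helper76.SP
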