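import Mathlib

/-!
# Residue classes with prescribed `p`-adic behaviour
-/

set_option autoImplicit false
set_option linter.unusedSectionVars false

namespace Pool.Agent.W2helper76.SP

variable {p : ℕ} [Fact p.Prime]

lemma solve {N : ℕ} (A : Matrix (Fin N) (Fin N) ℚ_[p]) (hA : ∀ k i, ‖A k i‖ ≤ 1)
    (hdet : ‖A.det‖ = 1) (t : Fin N → ℤ_[p]) :
    ∃ β : Fin N → ℤ_[p], ∀ k, ∑ i, (β i : ℚ_[p]) * A k i = t k := by
  set B : Matrix (Fin N) (Fin N) ℤ_[p] := Matrix.of fun k i => ⟨A k i, hA k i⟩ with hB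
  have hBA : B.map (PadicInt.Coe.ringHom (p := p)) = A := by
    ext k i
    rfl
  have h1 : ((B.det : ℤ_[p]) : ℚ_[p]) = A.det := by
    have := RingHom.map_det (PadicInt.Coe.ringHom (p := p)) B
    rw [RingHom.mapMatrix_apply, hBA] at this
    exact this
  have h2 : IsUnit B.det := by
    rw [PadicInt.isUnit_iff, PadicInt.norm_def, h1, hdet]
  refine ⟨B⁻¹.mulVec t, fun k => ?_⟩
  have h3 : B.mulVec (B⁻¹.mulVec t) = t := by
    rw [Matrix.mulVec_mulVec, Matrix.mul_nonsing_inv B h2, Matrix.one_mulVec]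
  have h4 := congrFun h3 k
  rw [Matrix.mulVec, dotProduct] at h4
  rw [← h4, PadicInt.coe_sum]
  refine Finset.sum_congr rfl fun i _ => ?_
  rw [mul_comm, PadicInt.coe_mul]
  rfl

lemma crt (m n : ℤ) (h : IsCoprime m n) (a c : ℤ) : ∃ x : ℤ, x ≡ a [ZMOD m] ∧ x ≡ c [ZMOD n] := by
  obtain ⟨u, v, huv⟩ := h
  refine ⟨a * (v * n) + c * (u * m), ?_, ?_⟩
  · rw [Int.modEq_iff_dvd]
    refine ⟨u * (a - c), ?_⟩
    linear_combination (-a) * huv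
  · rw [Int.modEq_iff_dvd]
    refine ⟨v * (c - a), ?_⟩
    linear_combination (-c) * huv

lemma norm_int_of_dvd {n : ℕ} {k : ℤ} (h : ((p ^ n : ℕ) : ℤ) ∣ k) : ‖(k : ℚ_[p])‖ ≤ ((p : ℝ)⁻¹) ^ n := by
  obtain ⟨c, rfl⟩ := h
  push_cast
  rw [norm_mul, norm_pow, Padic.norm_p]
  exact mul_le_of_le_one_right (by positivity) (Padic.norm_int_le_one c)

theorem exists_residue {N : ℕ} (hN : 0 < N) (A : Matrix (Fin N) (Fin N) ℚ_[p])
    (hA : ∀ k i, ‖A k i‖ ≤ 1) (hdet : ‖A.det‖ = 1) (m' : ℕ) (hm' : 0 < m') (hpm : m' < p)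
    (a' : Fin N → ℤ) :
    ∃ a : Fin N → ℤ, (∀ i, a i ≡ a' i [ZMOD m']) ∧
      ∀ b : Fin N → ℤ, (∀ i, b i ≡ a i [ZMOD ((m' * p ^ N : ℕ) : ℤ)]) →
        (∀ k : Fin N, (k : ℕ) + 1 < N → ‖∑ i, (b i : ℚ_[p]) * A k i‖ ≤ ((p : ℝ)⁻¹) ^ N) ∧
        (∀ k : Fin N, (k : ℕ) + 1 = N → ‖∑ i, (b i : ℚ_[p]) * A k i‖ = 1) := by
  have hp1 : (1 : ℝ) < p := by exact_mod_cast (Fact.out : p.Prime).one_lt
  have hρ1 : (p : ℝ)⁻¹ < 1 := inv_lt_one_of_one_lt₀ hp1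
  have hρ0 : (0 : ℝ) ≤ (p : ℝ)⁻¹ := by positivity
  obtain ⟨β, hβ⟩ := solve A hA hdet (fun k => if (k : ℕ) + 1 = N then 1 else 0)
  have hcop : IsCoprime (m' : ℤ) ((p ^ N : ℕ) : ℤ) := by
    rw [Nat.isCoprime_iff_coprime]
    exact Nat.Coprime.pow_right N (Nat.coprime_of_lt_prime (by omega) hpm Fact.out).symm
  have h1 : ∀ i, ∃ x : ℤ, x ≡ a' i [ZMOD m'] ∧ x ≡ ((β i).appr N : ℤ) [ZMOD ((p ^ N : ℕ) : ℤ)] :=
    fun i => crt _ _ hcop _ _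
  choose a ha1 ha2 using h1
  refine ⟨a, ha1, fun b hb => ?_⟩
  have h2 : ∀ i, ‖(b i : ℚ_[p]) - β i‖ ≤ ((p : ℝ)⁻¹) ^ N := by
    intro i
    have h3 : ‖((b i - ((β i).appr N : ℤ) : ℤ) : ℚ_[p])‖ ≤ ((p : ℝ)⁻¹) ^ N := by
      apply norm_int_of_dvd
      have h4 : b i ≡ ((β i).appr N : ℤ) [ZMOD ((p ^ N : ℕ) : ℤ)] := by
        refine Int.ModEq.trans ?_ (ha2 i)
        refine Int.ModEq.of_dvd ?_ (hb i)
        push_cast
        exact Dvd.intro_left _ rfl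
      exact h4.symm.dvd
    have h5 : ‖((((β i).appr N : ℤ_[p]) - β i : ℤ_[p]) : ℚ_[p])‖ ≤ ((p : ℝ)⁻¹) ^ N := by
      have h6 := PadicInt.appr_spec N (β i)
      rw [← PadicInt.norm_le_pow_iff_mem_span_pow] at h6
      rw [← PadicInt.norm_def, norm_sub_rev]
      rwa [zpow_neg, zpow_natCast, ← inv_pow] at h6
    have h7 : (b i : ℚ_[p]) - β i = ((b i - ((β i).appr N : ℤ) : ℤ) : ℚ_[p]) +
        ((((β i).appr N : ℤ_[p]) - β i : ℤ_[p]) : ℚ_[p]) := by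
      push_cast
      ring
    rw [h7]
    exact (IsUltrametricDist.norm_add_le_max _ _).trans (max_le h3 h5)
  have h3 : ∀ k, ‖∑ i, (b i : ℚ_[p]) * A k i - ((if (k : ℕ) + 1 = N then 1 else 0 : ℤ_[p]) : ℚ_[p])‖ ≤
      ((p : ℝ)⁻¹) ^ N := by
    intro k
    rw [← hβ k, ← Finset.sum_sub_distrib]
    apply IsUltrametricDist.norm_sum_le_of_forall_le_of_nonneg (by positivity)
    intro i _
    rw [← sub_mul, norm_mul]
    calc _ ≤ ((p : ℝ)⁻¹) ^ N * 1 := mul_le_mul (h2 i) (hA k i) (norm_nonneg _) (by positivity)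
      _ = _ := mul_one _
  constructor
  · intro k hk
    have h4 := h3 k
    rw [if_neg (by omega)] at h4
    simpa using h4
  · intro k hk
    have h4 := h3 k
    rw [if_pos hk] at h4
    have h5 : ((1 : ℤ_[p]) : ℚ_[p]) = 1 := rfl
    rw [h5] at h4
    have h6 : ((p : ℝ)⁻¹) ^ N < 1 := pow_lt_one₀ hρ0 hρ1 hN.ne'
    have h7 : ‖∑ i, (b i : ℚ_[p]) * A k i - 1‖ < ‖(1 : ℚ_[p])‖ := by
      rw [norm_one]; exact h4.trans_lt h6
    have h8 := IsUltrametricDist.norm_add_eq_max_of_norm_ne_norm (x := ∑ i, (b i : ℚ_[p]) * A k i - 1)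
      (y := (1 : ℚ_[p])) h7.ne
    rw [sub_add_cancel, max_eq_right h7.le, norm_one] at h8
    exact h8

end Pool.Agent.W2helper76.SP
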