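import Pool.Agent.W2helper76.SP.Reduce
import Pool.Agent.W2helper76.SP.Loc
import Pool.Agent.W2helper76.SP.Mat
import Pool.Agent.H351R3.Gel.Char

/-!
# The main case
-/

set_option autoImplicit false
set_option linter.unusedSectionVars false

namespace Pool.Agent.W2helper76.SP

open Pool.Agent.W2helper76.UE Polynomial

/-- any `N` distinct exponentials are linearly independent over `ℚ̄(x)` -/
def FreeOver (N : ℕ) (x : ℂ) : Prop :=
  ∀ γ : Fin N → QB, Function.Injective γ → ∀ P : Fin N → QB[X],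
    ∑ j, aeval x (P j) * Complex.exp (γ j) = 0 → P = 0

lemma isAlgClosed_QB : IsAlgClosed QB := by
  have h : IsAlgClosure ℚ (algebraicClosure ℚ ℂ) := algebraicClosure.isAlgClosure ℚ ℂ
  exact h.1

lemma exists_rho : ∃ ρ : Multiplicative ℚ →* QB, ∀ q : ℚ, q ≠ 0 → ρ (Multiplicative.ofAdd q) ≠ 1 := by
  have hb : IsAlgebraic ℚ (Complex.exp (Real.log 2 : ℂ)) := by
    rw [← Complex.ofReal_exp, Real.exp_log (by norm_num)]
    have := isAlgebraic_natCast (R := ℚ) (A := ℂ) 2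
    push_cast
    exact_mod_cast this
  refine ⟨{ toFun := fun q => ⟨Complex.exp (((Multiplicative.toAdd q : ℚ) : ℂ) * (Real.log 2 : ℂ)),
              mem_QB.2 (Pool.Agent.H351R3.Gel.isAlgebraic_exp_rat_mul hb _)⟩
            map_one' := by
              apply Subtype.ext
              simp
            map_mul' := fun a b => by
              apply Subtype.ext
              simp only [toAdd_mul]
              push_cast
              rw [← Complex.exp_add]
              congr 1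
              ring }, ?_⟩
  intro q hq h1
  have h2 : Complex.exp ((q : ℂ) * (Real.log 2 : ℂ)) = 1 := congrArg Subtype.val h1
  have h3 : Complex.exp (((q : ℝ) * Real.log 2 : ℝ) : ℂ) = 1 := by
    rw [← h2]
    push_cast
    rfl
  have h4 : Real.exp ((q : ℝ) * Real.log 2) = 1 := by
    have := h3
    rw [← Complex.ofReal_exp] at this
    exact_mod_cast this
  rw [Real.exp_eq_one_iff] at h4
  rcases mul_eq_zero.1 h4 with h5 | h5
  · exact hq (by exact_mod_cast h5)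
  · have := Real.log_pos (by norm_num : (1 : ℝ) < 2)
    linarith

/-- the group generated by `G` and its exponentials -/
lemma closure_exp (G : Set QB) (M : Subfield ℂ) (h1 : ∀ γ ∈ G, (γ : ℂ) ∈ M)
    (h2 : ∀ γ ∈ G, Complex.exp (γ : ℂ) ∈ M) {γ : QB} (hγ : γ ∈ AddSubgroup.closure G) :
    (γ : ℂ) ∈ M ∧ Complex.exp (γ : ℂ) ∈ M := by
  induction hγ using AddSubgroup.closure_induction with
  | mem γ hγ => exact ⟨h1 γ hγ, h2 γ hγ⟩
  | zero =>
    have h0 : ((0 : QB) : ℂ) = 0 := rfl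
    rw [h0, Complex.exp_zero]
    exact ⟨zero_mem _, one_mem _⟩
  | add a b _ _ ha hb =>
    have h0 : ((a + b : QB) : ℂ) = a + b := rfl
    rw [h0, Complex.exp_add]
    exact ⟨add_mem ha.1 hb.1, mul_mem ha.2 hb.2⟩
  | neg a _ ha =>
    have h0 : ((-a : QB) : ℂ) = -a := rfl
    rw [h0, Complex.exp_neg]
    exact ⟨neg_mem ha.1, inv_mem ha.2⟩

lemma closure_mem_subring (G : Set QB) (A : Subring ℂ) (h1 : ∀ γ ∈ G, (γ : ℂ) ∈ A)
    {γ : QB} (hγ : γ ∈ AddSubgroup.closure G) : (γ : ℂ) ∈ A := by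
  induction hγ using AddSubgroup.closure_induction with
  | mem γ hγ => exact h1 γ hγ
  | zero => exact zero_mem _
  | add a b _ _ ha hb => exact add_mem ha hb
  | neg a _ ha => exact neg_mem ha

lemma alg_up (M : Subfield ℂ) {a : ℂ} (h : IsAlgebraic ℚ a) : IsAlgebraic M a :=
  h.tower_top M

/-- `D ^ n` of combinations -/
lemma iter_comb {N : ℕ} (D : Derivation QB ℂ ℂ) (b : Fin N → ℤ) (z : Fin N → ℂ) (n : ℕ) :
    D^[n] (∑ i, (b i : ℂ) * z i) = ∑ i, (b i : ℂ) * D^[n] (z i) := by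
  induction n with
  | zero => rfl
  | succ n ih =>
    rw [Function.iterate_succ_apply', ih, map_sum]
    refine Finset.sum_congr rfl fun i _ => ?_
    rw [Derivation.leibniz, Derivation.map_intCast, Function.iterate_succ_apply']
    simp

theorem caseB (N : ℕ) (hN : 0 < N) (z : Fin N → ℂ)
    (hz : ∀ (c₀ : QB) (c : Fin N → QB), (c₀ : ℂ) + ∑ i, (c i : ℂ) * z i = 0 → c = 0)
    (hK : ∀ i, z i ∈ AV QB expQ ⊤) (m' : ℕ) (hm' : 0 < m') (a' : Fin N → ℤ) :
    ∃ (m : ℕ) (a : Fin N → ℤ), 0 < m ∧ m' ∣ m ∧ (∀ i, a i ≡ a' i [ZMOD m']) ∧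
      ∀ b : Fin N → ℤ, (∀ i, b i ≡ a i [ZMOD m]) → FreeOver N (∑ i, (b i : ℂ) * z i) := by
  classical
  have hac : IsAlgClosed QB := isAlgClosed_QB
  obtain ⟨ρ, hρ⟩ := exists_rho
  obtain ⟨G, hG⟩ := exists_fin' lwiQ z hK
  set V := Submodule.span ℚ (G : Set QB) with hV
  set L := AddSubgroup.closure (G : Set QB) with hL
  -- the derivation
  obtain ⟨D, hD⟩ := exists_D lwiQ (algebraMap QB ℂ).toAddMonoidHom
  have hD' : ∀ γ : QB, D (Complex.exp γ) = γ * Complex.exp γ := hD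
  have hDc : ∀ γ : QB, D (γ : ℂ) = 0 := fun γ => D.map_algebraMap γ
  set D₀ : Derivation ℤ ℂ ℂ := D.restrictScalars ℤ with hD₀
  have hDD : ∀ w, D₀ w = D w := fun w => rfl
  have hit : ∀ (n : ℕ) (w : ℂ), D₀^[n] w = D^[n] w := fun n w => rfl
  -- the finite sets
  set T₁ : Finset ℂ := G.image (fun γ : QB => (γ : ℂ)) ∪
    G.image (fun γ : QB => Complex.exp (γ : ℂ)) with hT₁
  set T : Finset ℂ := T₁ ∪ Finset.univ.image z with hT
  have hGT₁ : ∀ γ ∈ G, (γ : ℂ) ∈ T₁ := fun γ hγ =>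
    Finset.mem_union_left _ (Finset.mem_image_of_mem _ hγ)
  have hGT₁' : ∀ γ ∈ G, Complex.exp (γ : ℂ) ∈ T₁ := fun γ hγ =>
    Finset.mem_union_right _ (Finset.mem_image_of_mem _ hγ)
  have hT₁D : ∀ t ∈ (T₁ : Set ℂ), D₀ t ∈ Subfield.closure (T₁ : Set ℂ) := by
    intro t ht
    rcases Finset.mem_union.1 (Finset.mem_coe.1 ht) with h | h
    · obtain ⟨γ, hγ, rfl⟩ := Finset.mem_image.1 h
      rw [hDD, hDc]
      exact zero_mem _
    · obtain ⟨γ, hγ, rfl⟩ := Finset.mem_image.1 h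
      rw [hDD, hD']
      exact mul_mem (Subfield.subset_closure (hGT₁ γ hγ)) (Subfield.subset_closure (hGT₁' γ hγ))
  have hFst : ∀ w ∈ Subfield.closure (T₁ : Set ℂ), D₀ w ∈ Subfield.closure (T₁ : Set ℂ) :=
    fun w hw => D_subfield D₀ _ _ le_rfl hT₁D hw
  have hzalg : ∀ i, IsAlgebraic (Subfield.closure (T₁ : Set ℂ)) (z i) := by
    intro i
    refine alg_AV (κ := QB) (E := expQ) (V := V) (fun a => alg_up _ (mem_QB.1 a.2)) ?_ (hG i)
    intro γ hγ
    obtain ⟨k, hk, hkγ⟩ := exists_mul_mem _ hγ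
    have h1 := (closure_exp (G : Set QB) (Subfield.closure (T₁ : Set ℂ))
      (fun γ hγ => Subfield.subset_closure (hGT₁ γ hγ))
      (fun γ hγ => Subfield.subset_closure (hGT₁' γ hγ)) hkγ).2
    refine IsAlgebraic.of_pow hk ?_
    rw [← ex_nsmul]
    exact isAlgebraic_algebraMap (⟨_, h1⟩ : Subfield.closure (T₁ : Set ℂ))
  have hT₁T : Subfield.closure (T₁ : Set ℂ) ≤ Subfield.closure (T : Set ℂ) :=
    Subfield.closure_mono (by
      intro w hw
      exact Finset.mem_coe.2 (Finset.mem_union_left _ hw))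
  have hzT : ∀ i, z i ∈ T := fun i =>
    Finset.mem_union_right _ (Finset.mem_image_of_mem _ (Finset.mem_univ i))
  have hTD : ∀ t ∈ T, D₀ t ∈ Subfield.closure (T : Set ℂ) := by
    intro t ht
    rcases Finset.mem_union.1 ht with h | h
    · exact hT₁T (hT₁D t h)
    · obtain ⟨i, -, rfl⟩ := Finset.mem_image.1 h
      exact D_alg D₀ _ _ hT₁T hFst (hzalg i) (Subfield.subset_closure (hzT i))
  obtain ⟨q, hq, hq0, hstab⟩ := stab D₀ T hTD
  set A := Subring.closure (insert q⁻¹ (T : Set ℂ)) with hA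
  have hqT : q ∈ Subfield.closure (T : Set ℂ) :=
    (Subring.closure_le.2 (fun t ht => Subfield.subset_closure ht) :
      Subring.closure (T : Set ℂ) ≤ (Subfield.closure (T : Set ℂ)).toSubring) hq
  have hTst : ∀ w ∈ Subfield.closure (T : Set ℂ), D₀ w ∈ Subfield.closure (T : Set ℂ) :=
    fun w hw => D_subfield D₀ _ _ le_rfl (fun t ht => hTD t ht) hw
  have hzAn : ∀ (n : ℕ) (i : Fin N), D^[n] (z i) ∈ A := by
    intro n i
    induction n with
    | zero => exact Subring.subset_closure (Set.mem_insert_of_mem _ (hzT i))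
    | succ n ih => rw [Function.iterate_succ_apply']; exact hstab _ ih
  have hzTn : ∀ (n : ℕ) (i : Fin N), D^[n] (z i) ∈ Subfield.closure (T : Set ℂ) := by
    intro n i
    induction n with
    | zero => exact Subfield.subset_closure (hzT i)
    | succ n ih => rw [Function.iterate_succ_apply']; exact hTst _ ih
  -- the Wronskian
  set W := (Matrix.of fun k i : Fin N => D^[(k : ℕ)] (D (z i))).det with hW
  have hW0 : W ≠ 0 := wr_ne D (fun γ => γ) (fun a b h => h) hD z hK hz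
  -- the field
  have hzalg' : ∀ i, IsAlgebraic (FL QB expQ L) (z i) := by
    intro i
    refine alg_AV (κ := QB) (E := expQ) (V := V) (fun a => ?_) ?_ (hG i)
    · exact isAlgebraic_algebraMap (algebraMap QB (FL QB expQ L) a)
    · intro γ hγ
      obtain ⟨k, hk, hkγ⟩ := ex_alg_FL (κ := QB) (E := expQ) hγ
      refine IsAlgebraic.of_pow hk ?_
      exact isAlgebraic_algebraMap (⟨_, hkγ⟩ : FL QB expQ L)
  set F : IntermediateField (FL QB expQ L) ℂ :=
    IntermediateField.adjoin (FL QB expQ L) (Set.range z) with hF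
  have hfin : FiniteDimensional (FL QB expQ L) F := by
    apply IntermediateField.finiteDimensional_adjoin
    rintro w ⟨i, rfl⟩
    exact (hzalg' i).isIntegral
  set d := Module.finrank (FL QB expQ L) F with hd
  -- the prime
  set s : Set ℂ := ((insert W (insert q T) : Finset ℂ) : Set ℂ) with hs
  set M := Subfield.closure s with hM
  obtain ⟨p, hp, hBp, σ, hσ⟩ : ∃ (p : ℕ) (_ : Fact p.Prime), N + 1 + m' + d < p ∧
      ∃ σ : M →+* ℚ_[p], ∀ x : M, (x : ℂ) ∈ insert W (insert q T) → (x : ℂ) ≠ 0 → ‖σ x‖ = 1 :=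
    Pool.Agent.N530.LS.stmA2 (insert W (insert q T)) (N + 1 + m' + d)
  have hTM : Subfield.closure (T : Set ℂ) ≤ M := Subfield.closure_mono (by
    intro w hw
    exact Finset.mem_coe.2 (Finset.mem_insert_of_mem (Finset.mem_insert_of_mem hw)))
  have hWT : W ∈ Subfield.closure (T : Set ℂ) := by
    rw [hW, Matrix.det_apply]
    refine sum_mem fun τ _ => ?_
    have h1 : ∏ i, (Matrix.of fun k i : Fin N => D^[(k : ℕ)] (D (z i))) (τ i) i ∈
        Subfield.closure (T : Set ℂ) := prod_mem fun i _ => hzTn ((τ i : ℕ) + 1) i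
    exact zsmul_mem h1 _
  have hMT : M ≤ Subfield.closure (T : Set ℂ) := by
    rw [hM, Subfield.closure_le]
    intro w hw
    rcases Finset.mem_insert.1 (Finset.mem_coe.1 hw) with h | h
    · rw [h]; exact hWT
    · rcases Finset.mem_insert.1 h with h | h
      · rw [h]; exact hqT
      · exact Subfield.subset_closure h
  have hMst : ∀ w ∈ M, D₀ w ∈ M := fun w hw => hTM (hTst w (hMT hw))
  -- norms on the ring
  have hnorm : ∀ w ∈ A, ∃ hw : w ∈ M, ‖σ ⟨w, hw⟩‖ ≤ 1 := by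
    intro w hw
    refine norm_le_of_closure s σ (insert q⁻¹ (T : Set ℂ)) ?_ ?_ hw
    · intro w hw
      rcases Set.mem_insert_iff.1 hw with h | h
      · rw [h]; exact inv_mem (hTM hqT)
      · exact hTM (Subfield.subset_closure h)
    · intro w hw
      rcases Set.mem_insert_iff.1 hw with h | h
      · have hqM : q ∈ M := hTM hqT
        have h1 : w = (⟨q, hqM⟩ : M)⁻¹ := Subtype.ext h
        rw [h1, map_inv₀, norm_inv, hσ ⟨q, hqM⟩ (by simp) hq0, inv_one]
      · by_cases h0 : (w : ℂ) = 0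
        · have : w = 0 := Subtype.ext h0
          rw [this, map_zero, norm_zero]
          exact zero_le_one
        · exact (hσ w (by
            exact Finset.mem_insert_of_mem (Finset.mem_insert_of_mem h)) h0).le
  have hnorm' : ∀ w ∈ A, ∀ hw : w ∈ M, ‖σ ⟨w, hw⟩‖ ≤ 1 := fun w hw hw' => (hnorm w hw).2
  -- the matrix
  have hzM : ∀ (n : ℕ) (i : Fin N), D^[n] (z i) ∈ M := fun n i => hTM (hzTn n i)
  set Mt : Matrix (Fin N) (Fin N) ℚ_[p] :=
    Matrix.of fun k i => σ ⟨D^[(k : ℕ) + 1] (z i), hzM _ i⟩ with hMt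
  have hMt1 : ∀ k i, ‖Mt k i‖ ≤ 1 := fun k i => hnorm' _ (hzAn _ i) _
  have hMtdet : ‖Mt.det‖ = 1 := by
    have h1 := RingHom.map_det M.subtype
      (Matrix.of fun k i : Fin N => (⟨D^[(k : ℕ) + 1] (z i), hzM _ i⟩ : M))
    have h2 : M.subtype.mapMatrix
      (Matrix.of fun k i : Fin N => (⟨D^[(k : ℕ) + 1] (z i), hzM _ i⟩ : M)) =
      Matrix.of fun k i : Fin N => D^[(k : ℕ)] (D (z i)) := by
      ext k i
      rfl
    rw [h2, ← hW] at h1
    have h3 := RingHom.map_det σ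
      (Matrix.of fun k i : Fin N => (⟨D^[(k : ℕ) + 1] (z i), hzM _ i⟩ : M))
    have h4 : σ.mapMatrix
      (Matrix.of fun k i : Fin N => (⟨D^[(k : ℕ) + 1] (z i), hzM _ i⟩ : M)) = Mt := by
      ext k i
      rfl
    rw [h4] at h3
    rw [← h3]
    refine hσ _ ?_ ?_
    · have h5 : ((Matrix.of fun k i : Fin N => (⟨D^[(k : ℕ) + 1] (z i), hzM _ i⟩ : M)).det : ℂ) = W :=
        h1
      rw [h5]
      exact Finset.mem_insert_self _ _
    · intro h6
      apply hW0
      rw [← h6]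
      exact h1.symm
  obtain ⟨a, ha1, ha2⟩ := exists_residue hN Mt hMt1 hMtdet m' hm' (by omega) a'
  refine ⟨m' * p ^ N, a, Nat.mul_pos hm' (pow_pos hp.out.pos N), Dvd.intro _ rfl, ha1, ?_⟩
  intro b hb
  obtain ⟨hb1, hb2⟩ := ha2 b hb
  set x : ℂ := ∑ i, (b i : ℂ) * z i with hx
  have hxM : x ∈ M := by
    rw [hx]
    exact sum_mem fun i _ => mul_mem (intCast_mem M _) (hzM 0 i)
  have hxA : x ∈ A := by
    rw [hx]
    exact sum_mem fun i _ => mul_mem (intCast_mem A _) (hzAn 0 i)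
  have hxit : ∀ n : ℕ, ∀ h : D₀^[n] x ∈ M, σ ⟨D₀^[n] x, h⟩ =
      ∑ i, (b i : ℚ_[p]) * σ ⟨D^[n] (z i), hzM n i⟩ := by
    intro n h
    have h1 : (⟨D₀^[n] x, h⟩ : M) = ∑ i, (b i : M) * ⟨D^[n] (z i), hzM n i⟩ := by
      apply Subtype.ext
      have h2 : ((∑ i, (b i : M) * ⟨D^[n] (z i), hzM n i⟩ : M) : ℂ) =
          ∑ i, (b i : ℂ) * D^[n] (z i) := by
        push_cast
        rfl
      rw [h2, ← iter_comb]
      exact hit n _
    rw [h1, map_sum]
    refine Finset.sum_congr rfl fun i _ => ?_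
    rw [map_mul, map_intCast]
  have hxlow : ∀ n, 1 ≤ n → n < N → ∀ h : D₀^[n] x ∈ M, ‖σ ⟨D₀^[n] x, h⟩‖ ≤ ((p : ℝ)⁻¹) ^ N := by
    intro n hn hn' h
    rw [hxit]
    obtain ⟨k, rfl⟩ : ∃ k, n = k + 1 := ⟨n - 1, by omega⟩
    exact hb1 ⟨k, by omega⟩ hn'
  have hxN : ∀ h : D₀^[N] x ∈ M, ‖σ ⟨D₀^[N] x, h⟩‖ = 1 := by
    intro h
    rw [hxit]
    have h1 := hb2 ⟨N - 1, by omega⟩ (by simp only; omega)
    have h2 : ∀ (n : ℕ), n = N → ‖∑ i, (b i : ℚ_[p]) * σ ⟨D^[n] (z i), hzM n i⟩‖ = 1 →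
        ‖∑ i, (b i : ℚ_[p]) * σ ⟨D^[N] (z i), hzM N i⟩‖ = 1 := by
      rintro n rfl h
      exact h
    exact h2 (N - 1 + 1) (by omega) h1
  have hDA : ∀ (n : ℕ), D₀^[n] x ∈ A := by
    intro n
    induction n with
    | zero => exact hxA
    | succ n ih => rw [Function.iterate_succ_apply']; exact hstab _ ih
  -- transcendence of x
  have hxtr : ∀ P : QB[X], aeval x P = 0 → P = 0 := by
    intro P hP
    by_contra hP0
    have h1 : IsAlgebraic QB x := ⟨P, hP0, hP⟩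
    obtain ⟨c, hc⟩ := alg_mem_range h1
    have h2 : D₀^[N] x = 0 := by
      obtain ⟨k, rfl⟩ : ∃ k, N = k + 1 := ⟨N - 1, by omega⟩
      rw [Function.iterate_succ_apply, hDD, ← hc, D.map_algebraMap]
      exact iter_zero D₀ k
    have h3 := hxN (by rw [h2]; exact zero_mem _)
    have h4 : (⟨D₀^[N] x, by rw [h2]; exact zero_mem _⟩ : M) = 0 := Subtype.ext h2
    rw [h4, map_zero, norm_zero] at h3
    exact zero_ne_one h3
  -- the relation
  intro γ hγ P hrel
  by_contra hP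
  obtain ⟨j₀, hj₀⟩ : ∃ j, P j ≠ 0 := by
    by_contra hcon
    push Not at hcon
    exact hP (funext hcon)
  have hxF : x ∈ F := F.sum_mem fun i _ => F.mul_mem (intCast_mem F _)
    (IntermediateField.subset_adjoin _ _ ⟨i, rfl⟩)
  have hxV : x ∈ AV QB expQ V := (AV QB expQ V).sum_mem fun i _ =>
    (AV QB expQ V).mul_mem (intCast_mem _ _) (hG i)
  obtain ⟨S, j₁, Q, hj₁, hQ, hQrel, hk⟩ := reduce lwiQ ρ hρ (G : Set QB) F hxF hxV hxtr γ P j₀ hj₀
    hrel
  have hδ : ∀ j : S, ∃ h : ((γ j - γ j₁ : QB) : ℂ) ∈ M, ‖σ ⟨((γ j - γ j₁ : QB) : ℂ), h⟩‖ ≤ 1 := by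
    intro j
    obtain ⟨k, hk0, hkd, hkL⟩ := hk j j.2
    have h1 : ((k • (γ j - γ j₁) : QB) : ℂ) ∈ A := closure_mem_subring (G : Set QB) A
      (fun γ hγ => Subring.subset_closure (Set.mem_insert_of_mem _
        (Finset.mem_coe.2 (Finset.mem_union_left _ (hGT₁ γ hγ))))) hkL
    obtain ⟨h2, h3⟩ := hnorm _ h1
    have h4 : ((k • (γ j - γ j₁) : QB) : ℂ) = (k : ℂ) * ((γ j - γ j₁ : QB) : ℂ) := by
      rw [← nsmul_eq_mul]
      rfl
    have hkC : (k : ℂ) ≠ 0 := by exact_mod_cast hk0.ne'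
    have h5 : ((γ j - γ j₁ : QB) : ℂ) ∈ M := by
      have h6 : ((γ j - γ j₁ : QB) : ℂ) = (k : ℂ)⁻¹ * ((k • (γ j - γ j₁) : QB) : ℂ) := by
        rw [h4, inv_mul_cancel_left₀ hkC]
      rw [h6]
      exact mul_mem (inv_mem (natCast_mem M k)) h2
    refine ⟨h5, ?_⟩
    have h7 : (⟨_, h2⟩ : M) = (k : M) * ⟨((γ j - γ j₁ : QB) : ℂ), h5⟩ := by
      apply Subtype.ext
      rw [h4]
      rfl
    have hkd' : k ≤ d := hkd
    rw [h7, map_mul, map_natCast, norm_mul, norm_nat_unit hk0 (by omega), one_mul] at h3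
    exact h3
  have hne : Nonempty S := ⟨⟨j₁, hj₁⟩⟩
  refine local_part M σ D₀ hMst N (by omega) x hxM (fun n h1 h2 => hxlow n h1 h2 _) (hxN _)
    (fun n _ => hnorm' _ (hDA n) _) (J := S) ?_
    (fun j => ⟨((γ j - γ j₁ : QB) : ℂ), (hδ j).1⟩) (fun j => (hδ j).2) ?_ (fun j => hDc (γ j - γ j₁))
    (fun j => Complex.exp ((γ j - γ j₁ : QB) : ℂ)) ?_ (fun j => Complex.exp_ne_zero _)
    (fun j => hD' _) (fun j => (Q j).map (algebraMap QB ℂ)) ?_ ?_ ?_ ?_
  · rw [Fintype.card_coe]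
    exact (Finset.card_le_univ S).trans (by rw [Fintype.card_fin])
  · intro j j' hjj
    have h1 : ((γ j - γ j₁ : QB) : ℂ) = ((γ j' - γ j₁ : QB) : ℂ) :=
      congrArg (fun w : M => (w : ℂ)) hjj
    have h2 : γ j - γ j₁ = γ j' - γ j₁ := Subtype.ext h1
    exact Subtype.ext (hγ (sub_left_injective h2))
  · intro j
    obtain ⟨k, hk0, hkd, hkL⟩ := hk j j.2
    have h1 := (closure_exp (G : Set QB) M (fun γ hγ => hTM (hT₁T (Subfield.subset_closure (hGT₁ γ hγ))))
      (fun γ hγ => hTM (hT₁T (Subfield.subset_closure (hGT₁' γ hγ)))) hkL).2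
    refine IsAlgebraic.of_pow hk0 ?_
    have h2 : Complex.exp ((γ j - γ j₁ : QB) : ℂ) ^ k = Complex.exp ((k • (γ j - γ j₁) : QB) : ℂ) := by
      rw [← Complex.exp_nat_mul, ← nsmul_eq_mul]
      rfl
    rw [h2]
    exact isAlgebraic_algebraMap (⟨_, h1⟩ : M)
  · intro j i
    rw [Polynomial.coeff_map]
    exact alg_up M (mem_QB.1 ((Q j).coeff i).2)
  · intro j i
    rw [Polynomial.coeff_map]
    exact hDc _
  · intro j
    rw [Polynomial.eval_map_algebraMap]
    exact hQ j j.2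
  · rw [← hQrel, ← Finset.sum_coe_sort S]
    refine Finset.sum_congr rfl fun j _ => ?_
    rw [Polynomial.eval_map_algebraMap]
    rfl

end Pool.Agent.W2helper76.SP
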