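import Mathlib

/-!
# Norms of linear forms
-/

set_option autoImplicit false
set_option linter.unusedSectionVars false

namespace Pool.Agent.W2helper76.SP

open Polynomial

section abstract

variable {k₀ k A : Type} [Field k₀] [Field k] [Field A] [Algebra k₀ k] [Algebra k₀ A]
  {J : Type} [Fintype J]

lemma nform_inv [FiniteDimensional k₀ k] (c : J → k) (φ : A ≃ₐ[k₀] A) :
    MvPolynomial.map ((φ : A →ₐ[k₀] A) : A →+* A)
      (∏ τ : k →ₐ[k₀] A, ∑ j, MvPolynomial.C (τ (c j)) * MvPolynomial.X j) =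
      ∏ τ : k →ₐ[k₀] A, ∑ j, MvPolynomial.C (τ (c j)) * MvPolynomial.X j := by
  rw [map_prod]
  refine Fintype.prod_equiv
    { toFun := fun τ => (φ : A →ₐ[k₀] A).comp τ
      invFun := fun τ => (φ.symm : A →ₐ[k₀] A).comp τ
      left_inv := fun τ => by ext a; simp
      right_inv := fun τ => by ext a; simp } _ _ fun τ => ?_
  rw [map_sum]
  refine Finset.sum_congr rfl fun j _ => ?_
  rw [map_mul, MvPolynomial.map_C, MvPolynomial.map_X]
  rfl

lemma nform_coeff [FiniteDimensional k₀ k] [CharZero k₀] [IsAlgClosure k₀ A] (c : J → k)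
    (μ : J →₀ ℕ) : ∃ a : k₀, algebraMap k₀ A a =
      (∏ τ : k →ₐ[k₀] A, ∑ j, MvPolynomial.C (τ (c j)) * MvPolynomial.X j).coeff μ := by
  have hgal : IsGalois k₀ A := IsAlgClosure.isGalois k₀ _
  have h1 := (InfiniteGalois.mem_bot_iff_fixed (k := k₀) (K := A)
    ((∏ τ : k →ₐ[k₀] A, ∑ j, MvPolynomial.C (τ (c j)) * MvPolynomial.X j).coeff μ)).2 (by
    intro φ
    have h2 := congrArg (fun q => q.coeff μ) (nform_inv c φ)
    simp only [MvPolynomial.coeff_map] at h2
    exact h2)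
  exact IntermediateField.mem_bot.1 h1

lemma descent₁ {C : Type} [Field C] [Algebra k₀ C] [Algebra k C] [IsScalarTower k₀ k C]
    [CharZero k₀] [IsAlgClosed C] [FiniteDimensional k₀ k] (c : J → k) (hc : ∃ j, c j ≠ 0) :
    ∃ (B : Type) (_ : Fintype B) (d : B → J → C), Fintype.card B = Module.finrank k₀ k ∧
      (∀ b j, IsAlgebraic k₀ (d b j)) ∧ (∀ b, ∃ j, d b j ≠ 0) ∧
      (∃ b₀, ∀ j, d b₀ j = algebraMap k C (c j)) ∧
      ∀ μ, ∃ a : k₀, algebraMap k₀ C a =
        (∏ b, ∑ j, MvPolynomial.C (d b j) * MvPolynomial.X j).coeff μ := by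
  classical
  have hcl : IsAlgClosure k₀ (algebraicClosure k₀ C) := algebraicClosure.isAlgClosure k₀ C
  have hcl' : IsAlgClosed (algebraicClosure k₀ C) := hcl.1
  refine ⟨k →ₐ[k₀] algebraicClosure k₀ C, inferInstance,
    fun τ j => ((τ (c j) : algebraicClosure k₀ C) : C), AlgHom.card k₀ k _, ?_, ?_, ?_, ?_⟩
  · intro b j
    exact mem_algebraicClosure_iff.1 (b (c j)).2
  · intro b
    obtain ⟨j, hj⟩ := hc
    refine ⟨j, fun h0 => hj ?_⟩
    have h1 : b (c j) = 0 := Subtype.ext h0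
    exact (map_eq_zero b).1 h1
  · have hk : ∀ a : k, algebraMap k C a ∈ algebraicClosure k₀ C := by
      intro a
      rw [mem_algebraicClosure_iff]
      exact (Algebra.IsAlgebraic.isAlgebraic (R := k₀) a).algebraMap
    refine ⟨(IsScalarTower.toAlgHom k₀ k C).codRestrict (algebraicClosure k₀ C).toSubalgebra hk,
      fun j => rfl⟩
  · intro μ
    obtain ⟨a, ha⟩ := nform_coeff (k₀ := k₀) (A := algebraicClosure k₀ C) c μ
    refine ⟨a, ?_⟩
    have h1 : MvPolynomial.map (algebraMap (algebraicClosure k₀ C) C)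
        (∏ τ : k →ₐ[k₀] algebraicClosure k₀ C, ∑ j, MvPolynomial.C (τ (c j)) * MvPolynomial.X j) =
        ∏ b : k →ₐ[k₀] algebraicClosure k₀ C,
          ∑ j, MvPolynomial.C ((b (c j) : algebraicClosure k₀ C) : C) * MvPolynomial.X j := by
      rw [map_prod]
      refine Finset.prod_congr rfl fun b _ => ?_
      rw [map_sum]
      refine Finset.sum_congr rfl fun j _ => ?_
      rw [map_mul, MvPolynomial.map_C, MvPolynomial.map_X]
      rfl
    rw [← h1, MvPolynomial.coeff_map, ← ha]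
    rfl

end abstract

variable {κ C : Type} [Field κ] [Field C] [Algebra κ C]

lemma clear_mv {x : C} {J : Type} (NC : MvPolynomial J C)
    (h : ∀ μ, NC.coeff μ ∈ IntermediateField.adjoin κ {x}) :
    ∃ (P : MvPolynomial J κ[X]) (R : C), R ≠ 0 ∧ R ∈ IntermediateField.adjoin κ {x} ∧
      MvPolynomial.map (aeval x : κ[X] →ₐ[κ] C).toRingHom P = MvPolynomial.C R * NC := by
  classical
  have hfrac : ∀ μ, ∃ r t : κ[X], aeval x t ≠ 0 ∧ aeval x r = NC.coeff μ * aeval x t := by
    intro μ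
    obtain ⟨r, t, hrt⟩ := (IntermediateField.mem_adjoin_simple_iff κ (NC.coeff μ)).1 (h μ)
    by_cases ht : aeval x t = 0
    · refine ⟨0, 1, by simp, ?_⟩
      rw [hrt, ht, div_zero, map_zero, zero_mul]
    · refine ⟨r, t, ht, ?_⟩
      rw [hrt, div_mul_cancel₀ _ ht]
  choose r t ht hrt using hfrac
  refine ⟨∑ μ ∈ NC.support,
    MvPolynomial.monomial μ (r μ * ∏ ν ∈ NC.support.erase μ, t ν), ∏ μ ∈ NC.support, aeval x (t μ),
    ?_, ?_, ?_⟩
  · exact Finset.prod_ne_zero_iff.2 fun μ _ => ht μ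
  · refine prod_mem fun μ _ => ?_
    rw [IntermediateField.mem_adjoin_simple_iff]
    exact ⟨t μ, 1, by rw [map_one, div_one]⟩
  · rw [map_sum]
    have h1 : ∀ μ ∈ NC.support, MvPolynomial.map (aeval x : κ[X] →ₐ[κ] C).toRingHom
        (MvPolynomial.monomial μ (r μ * ∏ ν ∈ NC.support.erase μ, t ν)) =
        MvPolynomial.C (∏ μ ∈ NC.support, aeval x (t μ)) *
          MvPolynomial.monomial μ (NC.coeff μ) := by
      intro μ hμ
      rw [MvPolynomial.map_monomial, MvPolynomial.C_mul_monomial]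
      congr 1
      show aeval x (r μ * ∏ ν ∈ NC.support.erase μ, t ν) = _
      rw [map_mul, map_prod, hrt, ← Finset.mul_prod_erase _ _ hμ]
      ring
    rw [Finset.sum_congr rfl h1, ← Finset.mul_sum, MvPolynomial.support_sum_monomial_coeff]

theorem descent [CharZero κ] [IsAlgClosed C] {x : C}
    (k : IntermediateField (IntermediateField.adjoin κ {x}) C)
    [FiniteDimensional (IntermediateField.adjoin κ {x}) k] {J : Type} [Fintype J] (c : J → k)
    (hc : ∃ j, c j ≠ 0) :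
    ∃ (B : Type) (_ : Fintype B) (d : B → J → C) (P : MvPolynomial J κ[X]) (R : C),
      Fintype.card B = Module.finrank (IntermediateField.adjoin κ {x}) k ∧ R ≠ 0 ∧
      R ∈ IntermediateField.adjoin κ {x} ∧
      (∀ b j, IsAlgebraic (IntermediateField.adjoin κ {x}) (d b j)) ∧ (∀ b, ∃ j, d b j ≠ 0) ∧
      (∃ b₀, ∀ j, d b₀ j = c j) ∧
      MvPolynomial.map (aeval x : κ[X] →ₐ[κ] C).toRingHom P =
        MvPolynomial.C R * ∏ b, ∑ j, MvPolynomial.C (d b j) * MvPolynomial.X j := by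
  have : CharZero (IntermediateField.adjoin κ {x}) :=
    charZero_of_injective_algebraMap (algebraMap κ (IntermediateField.adjoin κ {x})).injective
  obtain ⟨B, hB, d, h1, h2, h3, h4, h5⟩ := descent₁ (k₀ := IntermediateField.adjoin κ {x})
    (k := k) (C := C) c hc
  obtain ⟨P, R, h6, h7, h8⟩ := clear_mv (κ := κ) (x := x)
    (∏ b, ∑ j, MvPolynomial.C (d b j) * MvPolynomial.X j) (fun μ => by
      obtain ⟨a, ha⟩ := h5 μ
      rw [← ha]
      exact a.2)
  exact ⟨B, hB, d, P, R, h1, h6, h7, h2, h3, h4, h8⟩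

end Pool.Agent.W2helper76.SP
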