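import Pool.Agent.W2helper76.SP.Pad

/-!
# Products of exponential sums as power series over ultrametric fields
-/

set_option autoImplicit false
set_option linter.unusedSectionVars false

namespace Pool.Agent.W2helper76.SP

open PowerSeries Finset

variable {Ω : Type*} [NormedField Ω] [IsUltrametricDist Ω]

lemma norm_sum_lt' {ι : Type*} (s : Finset ι) (f : ι → Ω) {C : ℝ} (hC : 0 < C)
    (h : ∀ i ∈ s, ‖f i‖ < C) : ‖∑ i ∈ s, f i‖ < C := by
  classical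
  induction s using Finset.induction_on with
  | empty => simpa using hC
  | insert i s hi ih =>
    rw [sum_insert hi]
    exact (IsUltrametricDist.norm_add_le_max _ _).trans_lt (max_lt (h i (mem_insert_self i s))
      (ih fun j hj => h j (mem_insert_of_mem hj)))

/-- at most `m` zeros in the closed unit disc, with a gap `ρ` -/
def Pol (ρ : ℝ) (f : PowerSeries Ω) (m : ℕ) : Prop :=
  ∃ k ≤ m, coeff k f ≠ 0 ∧ (∀ i, ‖coeff i f‖ ≤ ‖coeff k f‖) ∧
    ∀ i, m < i → ‖coeff i f‖ ≤ ρ * ‖coeff k f‖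

/-- the largest index -/
lemma Pol.last {ρ : ℝ} (hρ : ρ < 1) {f : PowerSeries Ω} {m : ℕ} (hf : Pol ρ f m) :
    ∃ k ≤ m, coeff k f ≠ 0 ∧ (∀ i, ‖coeff i f‖ ≤ ‖coeff k f‖) ∧
      (∀ i, m < i → ‖coeff i f‖ ≤ ρ * ‖coeff k f‖) ∧ ∀ i, k < i → ‖coeff i f‖ < ‖coeff k f‖ := by
  classical
  obtain ⟨k₀, hk₀, hne, hmax, hgap⟩ := hf
  set S := (range (m + 1)).filter (fun k => ‖coeff k f‖ = ‖coeff k₀ f‖) with hS
  have hSne : S.Nonempty := ⟨k₀, mem_filter.2 ⟨mem_range.2 (by omega), rfl⟩⟩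
  have hk := S.max'_mem hSne
  set k := S.max' hSne with hkdef
  rw [hS, mem_filter, mem_range] at hk
  have hpos : 0 < ‖coeff k₀ f‖ := norm_pos_iff.2 hne
  refine ⟨k, by omega, ?_, ?_, ?_, ?_⟩
  · rw [← norm_ne_zero_iff, hk.2]; exact hpos.ne'
  · rw [hk.2]; exact hmax
  · rw [hk.2]; exact hgap
  · intro i hi
    rw [hk.2]
    by_cases him : i ≤ m
    · refine lt_of_le_of_ne (hmax i) fun heq => ?_
      have h1 : i ∈ S := mem_filter.2 ⟨mem_range.2 (by omega), heq⟩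
      have := S.le_max' i h1
      omega
    · refine (hgap i (by omega)).trans_lt ?_
      nlinarith

lemma Pol.mul {ρ : ℝ} (hρ0 : 0 ≤ ρ) (hρ : ρ < 1) {f g : PowerSeries Ω} {m n : ℕ}
    (hf : Pol ρ f m) (hg : Pol ρ g n) : Pol ρ (f * g) (m + n) := by
  classical
  obtain ⟨k, hkm, hk0, hkmax, hkgap, hklt⟩ := hf.last hρ
  obtain ⟨l, hln, hl0, hlmax, hlgap, hllt⟩ := hg.last hρ
  have hA : 0 < ‖coeff k f‖ := norm_pos_iff.2 hk0
  have hB : 0 < ‖coeff l g‖ := norm_pos_iff.2 hl0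
  have hmem : (k, l) ∈ antidiagonal (k + l) := by simp
  have hsplit : coeff (k + l) (f * g) = coeff k f * coeff l g +
      ∑ i ∈ (antidiagonal (k + l)).erase (k, l), coeff i.1 f * coeff i.2 g := by
    rw [coeff_mul, ← Finset.add_sum_erase _ _ hmem]
  have hrest : ‖∑ i ∈ (antidiagonal (k + l)).erase (k, l), coeff i.1 f * coeff i.2 g‖ <
      ‖coeff k f‖ * ‖coeff l g‖ := by
    refine norm_sum_lt' _ _ (mul_pos hA hB) fun i hi => ?_
    rw [Finset.mem_erase, HasAntidiagonal.mem_antidiagonal] at hi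
    rw [norm_mul]
    rcases lt_trichotomy i.1 k with h | h | h
    · calc ‖coeff i.1 f‖ * ‖coeff i.2 g‖ ≤ ‖coeff k f‖ * ‖coeff i.2 g‖ :=
            mul_le_mul_of_nonneg_right (hkmax _) (norm_nonneg _)
        _ < ‖coeff k f‖ * ‖coeff l g‖ := mul_lt_mul_of_pos_left (hllt _ (by omega)) hA
    · exact absurd (Prod.ext h (by simp only; omega)) hi.1
    · calc ‖coeff i.1 f‖ * ‖coeff i.2 g‖ ≤ ‖coeff i.1 f‖ * ‖coeff l g‖ :=
            mul_le_mul_of_nonneg_left (hlmax _) (norm_nonneg _)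
        _ < ‖coeff k f‖ * ‖coeff l g‖ := mul_lt_mul_of_pos_right (hklt _ h) hB
  have heq : ‖coeff (k + l) (f * g)‖ = ‖coeff k f‖ * ‖coeff l g‖ := by
    rw [← norm_mul] at hrest ⊢
    rw [hsplit, IsUltrametricDist.norm_add_eq_max_of_norm_ne_norm (ne_of_gt hrest),
      max_eq_left hrest.le]
  refine ⟨k + l, by omega, ?_, ?_, ?_⟩
  · rw [← norm_ne_zero_iff, heq]
    exact (mul_pos hA hB).ne'
  · intro i
    rw [heq, coeff_mul]
    refine norm_sum_le' _ _ (mul_pos hA hB).le fun j _ => ?_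
    rw [norm_mul]
    exact mul_le_mul (hkmax _) (hlmax _) (norm_nonneg _) hA.le
  · intro i hi
    rw [heq, coeff_mul]
    refine norm_sum_le' _ _ (mul_nonneg hρ0 (mul_pos hA hB).le) fun j hj => ?_
    rw [HasAntidiagonal.mem_antidiagonal] at hj
    rw [norm_mul]
    by_cases h : m < j.1
    · calc ‖coeff j.1 f‖ * ‖coeff j.2 g‖ ≤ (ρ * ‖coeff k f‖) * ‖coeff l g‖ :=
            mul_le_mul (hkgap _ h) (hlmax _) (norm_nonneg _) (mul_nonneg hρ0 hA.le)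
        _ = _ := by ring
    · calc ‖coeff j.1 f‖ * ‖coeff j.2 g‖ ≤ ‖coeff k f‖ * (ρ * ‖coeff l g‖) :=
            mul_le_mul (hkmax _) (hlgap _ (by omega)) (norm_nonneg _) hA.le
        _ = _ := by ring

lemma Pol.one {ρ : ℝ} (hρ0 : 0 ≤ ρ) : Pol ρ (1 : PowerSeries Ω) 0 := by
  refine ⟨0, le_rfl, by simp, fun i => ?_, fun i hi => ?_⟩
  · rw [coeff_one]
    split_ifs <;> simp
  · rw [coeff_one, if_neg (by omega)]
    simp [hρ0]

lemma Pol.C {ρ : ℝ} (hρ0 : 0 ≤ ρ) {a : Ω} (ha : a ≠ 0) : Pol ρ (PowerSeries.C a) 0 := by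
  refine ⟨0, le_rfl, by simpa using ha, fun i => ?_, fun i hi => ?_⟩
  · rw [coeff_C]
    split_ifs <;> simp
  · rw [coeff_C, if_neg (by omega), norm_zero]
    positivity

lemma Pol.prod {ρ : ℝ} (hρ0 : 0 ≤ ρ) (hρ : ρ < 1) {B : Type*} (s : Finset B)
    (f : B → PowerSeries Ω) (m : ℕ) (h : ∀ b ∈ s, Pol ρ (f b) m) :
    Pol ρ (∏ b ∈ s, f b) (s.card * m) := by
  classical
  induction s using Finset.induction_on with
  | empty => simpa using Pol.one hρ0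
  | insert b s hb ih =>
    rw [prod_insert hb, card_insert_of_notMem hb, add_mul, one_mul, add_comm]
    exact (h b (mem_insert_self b s)).mul hρ0 hρ (ih fun j hj => h j (mem_insert_of_mem hj))

/-- exponential sums -/
lemma Pol.exp {J : Type*} [DecidableEq J] {s : Finset J} {δ c : J → Ω} {N : ℕ} {ρ : ℝ}
    {e : ℕ → Ω} (hρ0 : 0 ≤ ρ) (hρ : ρ < 1) (hs : s.card ≤ N + 1) (hδ : ∀ j ∈ s, ‖δ j‖ ≤ 1)
    (hinj : Set.InjOn δ s) (hc : ∃ j ∈ s, c j ≠ 0) (he0 : ∀ k ≤ N, e k ≠ 0)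
    (he : ∀ n k, k < n → k ≤ N → ‖e n‖ ≤ ρ * ‖e k‖) {f : PowerSeries Ω}
    (hf : ∀ n, coeff n f = (∑ j ∈ s, c j * δ j ^ n) * e n) : Pol ρ f (s.card - 1) := by
  classical
  have hspos : 0 < s.card := by
    obtain ⟨j, hj, -⟩ := hc
    exact card_pos.2 ⟨j, hj⟩
  obtain ⟨k, hk, hmax⟩ := Finset.exists_max_image (range s.card)
    (fun k => ‖∑ j ∈ s, c j * δ j ^ k‖) ⟨0, mem_range.2 hspos⟩
  obtain ⟨k', hk', hmax'⟩ := Finset.exists_max_image (range s.card)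
    (fun k => ‖coeff k f‖) ⟨0, mem_range.2 hspos⟩
  rw [mem_range] at hk hk'
  have hall : ∀ n, ‖∑ j ∈ s, c j * δ j ^ n‖ ≤ ‖∑ j ∈ s, c j * δ j ^ k‖ := fun n =>
    rec_bound s δ c hδ (norm_nonneg _) (fun i hi => hmax i (mem_range.2 hi)) n
  have hne : ∑ j ∈ s, c j * δ j ^ k ≠ 0 := by
    intro h0
    obtain ⟨j, hj, hcj⟩ := hc
    apply hcj
    refine vander s δ c hinj (fun i _ => ?_) j hj
    have := hall i
    rw [h0, norm_zero] at this
    exact norm_le_zero_iff.1 this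
  have hkk : ‖coeff k f‖ ≤ ‖coeff k' f‖ := hmax' k (mem_range.2 hk)
  have hgap : ∀ i, s.card - 1 < i → ‖coeff i f‖ ≤ ρ * ‖coeff k' f‖ := by
    intro i hi
    refine le_trans ?_ (mul_le_mul_of_nonneg_left hkk hρ0)
    rw [hf, hf, norm_mul, norm_mul]
    calc ‖∑ j ∈ s, c j * δ j ^ i‖ * ‖e i‖ ≤ ‖∑ j ∈ s, c j * δ j ^ k‖ * (ρ * ‖e k‖) :=
          mul_le_mul (hall i) (he i k (by omega) (by omega)) (norm_nonneg _) (norm_nonneg _)
      _ = _ := by ring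
  refine ⟨k', by omega, ?_, ?_, hgap⟩
  · rw [← norm_pos_iff]
    refine lt_of_lt_of_le ?_ hkk
    rw [hf, norm_pos_iff]
    exact mul_ne_zero hne (he0 k (by omega))
  · intro i
    by_cases hi : i < s.card
    · exact hmax' i (mem_range.2 hi)
    · refine (hgap i (by omega)).trans ?_
      have := norm_nonneg (coeff k' f)
      nlinarith

/-- **the main lemma** -/
lemma no_factor' {m N : ℕ} {ρ : ℝ} (hρ0 : 0 ≤ ρ) (hρ : ρ < 1) (hm : m < N)
    {f g h : PowerSeries Ω} (hf : Pol ρ f m)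
    (hgN : ‖coeff N g‖ = 1) (hg : ∀ i, i ≠ N → ‖coeff i g‖ ≤ ρ) (hh : Bdd h)
    (hgh : g * h = f) : False := by
  obtain ⟨k, hk, hk0, hkmax, hkgap⟩ := hf
  have hh0 : h ≠ 0 := by
    rintro rfl
    rw [mul_zero] at hgh
    rw [← hgh, map_zero] at hk0
    exact hk0 rfl
  obtain ⟨n, hn, hlt⟩ := gauss hρ0 hρ hgN hg hh hh0
  have h1 := hlt k
  rw [hgh] at h1
  have h2 := hkgap n (by omega)
  linarith

end Pool.Agent.W2helper76.SP
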