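import Pool.Agent.W2helper76.SP.Taylor
import Pool.Agent.W2helper76.SP.Pad2

/-!
# Relations with algebraic coefficients
-/

set_option autoImplicit false
set_option linter.unusedSectionVars false

namespace Pool.Agent.W2helper76.SP

open PowerSeries Finset

section padic

variable {Ω : Type*} [NormedField Ω] [IsUltrametricDist Ω]

lemma bdd_pow {F : PowerSeries Ω} (hF : Bdd F) (n : ℕ) : Bdd (F ^ n) := by
  induction n with
  | zero => rw [pow_zero]; exact bdd_C 1
  | succ n ih => rw [pow_succ]; exact bdd_mul ih hF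

lemma bdd_prod {ι : Type*} (s : Finset ι) (F : ι → PowerSeries Ω) (h : ∀ i ∈ s, Bdd (F i)) :
    Bdd (∏ i ∈ s, F i) := by
  classical
  induction s using Finset.induction_on with
  | empty => rw [prod_empty]; exact bdd_C 1
  | insert i s hi ih =>
    rw [prod_insert hi]
    exact bdd_mul (h i (mem_insert_self i s)) (ih fun j hj => h j (mem_insert_of_mem hj))

lemma no_relation' {J B : Type*} [Fintype J] [Fintype B] {δ u : J → Ω} {N : ℕ}
    {ρ : ℝ} {e l : ℕ → Ω} (P : MvPolynomial J (Polynomial Ω)) (c : B → J → Ω) (R : Ω) (hR : R ≠ 0)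
    (hρ0 : 0 ≤ ρ) (hρ : ρ < 1) (hJN : Fintype.card J ≤ N + 1)
    (hcard : Fintype.card B * (Fintype.card J - 1) < N)
    (hδ : ∀ j, ‖δ j‖ ≤ 1) (hinj : Function.Injective δ) (hu : ∀ j, u j ≠ 0)
    (hc : ∀ b, ∃ j, c b j ≠ 0) (he0 : ∀ k ≤ N, e k ≠ 0) (he00 : e 0 = 1)
    (heb : ∀ n, ‖e n‖ ≤ 1) (he : ∀ n k, k < n → k ≤ N → ‖e n‖ ≤ ρ * ‖e k‖)
    (hlN : ‖l N‖ = 1) (hl : ∀ i, i ≠ 0 → i ≠ N → ‖l i * e i‖ ≤ ρ * ‖e N‖)
    (hev : MvPolynomial.map (Polynomial.evalRingHom (l 0)) P =
      MvPolynomial.C R * ∏ b, ∑ j, MvPolynomial.C (c b j) * MvPolynomial.X j)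
    (hrel : MvPolynomial.eval₂ (Polynomial.aeval (mk fun n => l n * e n) :
        Polynomial Ω →ₐ[Ω] PowerSeries Ω).toRingHom
      (fun j => C (u j) * mk fun n => δ j ^ n * e n) P = 0) : False := by
  classical
  have hN : 0 < N := by omega
  set L : PowerSeries Ω := mk fun n => l n * e n with hL
  set X : J → PowerSeries Ω := fun j => C (u j) * mk fun n => δ j ^ n * e n with hX
  set x := l 0 with hx
  have heN : e N ≠ 0 := he0 N le_rfl
  have hLb : Bdd L := by
    refine ⟨max ‖l 0‖ 1, le_max_of_le_right zero_le_one, fun n => ?_⟩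
    rw [hL, coeff_mk]
    by_cases h0 : n = 0
    · rw [h0, he00, mul_one]; exact le_max_left _ _
    · refine le_max_of_le_right ?_
      by_cases hnN : n = N
      · rw [hnN, norm_mul, hlN, one_mul]; exact heb N
      · refine (hl n h0 hnN).trans ?_
        exact mul_le_one₀ hρ.le (norm_nonneg _) (heb N)
  have hXb : ∀ j, Bdd (X j) := by
    intro j
    refine bdd_mul (bdd_C _) ⟨1, zero_le_one, fun n => ?_⟩
    rw [coeff_mk, norm_mul, norm_pow]
    exact mul_le_one₀ (pow_le_one₀ (norm_nonneg _) (hδ j)) (norm_nonneg _) (heb n)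
  have hdiv : ∀ μ, ∃ Q : Polynomial Ω, P.coeff μ = Polynomial.C ((P.coeff μ).eval x) +
      (Polynomial.X - Polynomial.C x) * Q := by
    intro μ
    have : (Polynomial.X - Polynomial.C x) ∣ P.coeff μ - Polynomial.C ((P.coeff μ).eval x) := by
      rw [Polynomial.dvd_iff_isRoot]
      simp
    obtain ⟨Q, hQ⟩ := this
    exact ⟨Q, by rw [← hQ]; ring⟩
  choose Q hQ using hdiv
  have hPL : ∀ μ, Polynomial.aeval L (P.coeff μ) = C ((P.coeff μ).eval x) +
      (L - C x) * Polynomial.aeval L (Q μ) := by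
    intro μ
    conv_lhs => rw [hQ μ]
    rw [map_add, map_mul, map_sub, Polynomial.aeval_C, Polynomial.aeval_X, Polynomial.aeval_C]
    rfl
  -- the two evaluations
  have h1 : MvPolynomial.eval₂ (PowerSeries.C : Ω →+* PowerSeries Ω) X
      (MvPolynomial.map (Polynomial.evalRingHom x) P) = C R * ∏ b, ∑ j, C (c b j) * X j := by
    rw [hev, ← MvPolynomial.coe_eval₂Hom, map_mul, map_prod]
    congr 1
    · exact MvPolynomial.eval₂_C _ _ _
    · refine prod_congr rfl fun b _ => ?_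
      rw [map_sum]
      refine sum_congr rfl fun j _ => ?_
      rw [map_mul]
      congr 1
      · exact MvPolynomial.eval₂_C _ _ _
      · exact MvPolynomial.eval₂_X _ _ _
  have h2 : MvPolynomial.eval₂ (PowerSeries.C : Ω →+* PowerSeries Ω) X
      (MvPolynomial.map (Polynomial.evalRingHom x) P) =
      ∑ μ ∈ P.support, C ((P.coeff μ).eval x) * ∏ j, X j ^ μ j := by
    rw [MvPolynomial.eval₂_map, MvPolynomial.eval₂_eq']
    rfl
  rw [MvPolynomial.eval₂_eq'] at hrel
  set H : PowerSeries Ω := ∑ μ ∈ P.support, Polynomial.aeval L (Q μ) * ∏ j, X j ^ μ j with hH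
  have h3 : C R * ∏ b, ∑ j, C (c b j) * X j + (L - C x) * H = 0 := by
    rw [← h1, h2, hH, mul_sum, ← sum_add_distrib, ← hrel]
    refine sum_congr rfl fun μ _ => ?_
    have h4 : (Polynomial.aeval L : Polynomial Ω →ₐ[Ω] PowerSeries Ω).toRingHom (P.coeff μ) =
        Polynomial.aeval L (P.coeff μ) := rfl
    rw [h4, hPL]
    ring
  have hHb : Bdd H := bdd_sum _ _ fun μ _ => bdd_mul (bdd_aeval hLb _)
    (bdd_prod _ _ fun j _ => bdd_pow (hXb j) _)
  set g : PowerSeries Ω := (L - C x) * C (e N)⁻¹ with hg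
  set h : PowerSeries Ω := C (e N) * -H with hh
  have hee : (C (e N)⁻¹ * C (e N) : PowerSeries Ω) = 1 := by
    rw [← map_mul, inv_mul_cancel₀ heN, map_one]
  have hgh : g * h = C R * ∏ b, ∑ j, C (c b j) * X j := by
    calc g * h = (C (e N)⁻¹ * C (e N)) * (-((L - C x) * H)) := by rw [hg, hh]; ring
      _ = _ := by
        rw [hee, one_mul]
        linear_combination (-1 : PowerSeries Ω) * h3
  have hcg : ∀ i, coeff i g = if i = 0 then 0 else l i * e i * (e N)⁻¹ := by
    intro i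
    rw [hg, mul_comm, coeff_C_mul, map_sub, hL, coeff_mk, coeff_C]
    split_ifs with h0
    · rw [h0, he00, mul_one, sub_self, mul_zero]
    · rw [sub_zero]; ring
  have hPol : Pol ρ (C R * ∏ b, ∑ j, C (c b j) * X j)
      (0 + (univ : Finset B).card * (Fintype.card J - 1)) := by
    refine (Pol.C hρ0 hR).mul hρ0 hρ (Pol.prod hρ0 hρ univ _ _ fun b _ => ?_)
    rw [← Finset.card_univ]
    refine Pol.exp (s := (univ : Finset J)) (δ := δ) (c := fun j => c b j * u j) (N := N) (e := e)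
      hρ0 hρ hJN (fun j _ => hδ j) (fun j _ j' _ hjj => hinj hjj) ?_ he0 he ?_
    · obtain ⟨j, hj⟩ := hc b
      exact ⟨j, mem_univ j, mul_ne_zero hj (hu j)⟩
    · intro n
      rw [map_sum, sum_mul]
      refine sum_congr rfl fun j _ => ?_
      rw [hX, coeff_C_mul, coeff_C_mul, coeff_mk]
      ring
  refine no_factor' hρ0 hρ (by rw [Finset.card_univ, zero_add]; exact hcard) hPol (g := g) (h := h)
    ?_ ?_ ?_ hgh
  · rw [hcg, if_neg hN.ne', mul_assoc, mul_inv_cancel₀ heN, mul_one, hlN]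
  · intro i hi
    rw [hcg]
    split_ifs with h0
    · rw [norm_zero]; exact hρ0
    · rw [norm_mul, norm_inv, ← div_eq_mul_inv, div_le_iff₀ (norm_pos_iff.2 heN)]
      exact hl i h0 hi
  · obtain ⟨C', hC', hb⟩ := hHb
    refine bdd_mul (bdd_C _) ⟨C', hC', fun n => by rw [map_neg, norm_neg]; exact hb n⟩

end padic

end Pool.Agent.W2helper76.SP
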