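import Pool.Agent.W2helper76.SP.Loc
import Pool.Agent.W2helper76.SP.Taylor2

/-!
# The local part, with algebraic coefficients
-/

set_option autoImplicit false
set_option linter.unusedSectionVars false

namespace Pool.Agent.W2helper76.SP

open PowerSeries Pool.Agent.W2helper76.UE

/-- the local part -/
theorem local_part' {p : ℕ} [Fact p.Prime] (M : Subfield ℂ) (σ : M →+* ℚ_[p])
    (D : Derivation ℤ ℂ ℂ) (hM : ∀ x ∈ M, D x ∈ M)
    (N : ℕ) (hN : N + 2 ≤ p) (x : ℂ) (hx : x ∈ M)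
    (hlow : ∀ n, 1 ≤ n → n < N → ‖σ ⟨D^[n] x, iter_mem D M hM hx n⟩‖ ≤ ((p : ℝ)⁻¹) ^ N)
    (hN1 : ‖σ ⟨D^[N] x, iter_mem D M hM hx N⟩‖ = 1)
    (hall : ∀ n, 1 ≤ n → ‖σ ⟨D^[n] x, iter_mem D M hM hx n⟩‖ ≤ 1)
    {J : Type} [Fintype J] (hJN : Fintype.card J ≤ N + 1)
    (δ : J → M) (hδ1 : ∀ j, ‖σ (δ j)‖ ≤ 1) (hinj : Function.Injective δ)
    (hDδ : ∀ j, D (δ j : ℂ) = 0)
    (y : J → ℂ) (hy : ∀ j, IsAlgebraic M (y j)) (hy0 : ∀ j, y j ≠ 0)
    (hDy : ∀ j, D (y j) = δ j * y j) (hDQ : ∀ a : QB, D (a : ℂ) = 0)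
    (P : MvPolynomial J (Polynomial QB)) {B : Type} [Fintype B] (c : B → J → ℂ)
    (hcalg : ∀ b j, IsAlgebraic M (c b j)) (hc : ∀ b, ∃ j, c b j ≠ 0)
    (hcard : Fintype.card B * (Fintype.card J - 1) < N)
    (R : ℂ) (hR : R ≠ 0) (hRalg : IsAlgebraic M R)
    (hev : MvPolynomial.map (Polynomial.aeval x : Polynomial QB →ₐ[QB] ℂ).toRingHom P =
      MvPolynomial.C R * ∏ b, ∑ j, MvPolynomial.C (c b j) * MvPolynomial.X j)
    (hrel : MvPolynomial.eval₂ (Polynomial.aeval x : Polynomial QB →ₐ[QB] ℂ).toRingHom y P = 0) :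
    False := by
  classical
  set E₀ : IntermediateField M ℂ := algebraicClosure M ℂ with hE₀
  have hp0 : (0 : ℝ) < p := by exact_mod_cast (Fact.out : p.Prime).pos
  have hp1 : (1 : ℝ) < p := by exact_mod_cast (Fact.out : p.Prime).one_lt
  have hρ0 : (0 : ℝ) ≤ (p : ℝ)⁻¹ := by positivity
  have hρ1 : (p : ℝ)⁻¹ < 1 := inv_lt_one_of_one_lt₀ hp1
  -- the derivation
  have hstab : ∀ z ∈ E₀, D z ∈ E₀ := fun z hz =>
    D_alg D M E₀.toSubfield (fun m hm => E₀.algebraMap_mem ⟨m, hm⟩) hM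
      (mem_algebraicClosure_iff.1 hz) hz
  set D₀ := resD D E₀ hstab with hD₀
  -- the embedding
  obtain ⟨τ, hτ⟩ : ∃ τ : E₀ →+* PadicAlgCl p, ∀ m : M,
      τ (algebraMap M E₀ m) = algebraMap ℚ_[p] (PadicAlgCl p) (σ m) := by
    let _ : Algebra M (PadicAlgCl p) := ((algebraMap ℚ_[p] (PadicAlgCl p)).comp σ).toAlgebra
    exact ⟨(IsAlgClosed.lift (R := M) (S := E₀) (M := PadicAlgCl p)).toRingHom,
      fun m => AlgHom.commutes _ m⟩
  have hnorm : ∀ m : M, ‖τ (algebraMap M E₀ m)‖ = ‖σ m‖ := by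
    intro m
    rw [hτ, norm_algebraMap']
  set x₀ : E₀ := algebraMap M E₀ ⟨x, hx⟩ with hx₀
  have hDx : ∀ n, D₀^[n] x₀ = algebraMap M E₀ ⟨D^[n] x, iter_mem D M hM hx n⟩ := by
    intro n
    apply Subtype.ext
    rw [hD₀, resD_iter]
    rfl
  set y₀ : J → E₀ := fun j => ⟨y j, mem_algebraicClosure_iff.2 (hy j)⟩ with hy₀
  have hDy₀ : ∀ j, D₀ (y₀ j) = algebraMap M E₀ (δ j) * y₀ j := by
    intro j
    apply Subtype.ext
    rw [hD₀, resD_coe]
    exact hDy j
  have hDδ₀ : ∀ j, D₀ (algebraMap M E₀ (δ j)) = 0 := by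
    intro j
    apply Subtype.ext
    rw [hD₀, resD_coe]
    exact hDδ j
  -- the algebraic numbers
  set ι : QB →+* E₀ :=
    { toFun := fun a => ⟨a, mem_algebraicClosure_iff.2 ((mem_QB.1 a.2).tower_top M)⟩
      map_one' := rfl
      map_mul' := fun _ _ => rfl
      map_zero' := rfl
      map_add' := fun _ _ => rfl } with hι
  have hιD : ∀ a, D₀ (ι a) = 0 := by
    intro a
    apply Subtype.ext
    rw [hD₀, resD_coe]
    exact hDQ a
  set Φ : Polynomial QB →+* E₀ := Polynomial.eval₂RingHom ι x₀ with hΦ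
  have hΦc : (algebraMap E₀ ℂ).comp Φ =
      (Polynomial.aeval x : Polynomial QB →ₐ[QB] ℂ).toRingHom := by
    apply Polynomial.ringHom_ext
    · intro a
      have h1 : Φ (Polynomial.C a) = ι a := Polynomial.eval₂_C _ _
      have h2 : (Polynomial.aeval x : Polynomial QB →ₐ[QB] ℂ).toRingHom (Polynomial.C a) = a :=
        Polynomial.aeval_C _ _
      rw [RingHom.comp_apply, h1, h2]
      rfl
    · have h1 : Φ Polynomial.X = x₀ := Polynomial.eval₂_X _ _
      have h2 : (Polynomial.aeval x : Polynomial QB →ₐ[QB] ℂ).toRingHom Polynomial.X = x :=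
        Polynomial.aeval_X _
      rw [RingHom.comp_apply, h1, h2]
      rfl
  set c₀ : B → J → E₀ := fun b j => ⟨c b j, mem_algebraicClosure_iff.2 (hcalg b j)⟩ with hc₀
  set R₀ : E₀ := ⟨R, mem_algebraicClosure_iff.2 hRalg⟩ with hR₀
  have hev₀ : MvPolynomial.map Φ P =
      MvPolynomial.C R₀ * ∏ b, ∑ j, MvPolynomial.C (c₀ b j) * MvPolynomial.X j := by
    apply MvPolynomial.map_injective (algebraMap E₀ ℂ) (algebraMap E₀ ℂ).injective
    rw [MvPolynomial.map_map, hΦc, hev, map_mul, map_prod, MvPolynomial.map_C]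
    congr 1
    refine Finset.prod_congr rfl fun b _ => ?_
    rw [map_sum]
    refine Finset.sum_congr rfl fun j _ => ?_
    rw [map_mul, MvPolynomial.map_C, MvPolynomial.map_X]
    rfl
  have hrel₀ : MvPolynomial.eval₂ Φ y₀ P = 0 := by
    apply (algebraMap E₀ ℂ).injective
    rw [map_zero, MvPolynomial.eval₂_comp_left, hΦc, ← hrel]
    rfl
  set ϖ : PadicAlgCl p := (p : PadicAlgCl p) with hϖ
  -- the polynomial over the p-adic field
  set P' : MvPolynomial J (Polynomial (PadicAlgCl p)) :=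
    MvPolynomial.map (Polynomial.mapRingHom (τ.comp ι)) P with hP'
  have hcomp1 : (Polynomial.evalRingHom (τ (D₀^[0] x₀))).comp (Polynomial.mapRingHom (τ.comp ι)) =
      τ.comp Φ := by
    apply Polynomial.ringHom_ext
    · intro a
      have h1 : Φ (Polynomial.C a) = ι a := Polynomial.eval₂_C _ _
      rw [RingHom.comp_apply, RingHom.comp_apply, h1]
      simp
    · have h1 : Φ Polynomial.X = x₀ := Polynomial.eval₂_X _ _
      rw [RingHom.comp_apply, RingHom.comp_apply, h1]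
      simp
  have hcomp2 : (Polynomial.aeval (mk fun n => τ (D₀^[n] x₀) * ee ϖ n) :
      Polynomial (PadicAlgCl p) →ₐ[PadicAlgCl p] PowerSeries (PadicAlgCl p)).toRingHom.comp
      (Polynomial.mapRingHom (τ.comp ι)) = (tayHom D₀ τ ϖ).comp Φ := by
    apply Polynomial.ringHom_ext
    · intro a
      have h1 : Φ (Polynomial.C a) = ι a := Polynomial.eval₂_C _ _
      have h2 : tayHom D₀ τ ϖ (ι a) = C (τ (ι a)) := tay_const D₀ τ ϖ (hιD a)
      rw [RingHom.comp_apply, RingHom.comp_apply, h1, h2, Polynomial.coe_mapRingHom,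
        Polynomial.map_C]
      exact Polynomial.aeval_C _ _
    · have h1 : Φ Polynomial.X = x₀ := Polynomial.eval₂_X _ _
      rw [RingHom.comp_apply, RingHom.comp_apply, h1, Polynomial.coe_mapRingHom, Polynomial.map_X]
      exact Polynomial.aeval_X _
  refine no_relation' (Ω := PadicAlgCl p) (B := B) (J := J) (N := N) (ρ := (p : ℝ)⁻¹)
    (δ := fun j => τ (algebraMap M E₀ (δ j))) (u := fun j => τ (y₀ j))
    (e := ee ϖ) (l := fun n => τ (D₀^[n] x₀)) P' (fun b j => τ (c₀ b j)) (τ R₀) ?_ hρ0 hρ1 hJN hcard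
    ?_ ?_ ?_ ?_ ?_ ?_ ?_ ?_ ?_ ?_ ?_ ?_
  · intro h0
    rw [_root_.map_eq_zero] at h0
    exact hR (congrArg Subtype.val h0)
  · intro j
    rw [hnorm]
    exact hδ1 j
  · intro j j' hjj
    exact hinj ((algebraMap M E₀).injective (τ.injective hjj))
  · intro j h0
    rw [_root_.map_eq_zero] at h0
    exact hy0 j (congrArg Subtype.val h0)
  · intro b
    obtain ⟨j, hj⟩ := hc b
    refine ⟨j, fun h0 => ?_⟩
    rw [_root_.map_eq_zero] at h0
    exact hj (congrArg Subtype.val h0)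
  · intro k hk
    rw [← norm_ne_zero_iff, hϖ, norm_ee_lt (by omega)]
    positivity
  · exact ee_zero ϖ
  · intro n
    exact norm_ee_le_one hN
  · intro n k hkn hkN
    rw [hϖ, norm_ee_lt (n := k) (by omega), ← pow_succ']
    exact norm_ee_le (by omega) hkn
  · show ‖τ (D₀^[N] x₀)‖ = 1
    rw [hDx, hnorm]
    exact hN1
  · intro i hi0 hiN
    show ‖τ (D₀^[i] x₀) * ee ϖ i‖ ≤ _
    rw [norm_mul, hDx, hnorm, hϖ, norm_ee_lt (n := N) (by omega), ← pow_succ']
    rcases lt_or_gt_of_ne hiN with h2 | h2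
    · rw [norm_ee_lt (by omega)]
      calc ‖σ ⟨D^[i] x, iter_mem D M hM hx i⟩‖ * ((p : ℝ)⁻¹) ^ i
          ≤ ((p : ℝ)⁻¹) ^ N * ((p : ℝ)⁻¹) ^ 1 := by
            refine mul_le_mul (hlow i (by omega) h2) ?_ (by positivity) (by positivity)
            exact pow_le_pow_of_le_one hρ0 hρ1.le (by omega)
        _ = _ := by rw [← pow_add]
    · calc ‖σ ⟨D^[i] x, iter_mem D M hM hx i⟩‖ * ‖ee (p : PadicAlgCl p) i‖
          ≤ 1 * ((p : ℝ)⁻¹) ^ (N + 1) :=
            mul_le_mul (hall i (by omega)) (norm_ee_le hN h2) (norm_nonneg _) zero_le_one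
        _ = _ := one_mul _
  · show MvPolynomial.map (Polynomial.evalRingHom (τ (D₀^[0] x₀))) P' = _
    rw [hP', MvPolynomial.map_map, hcomp1, ← MvPolynomial.map_map, hev₀, map_mul, map_prod,
      MvPolynomial.map_C]
    congr 1
    refine Finset.prod_congr rfl fun b _ => ?_
    rw [map_sum]
    refine Finset.sum_congr rfl fun j _ => ?_
    rw [map_mul, MvPolynomial.map_C, MvPolynomial.map_X]
  · have h1 := congrArg (tayHom D₀ τ ϖ) hrel₀
    rw [map_zero, MvPolynomial.eval₂_comp_left, ← hcomp2, ← MvPolynomial.eval₂_map] at h1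
    have h2 : (tayHom D₀ τ ϖ) ∘ y₀ =
        fun j => C (τ (y₀ j)) * mk fun n => τ (algebraMap M E₀ (δ j)) ^ n * ee ϖ n := by
      funext j
      exact tay_exp D₀ τ ϖ (hDδ₀ j) (hDy₀ j)
    rw [h2] at h1
    exact h1

end Pool.Agent.W2helper76.SP
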