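import Pool.Agent.W2helper76.SP.Reduce

/-!
# Reduction to exponents with bounded denominators, algebraic coefficients
-/

set_option autoImplicit false
set_option linter.unusedSectionVars false

namespace Pool.Agent.W2helper76.SP

open Pool.Agent.W2helper76.UE Polynomial

lemma rank_bound {R F C : Type} [Field R] [Field F] [Field C] [Algebra R C] [Algebra F C]
    (φ : R →+* F) (hφ : ∀ a, algebraMap F C (φ a) = algebraMap R C a) (k : IntermediateField R C)
    [FiniteDimensional R k] :
    FiniteDimensional F (IntermediateField.adjoin F (k : Set C)) ∧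
      Module.finrank F (IntermediateField.adjoin F (k : Set C)) ≤ Module.finrank R k := by
  let _ : Algebra R F := φ.toAlgebra
  have : IsScalarTower R F C := IsScalarTower.of_algebraMap_eq fun a => (hφ a).symm
  have h1 := IntermediateField.adjoin_rank_le_of_isAlgebraic_right F k
  have h2 : Module.rank R k < Cardinal.aleph0 := Module.rank_lt_aleph0 R k
  constructor
  · exact Module.rank_lt_aleph0_iff.1 (h1.trans_lt h2)
  · exact Cardinal.toNat_le_toNat h1 h2

lemma tower_bound {R F C : Type} [Field R] [Field F] [Field C] [Algebra R F] [Algebra R C]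
    [Algebra F C] [IsScalarTower R F C] [FiniteDimensional R F] (k : IntermediateField F C)
    [FiniteDimensional F k] : FiniteDimensional R (k.restrictScalars R) ∧
      Module.finrank R (k.restrictScalars R) = Module.finrank R F * Module.finrank F k := by
  have h1 : FiniteDimensional R k := FiniteDimensional.trans R F k
  exact ⟨h1, (Module.finrank_mul_finrank R F k).symm⟩

variable {κ C Γ : Type} [Field κ] [Field C] [Algebra κ C] [AddCommGroup Γ] [Module ℚ Γ]
  {E : Multiplicative Γ →* C}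

lemma mem_AV_of_alg {x : C} {V : Submodule ℚ Γ} (hxV : x ∈ AV κ E V) {a : C}
    (ha : IsAlgebraic (IntermediateField.adjoin κ {x}) a) : a ∈ AV κ E V := by
  obtain ⟨q, hq0, hq⟩ := ha
  have hle : IntermediateField.adjoin κ {x} ≤ AV κ E V := by
    rw [IntermediateField.adjoin_simple_le_iff]
    exact hxV
  refine mem_of_poly (q.map (algebraMap (IntermediateField.adjoin κ {x}) C)) ?_ ?_ ?_
  · rw [Ne, Polynomial.map_eq_zero_iff (algebraMap (IntermediateField.adjoin κ {x}) C).injective]
    exact hq0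
  · intro i
    rw [Polynomial.coeff_map]
    exact hle (q.coeff i).2
  · rw [Polynomial.eval_map_algebraMap]
    exact hq

theorem reduce' [CharZero κ] [IsAlgClosed κ] [IsAlgClosed C] (h : LWI κ E)
    (ρ : Multiplicative ℚ →* κ) (hρ : ∀ q : ℚ, q ≠ 0 → ρ (Multiplicative.ofAdd q) ≠ 1) (G : Set Γ)
    (F : IntermediateField (FL κ E (AddSubgroup.closure G)) C)
    [FiniteDimensional (FL κ E (AddSubgroup.closure G)) F]
    {x : C} (hxF : x ∈ F) (hxV : x ∈ AV κ E (Submodule.span ℚ G))
    (k : IntermediateField (IntermediateField.adjoin κ {x}) C)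
    [FiniteDimensional (IntermediateField.adjoin κ {x}) k]
    {J : Type} [Fintype J] (γ : J → Γ) (c : J → C) (hck : ∀ j, c j ∈ k) (j₀ : J) (hP : c j₀ ≠ 0)
    (hrel : ∑ j, c j * ex E (γ j) = 0) :
    ∃ (s : Finset J) (j₁ : J) (f : J → C), j₁ ∈ s ∧ (∀ j ∈ s, f j ∈ k ∧ f j ≠ 0) ∧
      ∑ j ∈ s, f j * ex E (γ j - γ j₁) = 0 ∧
      ∀ j ∈ s, ∃ m : ℕ, 0 < m ∧ m ≤ Module.finrank (FL κ E (AddSubgroup.closure G)) F *
        Module.finrank (IntermediateField.adjoin κ {x}) k ∧
        m • (γ j - γ j₁) ∈ AddSubgroup.closure G := by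
  classical
  have hRF : ∀ a ∈ IntermediateField.adjoin κ {x}, a ∈ F := by
    have h0 : IntermediateField.adjoin κ {x} ≤ F.restrictScalars κ := by
      rw [IntermediateField.adjoin_simple_le_iff, IntermediateField.mem_restrictScalars]
      exact hxF
    exact fun a ha => h0 ha
  obtain ⟨hfin1, hfr1⟩ := rank_bound
    ({ toFun := fun a => ⟨a, hRF _ a.2⟩
       map_one' := rfl
       map_mul' := fun _ _ => rfl
       map_zero' := rfl
       map_add' := fun _ _ => rfl } : IntermediateField.adjoin κ {x} →+* F) (fun _ => rfl) k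
  obtain ⟨hfin2, hfr2⟩ := tower_bound (R := FL κ E (AddSubgroup.closure G))
    (IntermediateField.adjoin F (k : Set C))
  set F₂ := (IntermediateField.adjoin F (k : Set C)).restrictScalars
    (FL κ E (AddSubgroup.closure G)) with hF₂
  have hkF : ∀ a ∈ k, a ∈ F₂ := fun a ha => by
    rw [hF₂, IntermediateField.mem_restrictScalars]
    exact IntermediateField.subset_adjoin F (k : Set C) ha
  set V := Submodule.span ℚ G with hV
  have hkV : ∀ a ∈ k, a ∈ AV κ E V := by
    intro a ha
    have h5 : IsAlgebraic (IntermediateField.adjoin κ {x}) (⟨a, ha⟩ : k) :=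
      Algebra.IsAlgebraic.isAlgebraic _
    exact mem_AV_of_alg hxV h5.algebraMap
  have h1 := cosets h ρ hρ V Finset.univ γ c (fun j _ => hkV _ (hck j)) hrel (Finset.mem_univ j₀)
  set s₀ := Finset.univ.filter (fun j => γ j - γ j₀ ∈ V) with hs₀
  set s₁ := s₀.filter (fun j => c j ≠ 0) with hs₁
  have h2 : ∑ j ∈ s₁, c j * ex E (γ j - γ j₀) = 0 := by
    rw [← h1]
    refine Finset.sum_subset (Finset.filter_subset _ _) fun j hj hj' => ?_
    have : c j = 0 := by
      by_contra hne
      exact hj' (Finset.mem_filter.2 ⟨hj, hne⟩)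
    rw [this, zero_mul]
  have hne : s₁.Nonempty := by
    refine ⟨j₀, Finset.mem_filter.2 ⟨Finset.mem_filter.2 ⟨Finset.mem_univ _, ?_⟩, hP⟩⟩
    rw [sub_self]; exact V.zero_mem
  have h0 : k.restrictScalars κ ≤ F₂.restrictScalars κ := fun a ha => hkF a ha
  obtain ⟨s', -, hs'ne, f', hf', hrel', hratio⟩ := kummer (F₂.restrictScalars κ)
    (k.restrictScalars κ) h0 (fun j => ex E (γ j - γ j₀)) (fun j => ex_ne E _) s₁.card s₁
    rfl hne (fun j hj => by
      obtain ⟨m, hm, hmem⟩ := ex_alg_FL (κ := κ) (E := E)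
        ((Finset.mem_filter.1 (Finset.mem_filter.1 hj).1).2)
      refine ⟨m, hm, ?_⟩
      rw [IntermediateField.mem_restrictScalars]
      exact F₂.algebraMap_mem ⟨_, hmem⟩)
    c (fun j hj => ⟨hck j, (Finset.mem_filter.1 hj).2⟩) h2
  obtain ⟨j₁, hj₁⟩ := hs'ne
  have hquot : ∀ j, ex E (γ j - γ j₀) / ex E (γ j₁ - γ j₀) = ex E (γ j - γ j₁) := by
    intro j
    rw [div_eq_iff (ex_ne E _), ← ex_add]
    congr 1
    abel
  refine ⟨s', j₁, f', hj₁, hf', ?_, ?_⟩
  · have h3 : ∑ j ∈ s', f' j * ex E (γ j - γ j₁) =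
        (∑ j ∈ s', f' j * ex E (γ j - γ j₀)) / ex E (γ j₁ - γ j₀) := by
      rw [Finset.sum_div]
      refine Finset.sum_congr rfl fun j _ => ?_
      rw [mul_div_assoc, hquot]
    rw [h3, hrel', zero_div]
  · intro j hj
    have h4 := hratio j hj j₁ hj₁
    rw [hquot, IntermediateField.mem_restrictScalars] at h4
    obtain ⟨m, hm0, hm1, hm2⟩ := index_bound h _ F₂ h4
    refine ⟨m, hm0, hm1.trans ?_, hm2⟩
    rw [hfr2]
    exact Nat.mul_le_mul_left _ hfr1

end Pool.Agent.W2helper76.SP
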