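import Pool.Agent.W2helper76.SP.CaseB
import Pool.Agent.W2helper76.SP.Reduce2
import Pool.Agent.W2helper76.SP.Loc2
import Pool.Agent.W2helper76.SP.Desc

/-!
# The main case, with algebraic coefficients
-/

set_option autoImplicit false
set_option linter.unusedSectionVars false

namespace Pool.Agent.W2helper76.SP

open Pool.Agent.W2helper76.UE Polynomial

/-- relations between `M` exponentials over extensions of degree `h` of `ℚ̄(x)` satisfy
`h (M - 1) ≥ N`; and `x` is transcendental -/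
def FreeDeg (N : ℕ) (x : ℂ) : Prop :=
  (∀ P : QB[X], aeval x P = 0 → P = 0) ∧
  ∀ (k : IntermediateField (IntermediateField.adjoin QB {x}) ℂ)
    [FiniteDimensional (IntermediateField.adjoin QB {x}) k] (M : ℕ) (γ : Fin M → QB),
    Function.Injective γ → Module.finrank (IntermediateField.adjoin QB {x}) k * (M - 1) < N →
    ∀ c : Fin M → ℂ, (∀ j, c j ∈ k) → ∑ j, c j * Complex.exp (γ j) = 0 → ∀ j, c j = 0

lemma alg_adjoin {M : Subfield ℂ} {x : ℂ} (hx : x ∈ M) {a : ℂ}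
    (ha : a ∈ IntermediateField.adjoin QB {x}) : IsAlgebraic M a := by
  induction ha using IntermediateField.adjoin_induction with
  | mem y hy =>
    have h1 : y ∈ M := by
      rw [Set.mem_singleton_iff.1 hy]
      exact hx
    exact isAlgebraic_algebraMap (⟨y, h1⟩ : M)
  | algebraMap c => exact alg_up M (mem_QB.1 c.2)
  | add y z _ _ h1 h2 => exact h1.add h2
  | inv y _ h1 => exact h1.inv
  | mul y z _ _ h1 h2 => exact h1.mul h2

lemma alg_adjoin' {M : Subfield ℂ} {x : ℂ} (hx : x ∈ M) {a : ℂ}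
    (ha : IsAlgebraic (IntermediateField.adjoin QB {x}) a) : IsAlgebraic M a := by
  obtain ⟨q, hq0, hq⟩ := ha
  refine alg_of_poly (q.map (algebraMap (IntermediateField.adjoin QB {x}) ℂ)) ?_ ?_ ?_
  · rw [Ne, Polynomial.map_eq_zero_iff (algebraMap (IntermediateField.adjoin QB {x}) ℂ).injective]
    exact hq0
  · intro i
    rw [Polynomial.coeff_map]
    exact alg_adjoin hx (q.coeff i).2
  · rw [Polynomial.eval_map_algebraMap]
    exact hq

theorem caseB' (N : ℕ) (hN : 0 < N) (z : Fin N → ℂ)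
    (hz : ∀ (c₀ : QB) (c : Fin N → QB), (c₀ : ℂ) + ∑ i, (c i : ℂ) * z i = 0 → c = 0)
    (hK : ∀ i, z i ∈ AV QB expQ ⊤) (m' : ℕ) (hm' : 0 < m') (a' : Fin N → ℤ) :
    ∃ (m : ℕ) (a : Fin N → ℤ), 0 < m ∧ m' ∣ m ∧ (∀ i, a i ≡ a' i [ZMOD m']) ∧
      ∀ b : Fin N → ℤ, (∀ i, b i ≡ a i [ZMOD m]) → FreeDeg N (∑ i, (b i : ℂ) * z i) := by
  classical
  have hac : IsAlgClosed QB := isAlgClosed_QB
  obtain ⟨ρ, hρ⟩ := exists_rho
  obtain ⟨G, hG⟩ := exists_fin' lwiQ z hK
  set V := Submodule.span ℚ (G : Set QB) with hV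
  set L := AddSubgroup.closure (G : Set QB) with hL
  -- the derivation
  obtain ⟨D, hD⟩ := exists_D lwiQ (algebraMap QB ℂ).toAddMonoidHom
  have hD' : ∀ γ : QB, D (Complex.exp γ) = γ * Complex.exp γ := hD
  have hDc : ∀ γ : QB, D (γ : ℂ) = 0 := fun γ => D.map_algebraMap γ
  set D₀ : Derivation ℤ ℂ ℂ := D.restrictScalars ℤ with hD₀
  have hDD : ∀ w, D₀ w = D w := fun w => rfl
  have hit : ∀ (n : ℕ) (w : ℂ), D₀^[n] w = D^[n] w := fun n w => rfl
  -- the finite sets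
  set T₁ : Finset ℂ := G.image (fun γ : QB => (γ : ℂ)) ∪
    G.image (fun γ : QB => Complex.exp (γ : ℂ)) with hT₁
  set T : Finset ℂ := T₁ ∪ Finset.univ.image z with hT
  have hGT₁ : ∀ γ ∈ G, (γ : ℂ) ∈ T₁ := fun γ hγ =>
    Finset.mem_union_left _ (Finset.mem_image_of_mem _ hγ)
  have hGT₁' : ∀ γ ∈ G, Complex.exp (γ : ℂ) ∈ T₁ := fun γ hγ =>
    Finset.mem_union_right _ (Finset.mem_image_of_mem _ hγ)
  have hT₁D : ∀ t ∈ (T₁ : Set ℂ), D₀ t ∈ Subfield.closure (T₁ : Set ℂ) := by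
    intro t ht
    rcases Finset.mem_union.1 (Finset.mem_coe.1 ht) with h | h
    · obtain ⟨γ, hγ, rfl⟩ := Finset.mem_image.1 h
      rw [hDD, hDc]
      exact zero_mem _
    · obtain ⟨γ, hγ, rfl⟩ := Finset.mem_image.1 h
      rw [hDD, hD']
      exact mul_mem (Subfield.subset_closure (hGT₁ γ hγ)) (Subfield.subset_closure (hGT₁' γ hγ))
  have hFst : ∀ w ∈ Subfield.closure (T₁ : Set ℂ), D₀ w ∈ Subfield.closure (T₁ : Set ℂ) :=
    fun w hw => D_subfield D₀ _ _ le_rfl hT₁D hw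
  have hzalg : ∀ i, IsAlgebraic (Subfield.closure (T₁ : Set ℂ)) (z i) := by
    intro i
    refine alg_AV (κ := QB) (E := expQ) (V := V) (fun a => alg_up _ (mem_QB.1 a.2)) ?_ (hG i)
    intro γ hγ
    obtain ⟨k, hk, hkγ⟩ := exists_mul_mem _ hγ
    have h1 := (closure_exp (G : Set QB) (Subfield.closure (T₁ : Set ℂ))
      (fun γ hγ => Subfield.subset_closure (hGT₁ γ hγ))
      (fun γ hγ => Subfield.subset_closure (hGT₁' γ hγ)) hkγ).2
    refine IsAlgebraic.of_pow hk ?_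
    rw [← ex_nsmul]
    exact isAlgebraic_algebraMap (⟨_, h1⟩ : Subfield.closure (T₁ : Set ℂ))
  have hT₁T : Subfield.closure (T₁ : Set ℂ) ≤ Subfield.closure (T : Set ℂ) :=
    Subfield.closure_mono (by
      intro w hw
      exact Finset.mem_coe.2 (Finset.mem_union_left _ hw))
  have hzT : ∀ i, z i ∈ T := fun i =>
    Finset.mem_union_right _ (Finset.mem_image_of_mem _ (Finset.mem_univ i))
  have hTD : ∀ t ∈ T, D₀ t ∈ Subfield.closure (T : Set ℂ) := by
    intro t ht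
    rcases Finset.mem_union.1 ht with h | h
    · exact hT₁T (hT₁D t h)
    · obtain ⟨i, -, rfl⟩ := Finset.mem_image.1 h
      exact D_alg D₀ _ _ hT₁T hFst (hzalg i) (Subfield.subset_closure (hzT i))
  obtain ⟨q, hq, hq0, hstab⟩ := stab D₀ T hTD
  set A := Subring.closure (insert q⁻¹ (T : Set ℂ)) with hA
  have hqT : q ∈ Subfield.closure (T : Set ℂ) :=
    (Subring.closure_le.2 (fun t ht => Subfield.subset_closure ht) :
      Subring.closure (T : Set ℂ) ≤ (Subfield.closure (T : Set ℂ)).toSubring) hq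
  have hTst : ∀ w ∈ Subfield.closure (T : Set ℂ), D₀ w ∈ Subfield.closure (T : Set ℂ) :=
    fun w hw => D_subfield D₀ _ _ le_rfl (fun t ht => hTD t ht) hw
  have hzAn : ∀ (n : ℕ) (i : Fin N), D^[n] (z i) ∈ A := by
    intro n i
    induction n with
    | zero => exact Subring.subset_closure (Set.mem_insert_of_mem _ (hzT i))
    | succ n ih => rw [Function.iterate_succ_apply']; exact hstab _ ih
  have hzTn : ∀ (n : ℕ) (i : Fin N), D^[n] (z i) ∈ Subfield.closure (T : Set ℂ) := by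
    intro n i
    induction n with
    | zero => exact Subfield.subset_closure (hzT i)
    | succ n ih => rw [Function.iterate_succ_apply']; exact hTst _ ih
  -- the Wronskian
  set W := (Matrix.of fun k i : Fin N => D^[(k : ℕ)] (D (z i))).det with hW
  have hW0 : W ≠ 0 := wr_ne D (fun γ => γ) (fun a b h => h) hD z hK hz
  -- the field
  have hzalg' : ∀ i, IsAlgebraic (FL QB expQ L) (z i) := by
    intro i
    refine alg_AV (κ := QB) (E := expQ) (V := V) (fun a => ?_) ?_ (hG i)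
    · exact isAlgebraic_algebraMap (algebraMap QB (FL QB expQ L) a)
    · intro γ hγ
      obtain ⟨k, hk, hkγ⟩ := ex_alg_FL (κ := QB) (E := expQ) hγ
      refine IsAlgebraic.of_pow hk ?_
      exact isAlgebraic_algebraMap (⟨_, hkγ⟩ : FL QB expQ L)
  set F : IntermediateField (FL QB expQ L) ℂ :=
    IntermediateField.adjoin (FL QB expQ L) (Set.range z) with hF
  have hfin : FiniteDimensional (FL QB expQ L) F := by
    apply IntermediateField.finiteDimensional_adjoin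
    rintro w ⟨i, rfl⟩
    exact (hzalg' i).isIntegral
  set d := Module.finrank (FL QB expQ L) F with hd
  -- the prime
  set s : Set ℂ := ((insert W (insert q T) : Finset ℂ) : Set ℂ) with hs
  set M := Subfield.closure s with hM
  obtain ⟨p, hp, hBp, σ, hσ⟩ : ∃ (p : ℕ) (_ : Fact p.Prime), N + 1 + m' + d * N < p ∧
      ∃ σ : M →+* ℚ_[p], ∀ x : M, (x : ℂ) ∈ insert W (insert q T) → (x : ℂ) ≠ 0 → ‖σ x‖ = 1 :=
    Pool.Agent.N530.LS.stmA2 (insert W (insert q T)) (N + 1 + m' + d * N)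
  have hTM : Subfield.closure (T : Set ℂ) ≤ M := Subfield.closure_mono (by
    intro w hw
    exact Finset.mem_coe.2 (Finset.mem_insert_of_mem (Finset.mem_insert_of_mem hw)))
  have hWT : W ∈ Subfield.closure (T : Set ℂ) := by
    rw [hW, Matrix.det_apply]
    refine sum_mem fun τ _ => ?_
    have h1 : ∏ i, (Matrix.of fun k i : Fin N => D^[(k : ℕ)] (D (z i))) (τ i) i ∈
        Subfield.closure (T : Set ℂ) := prod_mem fun i _ => hzTn ((τ i : ℕ) + 1) i
    exact zsmul_mem h1 _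
  have hMT : M ≤ Subfield.closure (T : Set ℂ) := by
    rw [hM, Subfield.closure_le]
    intro w hw
    rcases Finset.mem_insert.1 (Finset.mem_coe.1 hw) with h | h
    · rw [h]; exact hWT
    · rcases Finset.mem_insert.1 h with h | h
      · rw [h]; exact hqT
      · exact Subfield.subset_closure h
  have hMst : ∀ w ∈ M, D₀ w ∈ M := fun w hw => hTM (hTst w (hMT hw))
  -- norms on the ring
  have hnorm : ∀ w ∈ A, ∃ hw : w ∈ M, ‖σ ⟨w, hw⟩‖ ≤ 1 := by
    intro w hw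
    refine norm_le_of_closure s σ (insert q⁻¹ (T : Set ℂ)) ?_ ?_ hw
    · intro w hw
      rcases Set.mem_insert_iff.1 hw with h | h
      · rw [h]; exact inv_mem (hTM hqT)
      · exact hTM (Subfield.subset_closure h)
    · intro w hw
      rcases Set.mem_insert_iff.1 hw with h | h
      · have hqM : q ∈ M := hTM hqT
        have h1 : w = (⟨q, hqM⟩ : M)⁻¹ := Subtype.ext h
        rw [h1, map_inv₀, norm_inv, hσ ⟨q, hqM⟩ (by simp) hq0, inv_one]
      · by_cases h0 : (w : ℂ) = 0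
        · have : w = 0 := Subtype.ext h0
          rw [this, map_zero, norm_zero]
          exact zero_le_one
        · exact (hσ w (by
            exact Finset.mem_insert_of_mem (Finset.mem_insert_of_mem h)) h0).le
  have hnorm' : ∀ w ∈ A, ∀ hw : w ∈ M, ‖σ ⟨w, hw⟩‖ ≤ 1 := fun w hw hw' => (hnorm w hw).2
  -- the matrix
  have hzM : ∀ (n : ℕ) (i : Fin N), D^[n] (z i) ∈ M := fun n i => hTM (hzTn n i)
  set Mt : Matrix (Fin N) (Fin N) ℚ_[p] :=
    Matrix.of fun k i => σ ⟨D^[(k : ℕ) + 1] (z i), hzM _ i⟩ with hMt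
  have hMt1 : ∀ k i, ‖Mt k i‖ ≤ 1 := fun k i => hnorm' _ (hzAn _ i) _
  have hMtdet : ‖Mt.det‖ = 1 := by
    have h1 := RingHom.map_det M.subtype
      (Matrix.of fun k i : Fin N => (⟨D^[(k : ℕ) + 1] (z i), hzM _ i⟩ : M))
    have h2 : M.subtype.mapMatrix
      (Matrix.of fun k i : Fin N => (⟨D^[(k : ℕ) + 1] (z i), hzM _ i⟩ : M)) =
      Matrix.of fun k i : Fin N => D^[(k : ℕ)] (D (z i)) := by
      ext k i
      rfl
    rw [h2, ← hW] at h1
    have h3 := RingHom.map_det σ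
      (Matrix.of fun k i : Fin N => (⟨D^[(k : ℕ) + 1] (z i), hzM _ i⟩ : M))
    have h4 : σ.mapMatrix
      (Matrix.of fun k i : Fin N => (⟨D^[(k : ℕ) + 1] (z i), hzM _ i⟩ : M)) = Mt := by
      ext k i
      rfl
    rw [h4] at h3
    rw [← h3]
    refine hσ _ ?_ ?_
    · have h5 : ((Matrix.of fun k i : Fin N => (⟨D^[(k : ℕ) + 1] (z i), hzM _ i⟩ : M)).det : ℂ) = W :=
        h1
      rw [h5]
      exact Finset.mem_insert_self _ _
    · intro h6
      apply hW0
      rw [← h6]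
      exact h1.symm
  obtain ⟨a, ha1, ha2⟩ := exists_residue hN Mt hMt1 hMtdet m' hm' (by omega) a'
  refine ⟨m' * p ^ N, a, Nat.mul_pos hm' (pow_pos hp.out.pos N), Dvd.intro _ rfl, ha1, ?_⟩
  intro b hb
  obtain ⟨hb1, hb2⟩ := ha2 b hb
  set x : ℂ := ∑ i, (b i : ℂ) * z i with hx
  have hxM : x ∈ M := by
    rw [hx]
    exact sum_mem fun i _ => mul_mem (intCast_mem M _) (hzM 0 i)
  have hxA : x ∈ A := by
    rw [hx]
    exact sum_mem fun i _ => mul_mem (intCast_mem A _) (hzAn 0 i)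
  have hxit : ∀ n : ℕ, ∀ h : D₀^[n] x ∈ M, σ ⟨D₀^[n] x, h⟩ =
      ∑ i, (b i : ℚ_[p]) * σ ⟨D^[n] (z i), hzM n i⟩ := by
    intro n h
    have h1 : (⟨D₀^[n] x, h⟩ : M) = ∑ i, (b i : M) * ⟨D^[n] (z i), hzM n i⟩ := by
      apply Subtype.ext
      have h2 : ((∑ i, (b i : M) * ⟨D^[n] (z i), hzM n i⟩ : M) : ℂ) =
          ∑ i, (b i : ℂ) * D^[n] (z i) := by
        push_cast
        rfl
      rw [h2, ← iter_comb]
      exact hit n _
    rw [h1, map_sum]
    refine Finset.sum_congr rfl fun i _ => ?_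
    rw [map_mul, map_intCast]
  have hxlow : ∀ n, 1 ≤ n → n < N → ∀ h : D₀^[n] x ∈ M, ‖σ ⟨D₀^[n] x, h⟩‖ ≤ ((p : ℝ)⁻¹) ^ N := by
    intro n hn hn' h
    rw [hxit]
    obtain ⟨k, rfl⟩ : ∃ k, n = k + 1 := ⟨n - 1, by omega⟩
    exact hb1 ⟨k, by omega⟩ hn'
  have hxN : ∀ h : D₀^[N] x ∈ M, ‖σ ⟨D₀^[N] x, h⟩‖ = 1 := by
    intro h
    rw [hxit]
    have h1 := hb2 ⟨N - 1, by omega⟩ (by simp only; omega)
    have h2 : ∀ (n : ℕ), n = N → ‖∑ i, (b i : ℚ_[p]) * σ ⟨D^[n] (z i), hzM n i⟩‖ = 1 →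
        ‖∑ i, (b i : ℚ_[p]) * σ ⟨D^[N] (z i), hzM N i⟩‖ = 1 := by
      rintro n rfl h
      exact h
    exact h2 (N - 1 + 1) (by omega) h1
  have hDA : ∀ (n : ℕ), D₀^[n] x ∈ A := by
    intro n
    induction n with
    | zero => exact hxA
    | succ n ih => rw [Function.iterate_succ_apply']; exact hstab _ ih
  -- transcendence of x
  have hxtr : ∀ P : QB[X], aeval x P = 0 → P = 0 := by
    intro P hP
    by_contra hP0
    have h1 : IsAlgebraic QB x := ⟨P, hP0, hP⟩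
    obtain ⟨c, hc⟩ := alg_mem_range h1
    have h2 : D₀^[N] x = 0 := by
      obtain ⟨k, rfl⟩ : ∃ k, N = k + 1 := ⟨N - 1, by omega⟩
      rw [Function.iterate_succ_apply, hDD, ← hc, D.map_algebraMap]
      exact iter_zero D₀ k
    have h3 := hxN (by rw [h2]; exact zero_mem _)
    have h4 : (⟨D₀^[N] x, by rw [h2]; exact zero_mem _⟩ : M) = 0 := Subtype.ext h2
    rw [h4, map_zero, norm_zero] at h3
    exact zero_ne_one h3
  -- the relation
  refine ⟨hxtr, ?_⟩
  intro k hkfin n γ hγ hdeg c hck hrel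
  by_contra hP
  push Not at hP
  obtain ⟨j₀, hj₀⟩ := hP
  set h := Module.finrank (IntermediateField.adjoin QB {x}) k with hh
  have hh0 : 0 < h := Module.finrank_pos
  by_cases hn : n ≤ 1
  · have hn1 : n = 1 := by
      have := j₀.pos
      omega
    subst hn1
    rw [Fin.sum_univ_one] at hrel
    rcases mul_eq_zero.1 hrel with h1 | h1
    · apply hj₀
      rw [← h1]
      congr 1
      exact Subsingleton.elim _ _
    · exact Complex.exp_ne_zero _ h1
  have hhN : h < N := lt_of_le_of_lt (Nat.le_mul_of_pos_right h (by omega)) hdeg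
  have hnN : n - 1 < N := lt_of_le_of_lt (Nat.le_mul_of_pos_left (n - 1) hh0) hdeg
  have hxF : x ∈ F := F.sum_mem fun i _ => F.mul_mem (intCast_mem F _)
    (IntermediateField.subset_adjoin _ _ ⟨i, rfl⟩)
  have hxV : x ∈ AV QB expQ V := (AV QB expQ V).sum_mem fun i _ =>
    (AV QB expQ V).mul_mem (intCast_mem _ _) (hG i)
  obtain ⟨S, j₁, f, hj₁, hf, hfrel, hk⟩ := reduce' lwiQ ρ hρ (G : Set QB) F hxF hxV k γ c hck j₀ hj₀
    hrel
  have hmp : ∀ m, m ≤ Module.finrank (FL QB expQ (AddSubgroup.closure (G : Set QB))) F * h →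
      m < p := by
    intro m hm
    have h1 : m ≤ d * h := hm
    have h2 : d * h ≤ d * N := Nat.mul_le_mul_left d hhN.le
    omega
  have hδ : ∀ j : S, ∃ h : ((γ j - γ j₁ : QB) : ℂ) ∈ M, ‖σ ⟨((γ j - γ j₁ : QB) : ℂ), h⟩‖ ≤ 1 := by
    intro j
    obtain ⟨k, hk0, hkd, hkL⟩ := hk j j.2
    have h1 : ((k • (γ j - γ j₁) : QB) : ℂ) ∈ A := closure_mem_subring (G : Set QB) A
      (fun γ hγ => Subring.subset_closure (Set.mem_insert_of_mem _
        (Finset.mem_coe.2 (Finset.mem_union_left _ (hGT₁ γ hγ))))) hkL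
    obtain ⟨h2, h3⟩ := hnorm _ h1
    have h4 : ((k • (γ j - γ j₁) : QB) : ℂ) = (k : ℂ) * ((γ j - γ j₁ : QB) : ℂ) := by
      rw [← nsmul_eq_mul]
      rfl
    have hkC : (k : ℂ) ≠ 0 := by exact_mod_cast hk0.ne'
    have h5 : ((γ j - γ j₁ : QB) : ℂ) ∈ M := by
      have h6 : ((γ j - γ j₁ : QB) : ℂ) = (k : ℂ)⁻¹ * ((k • (γ j - γ j₁) : QB) : ℂ) := by
        rw [h4, inv_mul_cancel_left₀ hkC]
      rw [h6]
      exact mul_mem (inv_mem (natCast_mem M k)) h2
    refine ⟨h5, ?_⟩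
    have h7 : (⟨_, h2⟩ : M) = (k : M) * ⟨((γ j - γ j₁ : QB) : ℂ), h5⟩ := by
      apply Subtype.ext
      rw [h4]
      rfl
    rw [h7, map_mul, map_natCast, norm_mul, norm_nat_unit hk0 (hmp k hkd), one_mul] at h3
    exact h3
  -- the norm
  obtain ⟨B, hB, dd, P, R, hcardB, hR0, hRmem, hdalg, hdne, ⟨b₀, hb₀⟩, hPev⟩ :=
    descent (κ := QB) (C := ℂ) (x := x) k (J := S) (fun j => ⟨f j, (hf j j.2).1⟩)
      ⟨⟨j₁, hj₁⟩, fun h0 => (hf j₁ hj₁).2 (congrArg Subtype.val h0)⟩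
  have hcardS : Fintype.card S ≤ n := by
    rw [Fintype.card_coe]
    exact (Finset.card_le_univ S).trans (by rw [Fintype.card_fin])
  refine local_part' M σ D₀ hMst N (by omega) x hxM (fun n h1 h2 => hxlow n h1 h2 _) (hxN _)
    (fun n _ => hnorm' _ (hDA n) _) (J := S) (by omega)
    (fun j => ⟨((γ j - γ j₁ : QB) : ℂ), (hδ j).1⟩) (fun j => (hδ j).2) ?_
    (fun j => hDc (γ j - γ j₁))
    (fun j => Complex.exp ((γ j - γ j₁ : QB) : ℂ)) ?_ (fun j => Complex.exp_ne_zero _)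
    (fun j => hD' _) (fun a => hDc a) P dd (fun b j => alg_adjoin' hxM (hdalg b j)) hdne ?_ R hR0
    (alg_adjoin hxM hRmem) hPev ?_
  · intro j j' hjj
    have h1 : ((γ j - γ j₁ : QB) : ℂ) = ((γ j' - γ j₁ : QB) : ℂ) :=
      congrArg (fun w : M => (w : ℂ)) hjj
    have h2 : γ j - γ j₁ = γ j' - γ j₁ := Subtype.ext h1
    exact Subtype.ext (hγ (sub_left_injective h2))
  · intro j
    obtain ⟨k, hk0, hkd, hkL⟩ := hk j j.2
    have h1 := (closure_exp (G : Set QB) M (fun γ hγ => hTM (hT₁T (Subfield.subset_closure (hGT₁ γ hγ))))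
      (fun γ hγ => hTM (hT₁T (Subfield.subset_closure (hGT₁' γ hγ)))) hkL).2
    refine IsAlgebraic.of_pow hk0 ?_
    have h2 : Complex.exp ((γ j - γ j₁ : QB) : ℂ) ^ k = Complex.exp ((k • (γ j - γ j₁) : QB) : ℂ) := by
      rw [← Complex.exp_nat_mul, ← nsmul_eq_mul]
      rfl
    rw [h2]
    exact isAlgebraic_algebraMap (⟨_, h1⟩ : M)
  · rw [hcardB]
    exact lt_of_le_of_lt (Nat.mul_le_mul_left _ (by omega)) hdeg
  · rw [MvPolynomial.eval₂_eq_eval_map, hPev, map_mul, map_prod]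
    refine mul_eq_zero_of_right _ (Finset.prod_eq_zero (Finset.mem_univ b₀) ?_)
    rw [map_sum, ← hfrel, ← Finset.sum_coe_sort S]
    refine Finset.sum_congr rfl fun j _ => ?_
    rw [map_mul, MvPolynomial.eval_C, MvPolynomial.eval_X, hb₀]
    rfl

end Pool.Agent.W2helper76.SP
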