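import Pool.Agent.W2helper76.UE.Key
import Pool.Agent.H135R2.VS.Der
import Pool.Agent.H340R2.LW

/-!
# The derivation `e^γ ↦ γ e^γ`
-/

set_option autoImplicit false
set_option linter.unusedSectionVars false

namespace Pool.Agent.W2helper76.SP

open Pool.Agent.W2helper76.UE

lemma mem_QB {x : ℂ} : x ∈ QB ↔ IsAlgebraic ℚ x := mem_algebraicClosure_iff

/-- Lindemann-Weierstrass -/
theorem lwiQ : LWI QB expQ := by
  classical
  unfold LWI
  rw [linearIndependent_iff']
  intro s g hg γ hγ
  have h3 := Pool.Agent.H340R2.LW.lindemann_weierstrass s (fun γ : QB => (γ : ℂ))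
    (fun γ => ((g γ : QB) : ℂ)) (fun γ _ => mem_QB.1 γ.2) (fun γ _ => mem_QB.1 (g γ).2)
    (fun γ _ γ' _ h => Subtype.ext h) (by
      rw [← hg]
      refine Finset.sum_congr rfl fun i _ => ?_
      rw [Algebra.smul_def]
      rfl)
  exact Subtype.ext (h3 γ hγ)

variable {κ C Γ : Type} [Field κ] [Field C] [Algebra κ C] [AddCommGroup Γ] [Module ℚ Γ]
  {E : Multiplicative Γ →* C}

lemma ex_nsmul (a : Γ) (n : ℕ) : ex E (n • a) = ex E a ^ n := by
  induction n with
  | zero => rw [zero_smul, ex_zero, pow_zero]
  | succ n ih => rw [succ_nsmul, ex_add, ih, pow_succ]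

lemma ex_sum {ι : Type} (s : Finset ι) (a : ι → Γ) : ex E (∑ i ∈ s, a i) = ∏ i ∈ s, ex E (a i) := by
  classical
  induction s using Finset.induction_on with
  | empty => rw [Finset.sum_empty, Finset.prod_empty, ex_zero]
  | insert i s hi ih => rw [Finset.sum_insert hi, Finset.prod_insert hi, ex_add, ih]

/-- algebraic independence -/
theorem algind (h : LWI κ E) {ι : Type} (b : ι → Γ) (hb : LinearIndependent ℚ b) :
    AlgebraicIndependent κ (fun i => ex E (b i)) := by
  classical
  rw [algebraicIndependent_iff]
  intro p hp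
  set φ : (ι →₀ ℕ) → Γ := fun m => ∑ i ∈ m.support, (m i) • b i with hφ
  have hinj : Function.Injective φ := by
    intro m m' hmm
    have h1 := linearIndependent_iff'.1 hb (m.support ∪ m'.support)
      (fun i => (m i : ℚ) - (m' i : ℚ)) (by
        have e1 : ∀ m : ι →₀ ℕ, ∀ s : Finset ι, m.support ⊆ s → ∑ i ∈ s, (m i : ℚ) • b i = φ m := by
          intro m s hs
          rw [hφ]
          simp only
          rw [← Finset.sum_subset hs]
          · refine Finset.sum_congr rfl fun i _ => ?_
            rw [Nat.cast_smul_eq_nsmul]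
          · intro i _ hi
            rw [Finsupp.notMem_support_iff.1 hi]
            simp
        simp only [sub_smul, Finset.sum_sub_distrib]
        rw [e1 m _ Finset.subset_union_left, e1 m' _ Finset.subset_union_right, hmm, sub_self])
    ext i
    by_cases hi : i ∈ m.support ∪ m'.support
    · have := h1 i hi
      have h2 : (m i : ℚ) = m' i := sub_eq_zero.1 this
      exact_mod_cast h2
    · rw [Finset.mem_union, not_or] at hi
      rw [Finsupp.notMem_support_iff.1 hi.1, Finsupp.notMem_support_iff.1 hi.2]
  have hmon : ∀ m : ι →₀ ℕ, ex E (φ m) = m.prod fun i k => ex E (b i) ^ k := by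
    intro m
    rw [hφ, ex_sum, Finsupp.prod]
    exact Finset.prod_congr rfl fun i _ => ex_nsmul _ _
  have hsum : ∑ m ∈ p.support, p.coeff m • E (Multiplicative.ofAdd (φ m)) = 0 := by
    rw [← hp, MvPolynomial.aeval_def, MvPolynomial.eval₂_eq]
    refine Finset.sum_congr rfl fun m _ => ?_
    rw [Algebra.smul_def]
    congr 1
    exact hmon m
  have hli : LinearIndependent κ (fun m => E (Multiplicative.ofAdd (φ m))) := h.comp φ hinj
  have h0 := linearIndependent_iff'.1 hli p.support (fun m => p.coeff m) hsum
  ext m
  by_cases hm : m ∈ p.support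
  · rw [h0 m hm]; simp
  · rw [MvPolynomial.notMem_support_iff.1 hm]; simp

/-- existence of derivations with prescribed logarithmic derivatives -/
theorem exists_D [CharZero κ] (h : LWI κ E) (χ : Γ →+ C) :
    ∃ D : Derivation κ C C, ∀ γ, D (ex E γ) = χ γ * ex E γ := by
  classical
  have : CharZero C := charZero_of_injective_algebraMap (algebraMap κ C).injective
  let b := Module.Basis.ofVectorSpace ℚ Γ
  obtain ⟨D, hD⟩ := Pool.Agent.H135R2.VS.exists_der (algind h b b.linearIndependent)
    (fun i => χ (b i) * ex E (b i))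
  refine ⟨D, ?_⟩
  let Φ : Γ →+ C :=
    { toFun := fun γ => D (ex E γ) / ex E γ
      map_zero' := by
        show D (ex E (0 : Γ)) / ex E (0 : Γ) = 0
        rw [ex_zero, Derivation.map_one_eq_zero, zero_div]
      map_add' := by
        intro a c
        show D (ex E (a + c)) / ex E (a + c) = D (ex E a) / ex E a + D (ex E c) / ex E c
        rw [ex_add, Derivation.leibniz, smul_eq_mul, smul_eq_mul]
        have h1 := ex_ne E a
        have h2 := ex_ne E c
        field_simp
        ring }
  have hΦ : Φ.toRatLinearMap = χ.toRatLinearMap := by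
    apply b.ext
    intro i
    show D (ex E (b i)) / ex E (b i) = χ (b i)
    rw [hD, mul_div_assoc, div_self (ex_ne E _), mul_one]
  intro γ
  have h1 : D (ex E γ) / ex E γ = χ γ := by
    have := LinearMap.congr_fun hΦ γ
    exact this
  rw [div_eq_iff (ex_ne E γ)] at h1
  exact h1

/-- eigenvectors with distinct constant eigenvalues are independent over the constants -/
theorem eigen_der {J : Type} (D : Derivation κ C C) (e χ : J → C) (he : ∀ j, e j ≠ 0)
    (hχ : ∀ j, D (e j) = χ j * e j) (hχ0 : ∀ j, D (χ j) = 0) (n : ℕ) :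
    ∀ G : Finset J, G.card = n → Set.InjOn χ G → ∀ c : J → C, (∀ j ∈ G, D (c j) = 0) →
      ∑ j ∈ G, c j * e j = 0 → ∀ j ∈ G, c j = 0 := by
  classical
  induction n with
  | zero =>
    intro G hG _ c _ _ j hj
    rw [Finset.card_eq_zero] at hG
    rw [hG] at hj
    exact absurd hj (Finset.notMem_empty j)
  | succ n ih =>
    intro G hG hGi c hcD hc
    obtain ⟨i, hi⟩ : G.Nonempty := by rw [← Finset.card_pos]; omega
    have hcard : (G.erase i).card = n := by rw [Finset.card_erase_of_mem hi, hG]; rfl
    have h1 : ∑ j ∈ G, c j * (χ j * e j) = 0 := by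
      have h2 := congrArg D hc
      rw [map_zero, map_sum] at h2
      rw [← h2]
      refine Finset.sum_congr rfl fun j hj => ?_
      rw [Derivation.leibniz, hcD j hj, hχ, smul_eq_mul, smul_eq_mul]
      ring
    have h3 : ∑ j ∈ G, (c j * (χ j - χ i)) * e j = 0 := by
      have : ∑ j ∈ G, (c j * (χ j - χ i)) * e j =
          ∑ j ∈ G, c j * (χ j * e j) - χ i * ∑ j ∈ G, c j * e j := by
        rw [Finset.mul_sum, ← Finset.sum_sub_distrib]
        exact Finset.sum_congr rfl fun j _ => by ring
      rw [this, h1, hc, mul_zero, sub_zero]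
    have h4 : ∀ j ∈ G.erase i, c j * (χ j - χ i) = 0 := by
      refine ih (G.erase i) hcard (hGi.mono fun a ha => Finset.mem_of_mem_erase ha)
        (fun j => c j * (χ j - χ i)) ?_ ?_
      · intro j hj
        rw [Derivation.leibniz, hcD j (Finset.mem_of_mem_erase hj), map_sub, hχ0, hχ0]
        simp
      · rw [← Finset.add_sum_erase G _ hi, sub_self, mul_zero, zero_mul, zero_add] at h3
        exact h3
    have h5 : ∀ j ∈ G.erase i, c j = 0 := by
      intro j hj
      rcases mul_eq_zero.1 (h4 j hj) with h6 | h6
      · exact h6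
      · exact absurd (hGi (Finset.mem_of_mem_erase hj) hi (sub_eq_zero.1 h6))
          (Finset.ne_of_mem_erase hj)
    intro j hj
    by_cases hji : j = i
    · rw [hji]
      rw [← Finset.add_sum_erase G _ hi, Finset.sum_eq_zero (fun j hj => by
        rw [h5 j hj, zero_mul]), add_zero] at hc
      exact (mul_eq_zero.1 hc).resolve_right (he i)
    · exact h5 j (Finset.mem_erase.2 ⟨hji, hj⟩)

/-- the constants which are algebraic over the exponentials are algebraic over `κ` -/
theorem const_alg (D : Derivation κ C C) (χ : Γ → κ) (hχi : Function.Injective χ)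
    (hχ : ∀ γ, D (ex E γ) = algebraMap κ C (χ γ) * ex E γ) {c : C} (hc : c ∈ AV κ E ⊤)
    (hD : D c = 0) : IsAlgebraic κ c := by
  classical
  obtain ⟨G, a, -, ⟨γ₀, hγ₀, ha⟩, hrel⟩ := exists_rel hc
  have hDa : ∀ p : Polynomial κ, D (Polynomial.aeval c p) = 0 := by
    intro p
    induction p using Polynomial.induction_on' with
    | add p q hp hq => rw [map_add, map_add, hp, hq, add_zero]
    | monomial n a =>
      rw [Polynomial.aeval_monomial, Derivation.leibniz, Derivation.leibniz_pow, hD,
        Derivation.map_algebraMap]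
      simp
  have h1 := eigen_der D (fun γ : Γ => ex E γ) (fun γ => algebraMap κ C (χ γ))
    (fun γ => ex_ne E γ) hχ (fun γ => D.map_algebraMap _) G.card G rfl
    (fun γ _ γ' _ hh => hχi ((algebraMap κ C).injective hh))
    (fun γ => Polynomial.aeval c (a γ)) (fun γ _ => hDa _) hrel γ₀ hγ₀
  exact ⟨a γ₀, ha, h1⟩

/-- **Wronskian** -/
theorem wronskian (D : Derivation κ C C) (n : ℕ) : ∀ u : Fin n → C,
    (∀ c : Fin n → C, (∀ i, D (c i) = 0) → ∑ i, c i * u i = 0 → c = 0) →
    ∀ v : Fin n → C, (∀ k < n, ∑ i, v i * D^[k] (u i) = 0) → v = 0 := by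
  induction n with
  | zero => intro u _ v _; exact Subsingleton.elim _ _
  | succ n ih =>
    intro u hu v hv
    have hu' : ∀ c : Fin n → C, (∀ i, D (c i) = 0) → ∑ i, c i * u (Fin.castSucc i) = 0 → c = 0 := by
      intro c hc h0
      have h1 := hu (Fin.snoc c 0) (by
        intro i
        refine Fin.lastCases ?_ (fun i => ?_) i
        · simp
        · simp [hc i]) (by
        rw [Fin.sum_univ_castSucc]
        simpa using h0)
      ext i
      have h2 := congrFun h1 (Fin.castSucc i)
      simpa using h2
    have ih' := ih (fun i => u (Fin.castSucc i)) hu'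
    by_cases hlast : v (Fin.last n) = 0
    · have h1 := ih' (fun i => v (Fin.castSucc i)) (fun k hk => by
        have h2 := hv k (by omega)
        rw [Fin.sum_univ_castSucc, hlast, zero_mul, add_zero] at h2
        exact h2)
      ext i
      refine Fin.lastCases ?_ (fun i => ?_) i
      · exact hlast
      · exact congrFun h1 i
    · exfalso
      set w : Fin (n + 1) → C := fun i => v i / v (Fin.last n) with hw
      have hwv : ∀ k < n + 1, ∑ i, w i * D^[k] (u i) = 0 := by
        intro k hk
        have : ∑ i, w i * D^[k] (u i) = (v (Fin.last n))⁻¹ * ∑ i, v i * D^[k] (u i) := by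
          rw [Finset.mul_sum]
          exact Finset.sum_congr rfl fun i _ => by rw [hw]; ring
        rw [this, hv k hk, mul_zero]
      have hwl : w (Fin.last n) = 1 := div_self hlast
      have hDw : (fun i : Fin n => D (w (Fin.castSucc i))) = 0 := by
        apply ih'
        intro k hk
        have h1 := congrArg D (hwv k (by omega))
        rw [map_zero, map_sum] at h1
        have h2 : ∑ i, D (w i * D^[k] (u i)) =
            ∑ i, D (w i) * D^[k] (u i) + ∑ i, w i * D^[k + 1] (u i) := by
          rw [← Finset.sum_add_distrib]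
          refine Finset.sum_congr rfl fun i _ => ?_
          rw [Derivation.leibniz, smul_eq_mul, smul_eq_mul, Function.iterate_succ_apply']
          ring
        rw [h2, hwv (k + 1) (by omega), add_zero, Fin.sum_univ_castSucc, hwl,
          Derivation.map_one_eq_zero, zero_mul, add_zero] at h1
        exact h1
      have hw0 := hu w (by
        intro i
        refine Fin.lastCases ?_ (fun i => ?_) i
        · rw [hwl, Derivation.map_one_eq_zero]
        · exact congrFun hDw i) (by
        have := hwv 0 (by omega)
        simpa using this)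
      have := congrFun hw0 (Fin.last n)
      rw [hwl] at this
      exact one_ne_zero this

/-- the Wronskian determinant -/
theorem wronskian_det (D : Derivation κ C C) (n : ℕ) (u : Fin n → C)
    (hu : ∀ c : Fin n → C, (∀ i, D (c i) = 0) → ∑ i, c i * u i = 0 → c = 0) :
    (Matrix.of fun k i : Fin n => D^[(k : ℕ)] (u i)).det ≠ 0 := by
  intro h0
  obtain ⟨v, hv, hMv⟩ := Matrix.exists_mulVec_eq_zero_iff.2 h0
  apply hv
  refine wronskian D n u hu v fun k hk => ?_
  have := congrFun hMv ⟨k, hk⟩
  rw [Matrix.mulVec, dotProduct] at this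
  rw [Pi.zero_apply] at this
  rw [← this]
  refine Finset.sum_congr rfl fun i _ => ?_
  rw [Matrix.of_apply, mul_comm]

end Pool.Agent.W2helper76.SP
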