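import Pool.Agent.W2helper76.SP.Main
import Pool.Agent.H297R2.InBakerThm

/-!
# Gel'fond's conjecture: relations with few terms between exponentials and logarithms

Let `ℚ̄` be the field of algebraic numbers and let `λ_1, …, λ_N` be `ℚ`-linearly independent logarithms
of algebraic numbers. Every residue class in `ℤ ^ N` contains a residue class (for a larger modulus)
such that for all `b` in it the logarithm `x = b_1 λ_1 + ⋯ + b_N λ_N` has the following properties.

1. The exponentials of any `N` distinct algebraic numbers are linearly independent over the field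
   `ℚ̄(x)`.
2. Let `α_1, …, α_s` be `ℚ`-linearly independent algebraic numbers, `s` arbitrary. Then every
   nontrivial polynomial relation `P(e^{α_1}, …, e^{α_s}, x) = 0` with algebraic coefficients, of
   arbitrary degree, contains more than `N` different monomials in the first `s` variables.

The residue class does not depend on the exponents. The same is proved for arbitrary complex numbers
`z_1, …, z_N` such that `1, z_1, …, z_N` are linearly independent over `ℚ̄`, and for such numbers the
number `N` of the exponentials is best possible: for `z_i = e^i` there are, for all integers `b_i`,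
`N + 1` exponentials which are linearly dependent over `ℚ̄(b_1 z_1 + ⋯ + b_N z_N)`.

The proof (`Pool.Agent.W2helper76.SP`). If some `z_i` is transcendental over the field `K` generated by
all `e^γ`, `γ ∈ ℚ̄`, the theorem of Lindemann and Weierstrass applies. Otherwise there is a derivation
`D` with `D e^γ = γ e^γ` on `K`, whose constants are the algebraic numbers. A finitely generated ring
which contains the `z_i` and is stable under `D` is embedded into the `p`-adic integers by the theorem
of Cassels, such that the Wronskian of the `D z_i` is a unit. Hence there is a residue class of `b`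
modulo `p ^ N` such that the `p`-adic Taylor series `∑ D^n(x) t^n / n!` is, up to a constant, close to
a unit times `t ^ N`, so that it takes some values `N` times in a small disc. A relation between `N`
exponentials over `ℚ̄(x)` gives, by Kummer theory, such a relation with exponents which are `p`-adic
integers, and then a nonzero combination of `N` functions `e^{δ t}` which is divisible by this series
minus its value at `0`. This is impossible, by a `p`-adic estimate which is uniform in the exponents.
-/

set_option autoImplicit false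

namespace Pool.Agent.W2helper76.SP.Few

/-- The field of algebraic numbers. -/
noncomputable abbrev Qbar : IntermediateField ℚ ℂ := algebraicClosure ℚ ℂ

/-- The exponentials of at most `M` distinct algebraic numbers are linearly independent over the
polynomials in `x` with algebraic coefficients. -/
def ExpFree (M : ℕ) (x : ℂ) : Prop :=
  ∀ S : Finset ℂ, S.card ≤ M → (∀ γ ∈ S, IsAlgebraic ℚ γ) → ∀ P : ℂ → Polynomial Qbar,
    ∑ γ ∈ S, Polynomial.aeval x (P γ) * Complex.exp γ = 0 → ∀ γ ∈ S, P γ = 0

/-- The number `x` and the exponentials of `ℚ`-linearly independent algebraic numbers `α_i`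
satisfy no nontrivial polynomial relation which contains at most `M` monomials in the `e^{α_i}`. -/
def NoSparseRelation (M : ℕ) (x : ℂ) : Prop :=
  ∀ (s : ℕ) (α : Fin s → ℂ), (∀ i, IsAlgebraic ℚ (α i)) → LinearIndependent ℚ α →
    ∀ P : MvPolynomial (Fin s) (Polynomial Qbar), P.support.card ≤ M →
      MvPolynomial.eval₂ (Polynomial.aeval x : Polynomial Qbar →ₐ[Qbar] ℂ).toRingHom
        (fun i => Complex.exp (α i)) P = 0 → P = 0

/-- Every residue class contains a residue class of vectors `b` such that `b_1 z_1 + ⋯ + b_N z_N` has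
the property `Good`. -/
def InEveryClass {N : ℕ} (z : Fin N → ℂ) (Good : ℂ → Prop) : Prop :=
  ∀ (m' : ℕ) (a' : Fin N → ℤ), 0 < m' → ∃ (m : ℕ) (a : Fin N → ℤ), 0 < m ∧ m' ∣ m ∧
    (∀ i, a i ≡ a' i [ZMOD m']) ∧
    ∀ b : Fin N → ℤ, (∀ i, b i ≡ a i [ZMOD m]) → Good (∑ i, (b i : ℂ) * z i)

open Pool.Agent.W2helper76.UE Pool.Agent.W2helper76.SP

lemma expFree_of_free {N : ℕ} {x : ℂ} (h : FreeOver N x) : ExpFree N x := by
  classical
  intro S hS halg P hrel γ₀ hγ₀
  set S' : Finset QB := S.preimage (fun γ : QB => (γ : ℂ)) (Subtype.val_injective.injOn) with hS'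
  have hSS : S = S'.image (fun γ : QB => (γ : ℂ)) := by
    ext γ
    rw [Finset.mem_image]
    constructor
    · intro hγ
      exact ⟨⟨γ, mem_QB.2 (halg γ hγ)⟩, Finset.mem_preimage.2 hγ, rfl⟩
    · rintro ⟨γ', hγ', rfl⟩
      exact Finset.mem_preimage.1 hγ'
  have hcard : S'.card ≤ N := by
    rw [hSS, Finset.card_image_of_injective _ Subtype.val_injective] at hS
    exact hS
  have hinf : Infinite QB := Infinite.of_injective (fun n : ℕ => (n : QB)) Nat.cast_injective
  obtain ⟨T, hST, hT⟩ := Infinite.exists_superset_card_eq S' N hcard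
  let e : T ≃ Fin N := T.equivFinOfCardEq hT
  have h1 := h (fun j => ((e.symm j : T) : QB)) (Subtype.val_injective.comp e.symm.injective)
    (fun j => if ((e.symm j : T) : QB) ∈ S' then P (((e.symm j : T) : QB) : ℂ) else 0) (by
      have h2 : ∑ j : Fin N, Polynomial.aeval x
          (if ((e.symm j : T) : QB) ∈ S' then P (((e.symm j : T) : QB) : ℂ) else 0) *
          Complex.exp (((e.symm j : T) : QB) : ℂ) = ∑ t : T, Polynomial.aeval x
          (if (t : QB) ∈ S' then P ((t : QB) : ℂ) else 0) * Complex.exp ((t : QB) : ℂ) :=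
        Equiv.sum_comp e.symm (fun t : T => Polynomial.aeval x
          (if (t : QB) ∈ S' then P ((t : QB) : ℂ) else 0) * Complex.exp ((t : QB) : ℂ))
      rw [h2, Finset.sum_coe_sort T (fun t : QB => Polynomial.aeval x
          (if t ∈ S' then P (t : ℂ) else 0) * Complex.exp (t : ℂ)), ← hrel, hSS,
        Finset.sum_image (fun a _ b _ h => Subtype.ext h)]
      symm
      rw [← Finset.sum_subset hST]
      · refine Finset.sum_congr rfl fun γ hγ => ?_
        rw [if_pos hγ]
      · intro γ _ hγ
        rw [if_neg hγ, map_zero, zero_mul])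
  have hγ₁ : (⟨γ₀, mem_QB.2 (halg γ₀ hγ₀)⟩ : QB) ∈ S' := Finset.mem_preimage.2 hγ₀
  have h3 := congrFun h1 (e ⟨_, hST hγ₁⟩)
  simp only [Equiv.symm_apply_apply, if_pos hγ₁] at h3
  exact h3

lemma noSparse_of_expFree {M : ℕ} {x : ℂ} (h : ExpFree M x) : NoSparseRelation M x := by
  classical
  intro s α halg hli P hP hrel
  set φ : (Fin s →₀ ℕ) → ℂ := fun μ => ∑ i, (μ i : ℂ) * α i with hφ
  have hinj : Function.Injective φ := by
    intro μ ν hμν
    have h1 := Fintype.linearIndependent_iff.1 hli (fun i => (μ i : ℚ) - (ν i : ℚ)) (by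
      have h2 : ∑ i, ((μ i : ℚ) - (ν i : ℚ)) • α i = φ μ - φ ν := by
        rw [hφ]
        simp only
        rw [← Finset.sum_sub_distrib]
        refine Finset.sum_congr rfl fun i _ => ?_
        rw [sub_smul, Rat.smul_def, Rat.smul_def]
        push_cast
        rfl
      rw [h2, hμν, sub_self])
    ext i
    have h2 : (μ i : ℚ) = ν i := sub_eq_zero.1 (h1 i)
    exact_mod_cast h2
  have hexp : ∀ μ : Fin s →₀ ℕ, ∏ i, Complex.exp (α i) ^ μ i = Complex.exp (φ μ) := by
    intro μ
    rw [hφ, Complex.exp_sum]
    exact Finset.prod_congr rfl fun i _ => (Complex.exp_nat_mul _ _).symm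
  have h1 := h (P.support.image φ) (Finset.card_image_le.trans hP) (by
    intro γ hγ
    obtain ⟨μ, -, rfl⟩ := Finset.mem_image.1 hγ
    rw [hφ]
    exact mem_QB.1 (sum_mem fun i _ => mem_QB.2 ((isAlgebraic_natCast (μ i)).mul (halg i))))
    (fun γ => if hγ : ∃ μ, φ μ = γ then P.coeff hγ.choose else 0) (by
      rw [Finset.sum_image (fun a _ b _ h => hinj h)]
      rw [MvPolynomial.eval₂_eq'] at hrel
      rw [← hrel]
      refine Finset.sum_congr rfl fun μ _ => ?_
      have hex : ∃ ν, φ ν = φ μ := ⟨μ, rfl⟩
      rw [dif_pos hex, hinj hex.choose_spec, hexp]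
      rfl)
  ext1 μ
  by_cases hμ : μ ∈ P.support
  · have h2 := h1 (φ μ) (Finset.mem_image_of_mem φ hμ)
    have hex : ∃ ν, φ ν = φ μ := ⟨μ, rfl⟩
    rw [dif_pos hex, hinj hex.choose_spec] at h2
    rw [h2, MvPolynomial.coeff_zero]
  · rw [MvPolynomial.notMem_support_iff.1 hμ, MvPolynomial.coeff_zero]

lemma general (N : ℕ) (z : Fin N → ℂ)
    (hz : ∀ (c₀ : QB) (c : Fin N → QB), (c₀ : ℂ) + ∑ i, (c i : ℂ) * z i = 0 → c = 0) :
    InEveryClass z (fun x => ExpFree N x ∧ NoSparseRelation N x) := by
  intro m' a' hm'
  obtain ⟨m, a, h1, h2, h3, h4⟩ := main N z hz m' hm' a'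
  exact ⟨m, a, h1, h2, h3, fun b hb => ⟨expFree_of_free (h4 b hb),
    noSparse_of_expFree (expFree_of_free (h4 b hb))⟩⟩

lemma lw_powers (N : ℕ) :
    LinearIndependent Qbar (Fin.cons 1 (fun i : Fin N => Complex.exp ((i : ℕ) + 1)) :
      Fin (N + 1) → ℂ) := by
  have h1 : (Fin.cons 1 (fun i : Fin N => Complex.exp ((i : ℕ) + 1)) : Fin (N + 1) → ℂ) =
      fun j : Fin (N + 1) => expQ (Multiplicative.ofAdd ((j : ℕ) : QB)) := by
    funext j
    refine Fin.cases ?_ (fun i => ?_) j
    · show (1 : ℂ) = Complex.exp (((0 : ℕ) : QB) : ℂ)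
      simp
    · show Complex.exp ((i : ℕ) + 1) = Complex.exp ((((i.succ : Fin (N + 1)) : ℕ) : QB) : ℂ)
      rw [Fin.val_succ]
      push_cast
      rfl
  rw [h1]
  refine LinearIndependent.comp lwiQ (fun j : Fin (N + 1) => (((j : ℕ) : QB))) ?_
  intro i j hij
  exact Fin.ext (Nat.cast_injective hij)

/-- **Main result.** -/
theorem result :
    -- logarithms of algebraic numbers
    (∀ (N : ℕ) (l : Fin N → ℂ), (∀ i, IsAlgebraic ℚ (Complex.exp (l i))) → LinearIndependent ℚ l →
      InEveryClass l (fun x => ExpFree N x ∧ NoSparseRelation N x)) ∧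
    -- arbitrary numbers
    (∀ (N : ℕ) (z : Fin N → ℂ), LinearIndependent Qbar (Fin.cons 1 z : Fin (N + 1) → ℂ) →
      InEveryClass z (fun x => ExpFree N x ∧ NoSparseRelation N x)) ∧
    -- the number of exponentials is best possible in the second part
    (∀ N : ℕ, ∃ z : Fin N → ℂ, LinearIndependent Qbar (Fin.cons 1 z : Fin (N + 1) → ℂ) ∧
      ∀ b : Fin N → ℤ, ¬ ExpFree (N + 1) (∑ i, (b i : ℂ) * z i)) := by
  classical
  refine ⟨fun N l halg hli => ?_, fun N z hz => ?_, fun N => ?_⟩
  · apply general
    intro c₀ c h0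
    have h1 := (Pool.Agent.H297R2.baker_inhom l halg hli (c₀ : ℂ) (mem_QB.1 c₀.2)
      (fun i => (c i : ℂ)) (fun i => mem_QB.1 (c i).2) h0).2
    funext i
    exact Subtype.ext (h1 i)
  · apply general
    intro c₀ c h0
    have h1 := Fintype.linearIndependent_iff.1 hz (Fin.cons c₀ c) (by
      rw [Fin.sum_univ_succ]
      simp only [Fin.cons_zero, Fin.cons_succ]
      rw [← h0]
      congr 1
      rw [Algebra.smul_def, mul_one]
      rfl)
    funext i
    exact h1 i.succ
  · refine ⟨fun i => Complex.exp ((i : ℕ) + 1), lw_powers N, fun b hfree => ?_⟩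
    set x : ℂ := ∑ i : Fin N, (b i : ℂ) * Complex.exp ((i : ℕ) + 1) with hx
    set ψ : Fin (N + 1) → ℂ := fun j => ((j : ℕ) : ℂ) with hψ
    have hψi : Function.Injective ψ := fun i j hij => Fin.ext (Nat.cast_injective hij)
    set P : Fin (N + 1) → Polynomial Qbar :=
      Fin.cons Polynomial.X (fun i : Fin N => Polynomial.C (-(b i : Qbar))) with hP
    have h1 := hfree (Finset.univ.image ψ) (by
      rw [Finset.card_image_of_injective _ hψi, Finset.card_univ, Fintype.card_fin]) (by
      intro γ hγ
      obtain ⟨j, -, rfl⟩ := Finset.mem_image.1 hγ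
      exact isAlgebraic_natCast _)
      (fun γ => if hγ : ∃ j, ψ j = γ then P hγ.choose else 0) (by
        rw [Finset.sum_image (fun a _ b _ h => hψi h)]
        have h2 : ∀ j ∈ (Finset.univ : Finset (Fin (N + 1))),
            Polynomial.aeval x (if hγ : ∃ i, ψ i = ψ j then P hγ.choose else 0) *
              Complex.exp (ψ j) = Polynomial.aeval x (P j) * Complex.exp (ψ j) := by
          intro j _
          have hex : ∃ i, ψ i = ψ j := ⟨j, rfl⟩
          rw [dif_pos hex, hψi hex.choose_spec]
        rw [Finset.sum_congr rfl h2, Fin.sum_univ_succ, hP]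
        simp only [Fin.cons_zero, Fin.cons_succ, hψ, Fin.val_zero, Fin.val_succ,
          Polynomial.aeval_X, Polynomial.aeval_C, Nat.cast_zero, Complex.exp_zero, mul_one,
          Nat.cast_add, Nat.cast_one]
        rw [hx]
        nth_rewrite 1 [← neg_neg (∑ i : Fin N, (b i : ℂ) * Complex.exp ((i : ℕ) + 1))]
        rw [← Finset.sum_neg_distrib, neg_add_eq_zero]
        refine Finset.sum_congr rfl fun i _ => ?_
        rw [map_neg, map_intCast, neg_mul])
      (ψ 0) (Finset.mem_image_of_mem ψ (Finset.mem_univ _))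
    have hex : ∃ i, ψ i = ψ 0 := ⟨0, rfl⟩
    rw [dif_pos hex, hψi hex.choose_spec, hP, Fin.cons_zero] at h1
    exact Polynomial.X_ne_zero h1

end Pool.Agent.W2helper76.SP.Few
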