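import Pool.Agent.W2helper76.SP.Kum
import Pool.Agent.W2helper76.SP.Stab

/-!
# Index bounds, finite supports
-/

set_option autoImplicit false
set_option linter.unusedSectionVars false

namespace Pool.Agent.W2helper76.SP

open Pool.Agent.W2helper76.UE Polynomial

variable {κ C Γ : Type} [Field κ] [Field C] [Algebra κ C] [AddCommGroup Γ] [Module ℚ Γ]
  {E : Multiplicative Γ →* C}

/-- the field generated by the exponentials of a group -/
noncomputable def FL (κ : Type) {C Γ : Type} [Field κ] [Field C] [Algebra κ C] [AddCommGroup Γ]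
    [Module ℚ Γ] (E : Multiplicative Γ →* C) (L : AddSubgroup Γ) : IntermediateField κ C :=
  IntermediateField.adjoin κ (ex E '' (L : Set Γ))

lemma adjoin_span (L : AddSubgroup Γ) {x : C} (hx : x ∈ Algebra.adjoin κ (ex E '' (L : Set Γ))) :
    x ∈ Submodule.span κ (Set.range fun l : L => ex E (l : Γ)) := by
  have h1 : x ∈ Subalgebra.toSubmodule (Algebra.adjoin κ (ex E '' (L : Set Γ))) := hx
  rw [Algebra.adjoin_eq_span] at h1
  refine Submodule.span_mono ?_ h1
  intro y hy
  induction hy using Submonoid.closure_induction with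
  | mem y hy =>
    obtain ⟨γ, hγ, rfl⟩ := hy
    exact ⟨⟨γ, hγ⟩, rfl⟩
  | one => exact ⟨⟨0, L.zero_mem⟩, ex_zero E⟩
  | mul y z _ _ hy hz =>
    obtain ⟨a, rfl⟩ := hy
    obtain ⟨b, rfl⟩ := hz
    exact ⟨a + b, ex_add E _ _⟩

open scoped IntermediateField.algebraAdjoinAdjoin in
/-- **index bound** -/
theorem index_bound (h : LWI κ E) (L : AddSubgroup Γ) (F : IntermediateField (FL κ E L) C)
    [FiniteDimensional (FL κ E L) F] {δ : Γ} (hδ : ex E δ ∈ F) :
    ∃ k : ℕ, 0 < k ∧ k ≤ Module.finrank (FL κ E L) F ∧ k • δ ∈ L := by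
  classical
  by_contra hcon
  push Not at hcon
  set d := Module.finrank (FL κ E L) F with hd
  -- dependence over the field
  have h1 : ¬ LinearIndependent (FL κ E L) (fun i : Fin (d + 1) => (⟨ex E δ, hδ⟩ : F) ^ (i : ℕ)) := by
    intro hli
    have := hli.fintype_card_le_finrank
    rw [Fintype.card_fin] at this
    omega
  have h2 : ¬ LinearIndependent (FL κ E L) (fun i : Fin (d + 1) => ex E δ ^ (i : ℕ)) := by
    intro hli
    apply h1
    refine LinearIndependent.of_comp F.val.toLinearMap ?_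
    exact hli
  have h3 : ¬ LinearIndependent (Algebra.adjoin κ (ex E '' (L : Set Γ)))
      (fun i : Fin (d + 1) => ex E δ ^ (i : ℕ)) := by
    intro hli
    apply h2
    have : IsScalarTower (Algebra.adjoin κ (ex E '' (L : Set Γ)))
        (IntermediateField.adjoin κ (ex E '' (L : Set Γ))) C :=
      ⟨fun a b c => mul_assoc (a : C) (b : C) c⟩
    have key : LinearIndependent (IntermediateField.adjoin κ (ex E '' (L : Set Γ)))
        (fun i : Fin (d + 1) => ex E δ ^ (i : ℕ)) :=
      (LinearIndependent.iff_fractionRing (Algebra.adjoin κ (ex E '' (L : Set Γ)))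
        (IntermediateField.adjoin κ (ex E '' (L : Set Γ)))).1 hli
    exact key
  rw [Fintype.not_linearIndependent_iff] at h3
  obtain ⟨g, hg, i₀, hi₀⟩ := h3
  have h4 : ∀ i, ∃ c : L →₀ κ, (c.sum fun l a => a • ex E (l : Γ)) = (g i : C) := fun i =>
    Finsupp.mem_span_range_iff_exists_finsupp.1 (adjoin_span L (g i).2)
  choose c hc using h4
  -- injectivity
  set φ : Fin (d + 1) × L → Γ := fun p => (p.1 : ℕ) • δ + (p.2 : Γ) with hφ
  have hinj : Function.Injective φ := by
    have key : ∀ p q : Fin (d + 1) × L, φ p = φ q → ¬ ((p.1 : ℕ) < q.1) := by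
      intro p q hpq hlt
      refine hcon ((q.1 : ℕ) - p.1) (by omega) (by omega) ?_
      have h5 : ((q.1 : ℕ) - (p.1 : ℕ)) • δ = (p.2 : Γ) - (q.2 : Γ) := by
        have h6 : (q.1 : ℕ) • δ = ((q.1 : ℕ) - (p.1 : ℕ)) • δ + (p.1 : ℕ) • δ := by
          rw [← add_smul]
          congr 1
          omega
        have h7 : (p.1 : ℕ) • δ + (p.2 : Γ) = (q.1 : ℕ) • δ + (q.2 : Γ) := hpq
        rw [h6] at h7
        have h8 : (p.1 : ℕ) • δ + (p.2 : Γ) - (p.1 : ℕ) • δ - q.2 =
            ((q.1 : ℕ) - (p.1 : ℕ)) • δ + (p.1 : ℕ) • δ + (q.2 : Γ) - (p.1 : ℕ) • δ - q.2 := by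
          rw [h7]
        rw [add_sub_cancel_left] at h8
        rw [h8]
        abel
      rw [h5]
      exact L.sub_mem p.2.2 q.2.2
    intro p q hpq
    have h6 := key p q hpq
    have h7 := key q p hpq.symm
    have h8 : p.1 = q.1 := Fin.ext (by omega)
    have h9 : (p.2 : Γ) = q.2 := by
      have : (p.1 : ℕ) • δ + (p.2 : Γ) = (q.1 : ℕ) • δ + (q.2 : Γ) := hpq
      rw [h8] at this
      exact add_left_cancel this
    exact Prod.ext h8 (Subtype.ext h9)
  have hli : LinearIndependent κ (fun p : Fin (d + 1) × L => ex E (φ p)) := h.comp φ hinj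
  set T : Finset L := Finset.univ.biUnion fun i => (c i).support with hT
  have hsum : ∑ p ∈ (Finset.univ : Finset (Fin (d + 1))) ×ˢ T, c p.1 p.2 • ex E (φ p) = 0 := by
    rw [Finset.sum_product, ← hg]
    refine Finset.sum_congr rfl fun i _ => ?_
    rw [Algebra.smul_def]
    have h5 : algebraMap (Algebra.adjoin κ (ex E '' (L : Set Γ))) C (g i) = (g i : C) := rfl
    rw [h5, ← hc i, Finsupp.sum, Finset.sum_mul]
    rw [← Finset.sum_subset (Finset.subset_biUnion_of_mem (fun i => (c i).support)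
      (Finset.mem_univ i))]
    · refine Finset.sum_congr rfl fun l _ => ?_
      rw [hφ]
      simp only
      rw [ex_add, ex_nsmul, smul_mul_assoc, mul_comm (ex E δ ^ (i : ℕ))]
    · intro l _ hl
      rw [Finsupp.notMem_support_iff.1 hl, zero_smul]
  have hzero := linearIndependent_iff'.1 hli _ (fun p => c p.1 p.2) hsum
  apply hi₀
  apply Subtype.ext
  rw [← hc i₀, Finsupp.sum]
  refine Finset.sum_eq_zero fun l hl => ?_
  have := hzero (i₀, l) (Finset.mem_product.2 ⟨Finset.mem_univ _,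
    Finset.mem_biUnion.2 ⟨i₀, Finset.mem_univ _, hl⟩⟩)
  simp only at this
  rw [this, zero_smul]

/-- finite supports -/
theorem exists_fin (h : LWI κ E) {x : C} (hx : x ∈ AV κ E ⊤) :
    ∃ G : Finset Γ, x ∈ AV κ E (Submodule.span ℚ (G : Set Γ)) := by
  classical
  obtain ⟨G, a, -, ⟨γ₁, hγ₁, ha⟩, hrel⟩ := exists_rel hx
  refine ⟨G, ?_⟩
  set p : C[X] := ∑ γ ∈ G, Polynomial.C (ex E γ) * (a γ).map (algebraMap κ C) with hp
  refine mem_of_poly p ?_ ?_ ?_
  · intro h0
    apply ha
    ext1 i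
    rw [coeff_zero]
    have h3 := congrArg (fun q => q.coeff i) h0
    simp only [hp, finsetSum_coeff, coeff_C_mul, coeff_map, coeff_zero] at h3
    refine (linearIndependent_iff'.1 h) G (fun γ => (a γ).coeff i) ?_ γ₁ hγ₁
    rw [← h3]
    apply Finset.sum_congr rfl
    intro γ _
    rw [Algebra.smul_def, mul_comm]
    rfl
  · intro i
    rw [hp, finsetSum_coeff]
    refine (AV κ E _).sum_mem fun γ hγ => ?_
    rw [coeff_C_mul, coeff_map]
    exact (AV κ E _).mul_mem (ex_mem_AV (Submodule.subset_span hγ)) ((AV κ E _).algebraMap_mem _)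
  · rw [hp, eval_finsetSum, ← hrel]
    apply Finset.sum_congr rfl
    intro γ _
    rw [eval_mul, eval_C, eval_map, mul_comm]
    rfl

theorem exists_fin' (h : LWI κ E) {ι : Type} [Finite ι] (z : ι → C) (hz : ∀ i, z i ∈ AV κ E ⊤) :
    ∃ G : Finset Γ, ∀ i, z i ∈ AV κ E (Submodule.span ℚ (G : Set Γ)) := by
  classical
  have := Fintype.ofFinite ι
  choose G hG using fun i => exists_fin h (hz i)
  refine ⟨Finset.univ.biUnion G, fun i => AV_mono (Submodule.span_mono ?_) (hG i)⟩
  intro γ hγ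
  exact Finset.mem_coe.2 (Finset.mem_biUnion.2 ⟨i, Finset.mem_univ _, hγ⟩)

lemma alg_of_poly {F : Type} [Field F] [Algebra F C] {x : C} (p : C[X]) (h0 : p ≠ 0)
    (hp : ∀ i, IsAlgebraic F (p.coeff i)) (hx : p.eval x = 0) : IsAlgebraic F x := by
  have h2 : ∃ q : (algebraicClosure F C)[X],
      q.map (algebraMap (algebraicClosure F C) C) = p := by
    have h1 : p ∈ Polynomial.lifts (algebraMap (algebraicClosure F C) C) := by
      rw [Polynomial.lifts_iff_coeff_lifts]
      intro i
      exact ⟨⟨p.coeff i, mem_algebraicClosure_iff.2 (hp i)⟩, rfl⟩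
    exact (Polynomial.mem_lifts _).1 h1
  obtain ⟨q, hq⟩ := h2
  have h1 : IsAlgebraic (algebraicClosure F C) x := by
    refine ⟨q, ?_, ?_⟩
    · rintro rfl
      exact h0 (by rw [← hq, Polynomial.map_zero])
    · rw [← hx, ← hq, eval_map_algebraMap]
  exact h1.restrictScalars F

/-- multiples in the group -/
lemma exists_mul_mem (G : Set Γ) {γ : Γ} (hγ : γ ∈ Submodule.span ℚ G) :
    ∃ k : ℕ, 0 < k ∧ k • γ ∈ AddSubgroup.closure G := by
  induction hγ using Submodule.span_induction with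
  | mem γ hγ => exact ⟨1, one_pos, by rw [one_smul]; exact AddSubgroup.subset_closure hγ⟩
  | zero => exact ⟨1, one_pos, by rw [smul_zero]; exact AddSubgroup.zero_mem _⟩
  | add a b _ _ ha hb =>
    obtain ⟨k, hk, ha⟩ := ha
    obtain ⟨l, hl, hb⟩ := hb
    refine ⟨k * l, Nat.mul_pos hk hl, ?_⟩
    rw [smul_add]
    refine AddSubgroup.add_mem _ ?_ ?_
    · rw [mul_comm, mul_smul]; exact AddSubgroup.nsmul_mem _ ha _
    · rw [mul_smul]; exact AddSubgroup.nsmul_mem _ hb _
  | smul q a _ ha =>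
    obtain ⟨k, hk, ha⟩ := ha
    refine ⟨q.den * k, Nat.mul_pos q.pos hk, ?_⟩
    have : (q.den * k) • (q • a) = q.num • (k • a) := by
      rw [← Nat.cast_smul_eq_nsmul ℚ, ← Nat.cast_smul_eq_nsmul ℚ, ← Int.cast_smul_eq_zsmul ℚ,
        smul_smul, smul_smul]
      congr 1
      push_cast
      have := Rat.den_mul_eq_num q
      linear_combination (k : ℚ) * this
    rw [this]
    exact AddSubgroup.zsmul_mem _ ha _

lemma ex_alg_FL {G : Set Γ} {γ : Γ} (hγ : γ ∈ Submodule.span ℚ G) :
    ∃ m, 0 < m ∧ ex E γ ^ m ∈ FL κ E (AddSubgroup.closure G) := by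
  obtain ⟨k, hk, h1⟩ := exists_mul_mem G hγ
  refine ⟨k, hk, ?_⟩
  rw [← ex_nsmul]
  exact IntermediateField.subset_adjoin _ _ ⟨_, h1, rfl⟩

/-- algebraicity over a field containing powers of the exponentials -/
lemma alg_AV {F : Type} [Field F] [Algebra F C] {V : Submodule ℚ Γ}
    (hκ : ∀ a : κ, IsAlgebraic F (algebraMap κ C a))
    (hV : ∀ γ ∈ V, IsAlgebraic F (ex E γ)) {x : C} (hx : x ∈ AV κ E V) : IsAlgebraic F x := by
  obtain ⟨p, h1, h2, h3⟩ := exists_poly hx
  refine alg_of_poly p h1 (fun i => ?_) h3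
  have h4 := h2 i
  generalize p.coeff i = y at h4
  unfold KV at h4
  induction h4 using IntermediateField.adjoin_induction with
  | mem y hy =>
    obtain ⟨γ, hγ, rfl⟩ := hy
    exact hV γ hγ
  | algebraMap c => exact hκ c
  | add y z _ _ h1 h2 => exact h1.add h2
  | inv y _ h1 => exact h1.inv
  | mul y z _ _ h1 h2 => exact h1.mul h2

/-- stability under the derivation -/
theorem AV_stable [CharZero κ] (D : Derivation κ C C) (χ : Γ → κ)
    (hχ : ∀ γ, D (ex E γ) = algebraMap κ C (χ γ) * ex E γ) (V : Submodule ℚ Γ) {x : C}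
    (hx : x ∈ AV κ E V) : D x ∈ AV κ E V := by
  have : CharZero C := charZero_of_injective_algebraMap (algebraMap κ C).injective
  have hKV : ∀ y ∈ KV κ E V, D y ∈ KV κ E V := by
    intro y hy
    unfold KV at hy
    induction hy using IntermediateField.adjoin_induction with
    | mem y hy =>
      obtain ⟨γ, hγ, rfl⟩ := hy
      rw [hχ]
      exact (KV κ E V).mul_mem ((KV κ E V).algebraMap_mem _) (ex_mem_KV hγ)
    | algebraMap c => rw [D.map_algebraMap]; exact (KV κ E V).zero_mem
    | add y z _ _ h1 h2 => rw [map_add]; exact (KV κ E V).add_mem h1 h2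
    | inv y hy h1 =>
      rw [Derivation.leibniz_inv, smul_eq_mul]
      exact (KV κ E V).mul_mem ((KV κ E V).neg_mem (pow_mem
        ((KV κ E V).inv_mem hy) 2)) h1
    | mul y z hy hz h1 h2 =>
      rw [Derivation.leibniz, smul_eq_mul, smul_eq_mul]
      exact (KV κ E V).add_mem ((KV κ E V).mul_mem hy h2) ((KV κ E V).mul_mem hz h1)
  exact D_alg (D.restrictScalars ℤ) (KV κ E V).toSubfield (AV κ E V).toSubfield
    (KV_le_AV V) hKV (mem_AV.1 hx) hx

end Pool.Agent.W2helper76.SP
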