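import Pool.Agent.W2helper76.SP.Der

/-!
# Kummer theory for relations between exponentials
-/

set_option autoImplicit false
set_option linter.unusedSectionVars false

namespace Pool.Agent.W2helper76.SP

open Pool.Agent.W2helper76.UE Polynomial

variable {κ C Γ : Type} [Field κ] [Field C] [Algebra κ C] [AddCommGroup Γ] [Module ℚ Γ]
  {E : Multiplicative Γ →* C}

lemma alg_mem_range [IsAlgClosed κ] {a : C} (ha : IsAlgebraic κ a) :
    ∃ b : κ, algebraMap κ C b = a := by
  have h3 : (minpoly κ a).degree = 1 :=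
    IsAlgClosed.degree_eq_one_of_irreducible κ (minpoly.irreducible ha.isIntegral)
  obtain ⟨b, hb⟩ := minpoly.mem_range_of_degree_eq_one κ a h3
  exact ⟨b, hb⟩

/-- Galois theory -/
lemma moving [CharZero κ] [IsAlgClosed C] (F : IntermediateField κ C) {y : C}
    (hy : IsAlgebraic F y) (hyF : y ∉ F) :
    ∃ σ : algebraicClosure F C ≃ₐ[F] algebraicClosure F C,
      σ ⟨y, mem_algebraicClosure_iff.2 hy⟩ ≠ ⟨y, mem_algebraicClosure_iff.2 hy⟩ := by
  by_contra hcon
  push Not at hcon
  have : CharZero F := charZero_of_injective_algebraMap (algebraMap κ F).injective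
  have : IsGalois F (algebraicClosure F C) := IsAlgClosure.isGalois F _
  have h1 := (InfiniteGalois.mem_bot_iff_fixed (k := F) (K := algebraicClosure F C)
    ⟨y, mem_algebraicClosure_iff.2 hy⟩).2 hcon
  obtain ⟨z, hz⟩ := IntermediateField.mem_bot.1 h1
  have h2 := congrArg Subtype.val hz
  apply hyF
  have h3 : (z : C) = y := h2
  rw [← h3]
  exact z.2

/-- **Kummer theory**: shortest relations -/
theorem kummer [CharZero κ] [IsAlgClosed κ] [IsAlgClosed C] (F K₀ : IntermediateField κ C)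
    (h0 : K₀ ≤ F) {J : Type} (e : J → C) (he : ∀ j, e j ≠ 0) (n : ℕ) :
    ∀ s : Finset J, s.card = n → s.Nonempty → (∀ j ∈ s, ∃ m, 0 < m ∧ e j ^ m ∈ F) →
      ∀ f : J → C, (∀ j ∈ s, f j ∈ K₀ ∧ f j ≠ 0) → ∑ j ∈ s, f j * e j = 0 →
      ∃ s' ⊆ s, s'.Nonempty ∧ ∃ f' : J → C, (∀ j ∈ s', f' j ∈ K₀ ∧ f' j ≠ 0) ∧
        ∑ j ∈ s', f' j * e j = 0 ∧ ∀ j ∈ s', ∀ j' ∈ s', e j / e j' ∈ F := by
  classical
  induction n using Nat.strong_induction_on with
  | _ n ih =>
    intro s hs hne hroot f hf hrel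
    by_cases hall : ∀ j ∈ s, ∀ j' ∈ s, e j / e j' ∈ F
    · exact ⟨s, Finset.Subset.refl s, hne, f, hf, hrel, hall⟩
    push Not at hall
    obtain ⟨j, hj, j', hj', hjj⟩ := hall
    have halg : ∀ i ∈ s, IsAlgebraic F (e i) := by
      intro i hi
      obtain ⟨m, hm, hmem⟩ := hroot i hi
      refine IsAlgebraic.of_pow hm ?_
      exact isAlgebraic_algebraMap (⟨_, hmem⟩ : F)
    have hya : IsAlgebraic F (e j / e j') := by
      rw [div_eq_mul_inv]
      exact (halg j hj).mul (halg j' hj').inv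
    set A := algebraicClosure F C with hA
    obtain ⟨σ, hσ⟩ : ∃ σ : A ≃ₐ[F] A, σ ⟨e j / e j', mem_algebraicClosure_iff.2 hya⟩ ≠
        ⟨e j / e j', mem_algebraicClosure_iff.2 hya⟩ := moving F hya hjj
    have hmA : ∀ i ∈ s, e i ∈ A := fun i hi => mem_algebraicClosure_iff.2 (halg i hi)
    -- the factors
    have hζ : ∀ i, ∃ ζ : κ, ∀ hi : i ∈ s, ((σ ⟨e i, hmA i hi⟩ : A) : C) = algebraMap κ C ζ * e i := by
      intro i
      by_cases hi : i ∈ s
      · obtain ⟨m, hm, hmem⟩ := hroot i hi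
        set y : A := ⟨e i, hmA i hi⟩ with hy
        have h1 : σ y ^ m = y ^ m := by
          rw [← map_pow]
          have : y ^ m = algebraMap F A ⟨e i ^ m, hmem⟩ := rfl
          rw [this, AlgEquiv.commutes]
        have h2 : (((σ y : A) : C) / e i) ^ m = 1 := by
          rw [div_pow]
          have h3 := congrArg (fun a : A => (a : C)) h1
          have h4 : ((σ y : A) : C) ^ m = (e i) ^ m := h3
          rw [h4, div_self (pow_ne_zero _ (he i))]
        have h5 : IsAlgebraic κ (((σ y : A) : C) / e i) := by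
          refine IsAlgebraic.of_pow hm ?_
          rw [h2]
          exact isAlgebraic_one
        obtain ⟨ζ, hζ⟩ := alg_mem_range h5
        refine ⟨ζ, fun _ => ?_⟩
        rw [hζ, div_mul_cancel₀ _ (he i)]
      · exact ⟨0, fun h => absurd h hi⟩
    choose ζ hζ using hζ
    have hne' : ζ j ≠ ζ j' := by
      intro heq
      apply hσ
      apply Subtype.ext
      have h1 : (⟨e j / e j', mem_algebraicClosure_iff.2 hya⟩ : A) =
          ⟨e j, hmA j hj⟩ / ⟨e j', hmA j' hj'⟩ := rfl
      rw [h1, map_div₀]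
      have h2 : ((σ ⟨e j, hmA j hj⟩ / σ ⟨e j', hmA j' hj'⟩ : A) : C) =
          ((σ ⟨e j, hmA j hj⟩ : A) : C) / ((σ ⟨e j', hmA j' hj'⟩ : A) : C) := rfl
      rw [h2, hζ j hj, hζ j' hj', heq]
      have h3 : algebraMap κ C (ζ j') ≠ 0 := by
        intro h0
        have h4 := hζ j' hj'
        rw [h0, zero_mul] at h4
        have h5 : σ ⟨e j', hmA j' hj'⟩ = 0 := Subtype.ext h4
        rw [map_eq_zero] at h5
        exact he j' (congrArg Subtype.val h5)
      rw [mul_div_mul_left _ _ h3]
      rfl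
    -- the transformed relation
    have hrel2 : ∑ i ∈ s, f i * (algebraMap κ C (ζ i) * e i) = 0 := by
      have hfA : ∀ i ∈ s, f i ∈ F := fun i hi => h0 (hf i hi).1
      have h1 : ∑ i ∈ s.attach, algebraMap F A ⟨f i, hfA i i.2⟩ * (⟨e i, hmA i i.2⟩ : A) = 0 := by
        apply Subtype.ext
        have h2 : ((∑ i ∈ s.attach, algebraMap F A ⟨f i, hfA i i.2⟩ * (⟨e i, hmA i i.2⟩ : A) : A) : C)
            = ∑ i ∈ s.attach, f i * e i := by
          push_cast
          rfl
        rw [h2, Finset.sum_attach s (fun i => f i * e i), hrel]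
        rfl
      have h3 := congrArg σ h1
      rw [map_zero, map_sum] at h3
      have h4 := congrArg (fun a : A => (a : C)) h3
      have h5 : ((∑ i ∈ s.attach, σ (algebraMap F A ⟨f i, hfA i i.2⟩ * (⟨e i, hmA i i.2⟩ : A)) : A) : C)
          = ∑ i ∈ s.attach, f i * (algebraMap κ C (ζ i) * e i) := by
        push_cast
        refine Finset.sum_congr rfl fun i _ => ?_
        rw [map_mul, AlgEquiv.commutes]
        have h6 := hζ i i.2
        rw [← h6]
        rfl
      rw [h5, Finset.sum_attach s (fun i => f i * (algebraMap κ C (ζ i) * e i))] at h4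
      exact h4
    set f₂ : J → C := fun i => f i * (algebraMap κ C (ζ i) - algebraMap κ C (ζ j')) with hf₂
    have hrel3 : ∑ i ∈ s, f₂ i * e i = 0 := by
      have : ∑ i ∈ s, f₂ i * e i = ∑ i ∈ s, f i * (algebraMap κ C (ζ i) * e i) -
          algebraMap κ C (ζ j') * ∑ i ∈ s, f i * e i := by
        rw [Finset.mul_sum, ← Finset.sum_sub_distrib]
        exact Finset.sum_congr rfl fun i _ => by rw [hf₂]; ring
      rw [this, hrel2, hrel, mul_zero, sub_zero]
    set s₂ := s.filter fun i => f₂ i ≠ 0 with hs₂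
    have hsub : s₂ ⊆ s := Finset.filter_subset _ _
    have hj2 : j ∈ s₂ := by
      rw [hs₂, Finset.mem_filter]
      refine ⟨hj, mul_ne_zero (hf j hj).2 (sub_ne_zero.2 fun h => hne' ((algebraMap κ C).injective h))⟩
    have hj2' : j' ∉ s₂ := by
      rw [hs₂, Finset.mem_filter, not_and_not_right]
      intro _
      rw [hf₂]
      simp
    have hlt : s₂.card < n := by
      rw [← hs]
      exact Finset.card_lt_card ⟨hsub, fun h => hj2' (h hj')⟩
    obtain ⟨s', h1, h2, h3⟩ := ih s₂.card hlt s₂ rfl ⟨j, hj2⟩ (fun i hi => hroot i (hsub hi)) f₂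
      (fun i hi => ⟨K₀.mul_mem (hf i (hsub hi)).1
        (K₀.sub_mem (K₀.algebraMap_mem _) (K₀.algebraMap_mem _)), (Finset.mem_filter.1 hi).2⟩) (by
        rw [← hrel3]
        refine Finset.sum_subset hsub fun i hi hi' => ?_
        have : f₂ i = 0 := by
          by_contra h
          exact hi' (Finset.mem_filter.2 ⟨hi, h⟩)
        rw [this, zero_mul])
    exact ⟨s', h1.trans hsub, h2, h3⟩

/-- relations decompose into relations between congruent exponents -/
theorem cosets [IsAlgClosed C] (h : LWI κ E) (ρ : Multiplicative ℚ →* κ)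
    (hρ : ∀ q : ℚ, q ≠ 0 → ρ (Multiplicative.ofAdd q) ≠ 1) (V : Submodule ℚ Γ)
    {J : Type} (s : Finset J) (γ : J → Γ) (c : J → C) (hc : ∀ j ∈ s, c j ∈ AV κ E V)
    (h0 : ∑ j ∈ s, c j * ex E (γ j) = 0) {j₀ : J} (hj₀ : j₀ ∈ s)
    [DecidablePred fun j => γ j - γ j₀ ∈ V] :
    ∑ j ∈ s.filter (fun j => γ j - γ j₀ ∈ V), c j * ex E (γ j - γ j₀) = 0 := by
  classical
  set rep : Γ → Γ := fun γ => Function.surjInv V.mkQ_surjective (V.mkQ γ) with hrep
  have hmk : ∀ g, V.mkQ (rep g) = V.mkQ g := fun g => Function.surjInv_eq _ _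
  have hrepV : ∀ g, g - rep g ∈ V := by
    intro g
    rw [← Submodule.Quotient.eq]
    exact (hmk g).symm
  have hiff : ∀ g g', rep g = rep g' ↔ g - g' ∈ V := by
    intro g g'
    constructor
    · intro hh
      have := hmk g
      rw [hh, hmk g'] at this
      rw [← Submodule.Quotient.eq]
      exact this.symm
    · intro hh
      have : V.mkQ g = V.mkQ g' := (Submodule.Quotient.eq V).2 hh
      rw [hrep]
      simp only [this]
  set G : Finset Γ := s.image fun j => rep (γ j) with hG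
  have h1 := li_AV h ρ hρ V G (by
    intro g hg g' hg' hne hmem
    obtain ⟨j, -, rfl⟩ := Finset.mem_image.1 hg
    obtain ⟨j', -, rfl⟩ := Finset.mem_image.1 hg'
    apply hne
    have h2 := (hiff _ _).2 hmem
    have h3 : ∀ g, rep (rep g) = rep g := fun g => by
      rw [hiff]
      have := V.neg_mem (hrepV g)
      rwa [neg_sub] at this
    rwa [h3, h3] at h2)
    (fun g => ∑ j ∈ s.filter (fun j => rep (γ j) = g), c j * ex E (γ j - g)) (by
      intro g hg
      refine (AV κ E V).sum_mem fun j hj => ?_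
      rw [Finset.mem_filter] at hj
      refine (AV κ E V).mul_mem (hc j hj.1) (ex_mem_AV ?_)
      rw [← hj.2]
      exact hrepV _) (by
      rw [← h0]
      have h2 : ∀ g ∈ G, (∑ j ∈ s.filter (fun j => rep (γ j) = g), c j * ex E (γ j - g)) * ex E g =
          ∑ j ∈ s.filter (fun j => rep (γ j) = g), c j * ex E (γ j) := by
        intro g _
        rw [Finset.sum_mul]
        refine Finset.sum_congr rfl fun j _ => ?_
        rw [mul_assoc, ex_sub]
      rw [Finset.sum_congr rfl h2]
      exact Finset.sum_fiberwise_of_maps_to (fun j hj => Finset.mem_image_of_mem _ hj) _)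
    (rep (γ j₀)) (Finset.mem_image_of_mem _ hj₀)
  have h3 : s.filter (fun j => γ j - γ j₀ ∈ V) = s.filter (fun j => rep (γ j) = rep (γ j₀)) := by
    refine Finset.filter_congr fun j _ => ?_
    rw [hiff]
  rw [h3]
  have h4 : ∑ j ∈ s.filter (fun j => rep (γ j) = rep (γ j₀)), c j * ex E (γ j - γ j₀) =
      (∑ j ∈ s.filter (fun j => rep (γ j) = rep (γ j₀)), c j * ex E (γ j - rep (γ j₀))) *
        ex E (rep (γ j₀) - γ j₀) := by
    rw [Finset.sum_mul]
    refine Finset.sum_congr rfl fun j _ => ?_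
    rw [mul_assoc, ← ex_add]
    congr 2
    abel
  rw [h4, h1, zero_mul]

end Pool.Agent.W2helper76.SP
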