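import Pool.Agent.W2helper76.SP.CaseB

/-!
# The theorem
-/

set_option autoImplicit false
set_option linter.unusedSectionVars false

namespace Pool.Agent.W2helper76.SP

open Pool.Agent.W2helper76.UE Polynomial

/-- transcendental numbers over the field of all exponentials -/
lemma free_of_notMem (N : ℕ) {x : ℂ} (hx : x ∉ AV QB expQ ⊤) : FreeOver N x := by
  classical
  intro γ hγ P hrel
  set R : ℂ[X] := ∑ j, Polynomial.C (Complex.exp (γ j)) * (P j).map (algebraMap QB ℂ) with hR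
  have hRx : R.eval x = 0 := by
    rw [hR, eval_finsetSum, ← hrel]
    refine Finset.sum_congr rfl fun j _ => ?_
    rw [eval_mul, eval_C, eval_map_algebraMap, mul_comm]
  have hR0 : R = 0 := by
    by_contra h0
    apply hx
    refine mem_of_poly R h0 (fun i => ?_) hRx
    rw [hR, finsetSum_coeff]
    refine (AV QB expQ ⊤).sum_mem fun j _ => ?_
    rw [coeff_C_mul, coeff_map]
    exact (AV QB expQ ⊤).mul_mem (ex_mem_AV (E := expQ) (γ := γ j) Submodule.mem_top)
      ((AV QB expQ ⊤).algebraMap_mem _)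
  funext j
  ext1 i
  have h1 := congrArg (fun q => q.coeff i) hR0
  simp only [hR, finsetSum_coeff, coeff_C_mul, coeff_map, coeff_zero] at h1
  have hli : LinearIndependent QB (fun j => expQ (Multiplicative.ofAdd (γ j))) :=
    LinearIndependent.comp lwiQ γ hγ
  have h2 := linearIndependent_iff'.1 hli Finset.univ (fun j => (P j).coeff i) (by
    rw [← h1]
    refine Finset.sum_congr rfl fun j _ => ?_
    rw [Algebra.smul_def, mul_comm]
    rfl) j (Finset.mem_univ j)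
  rw [h2]
  rfl

theorem caseA (N : ℕ) (z : Fin N → ℂ) (i₀ : Fin N) (hi₀ : z i₀ ∉ AV QB expQ ⊤)
    (m' : ℕ) (hm' : 0 < m') (a' : Fin N → ℤ) :
    ∃ (m : ℕ) (a : Fin N → ℤ), 0 < m ∧ m' ∣ m ∧ (∀ i, a i ≡ a' i [ZMOD m']) ∧
      ∀ b : Fin N → ℤ, (∀ i, b i ≡ a i [ZMOD m]) → FreeOver N (∑ i, (b i : ℂ) * z i) := by
  classical
  set K := AV QB expQ (⊤ : Submodule ℚ QB) with hK
  set Ks : Submodule ℚ ℂ := (Subalgebra.toSubmodule K.toSubalgebra).restrictScalars ℚ with hKs
  obtain ⟨f, hf⟩ := Module.exists_dual_forall_apply_ne_zero (K := ℚ)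
    (fun _ : Unit => Ks.mkQ (z i₀)) (fun _ => by
      rw [Ne, Submodule.mkQ_apply, Submodule.Quotient.mk_eq_zero]
      exact hi₀)
  set g : ℂ →ₗ[ℚ] ℚ := f.comp Ks.mkQ with hg
  have hgK : ∀ w ∈ K, g w = 0 := by
    intro w hw
    rw [hg, LinearMap.comp_apply, Submodule.mkQ_apply, (Submodule.Quotient.mk_eq_zero Ks).2 hw,
      map_zero]
  have hg0 : g (z i₀) ≠ 0 := hf ()
  -- integral coordinates
  set k : ℕ := ∏ j, (g (z j)).den with hk
  have hk0 : k ≠ 0 := Finset.prod_ne_zero_iff.2 fun j _ => (g (z j)).den_ne_zero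
  have hu : ∀ j, ∃ u : ℤ, (u : ℚ) = k * g (z j) := by
    intro j
    obtain ⟨t, ht⟩ := Finset.dvd_prod_of_mem (fun j => (g (z j)).den) (Finset.mem_univ j)
    refine ⟨t * (g (z j)).num, ?_⟩
    rw [hk, ht]
    push_cast
    rw [← Rat.den_mul_eq_num (g (z j))]
    ring
  choose u hu using hu
  have hui : u i₀ ≠ 0 := by
    intro h0
    have := hu i₀
    rw [h0, Int.cast_zero] at this
    rcases mul_eq_zero.1 this.symm with h | h
    · exact hk0 (by exact_mod_cast h)
    · exact hg0 h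
  obtain ⟨a, ha, haU⟩ : ∃ a : Fin N → ℤ, (∀ i, a i ≡ a' i [ZMOD m']) ∧ ∑ i, u i * a i ≠ 0 := by
    by_cases h : ∑ i, u i * a' i = 0
    · refine ⟨fun i => a' i + if i = i₀ then (m' : ℤ) else 0, fun i => ?_, ?_⟩
      · show a' i + (if i = i₀ then (m' : ℤ) else 0) ≡ a' i [ZMOD m']
        by_cases hi : i = i₀
        · rw [if_pos hi]
          exact Int.add_modEq_right
        · rw [if_neg hi, add_zero]
      · simp only [mul_add, Finset.sum_add_distrib, h, zero_add, mul_ite, mul_zero,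
          Finset.sum_ite_eq', Finset.mem_univ, if_true]
        exact mul_ne_zero hui (by exact_mod_cast hm'.ne')
    · exact ⟨a', fun i => Int.ModEq.refl _, h⟩
  set U := ∑ i, u i * a i with hU
  refine ⟨m' * (U.natAbs + 1), a, Nat.mul_pos hm' (Nat.succ_pos _), Dvd.intro _ rfl, ha, ?_⟩
  intro b hb
  apply free_of_notMem
  intro hmem
  have h1 := hgK _ hmem
  have h2 : ∑ i, u i * b i = 0 := by
    have h3 : ((∑ i, u i * b i : ℤ) : ℚ) = k * g (∑ i, (b i : ℂ) * z i) := by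
      push_cast
      rw [map_sum, Finset.mul_sum]
      refine Finset.sum_congr rfl fun i _ => ?_
      have h4 : (b i : ℂ) * z i = (b i : ℤ) • z i := by rw [zsmul_eq_mul]
      rw [h4, map_zsmul, hu, zsmul_eq_mul]
      ring
    rw [h1, mul_zero] at h3
    exact_mod_cast h3
  have h5 : ((U.natAbs + 1 : ℕ) : ℤ) ∣ U := by
    have h6 : U ≡ ∑ i, u i * b i [ZMOD ((U.natAbs + 1 : ℕ) : ℤ)] := by
      rw [hU]
      refine Int.ModEq.sum fun i _ => ?_
      refine Int.ModEq.mul_left _ ?_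
      refine (Int.ModEq.of_dvd ?_ (hb i)).symm
      push_cast
      exact Dvd.intro_left _ rfl
    rw [h2] at h6
    exact Int.modEq_zero_iff_dvd.1 h6
  apply haU
  apply Int.eq_zero_of_dvd_of_natAbs_lt_natAbs h5
  rw [Int.natAbs_natCast]
  omega

/-- the general theorem -/
theorem main (N : ℕ) (z : Fin N → ℂ)
    (hz : ∀ (c₀ : QB) (c : Fin N → QB), (c₀ : ℂ) + ∑ i, (c i : ℂ) * z i = 0 → c = 0)
    (m' : ℕ) (hm' : 0 < m') (a' : Fin N → ℤ) :
    ∃ (m : ℕ) (a : Fin N → ℤ), 0 < m ∧ m' ∣ m ∧ (∀ i, a i ≡ a' i [ZMOD m']) ∧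
      ∀ b : Fin N → ℤ, (∀ i, b i ≡ a i [ZMOD m]) → FreeOver N (∑ i, (b i : ℂ) * z i) := by
  rcases Nat.eq_zero_or_pos N with hN | hN
  · subst hN
    exact ⟨m', a', hm', dvd_rfl, fun i => Int.ModEq.refl _, fun b _ γ _ P _ =>
      Subsingleton.elim _ _⟩
  · by_cases hK : ∀ i, z i ∈ AV QB expQ ⊤
    · exact caseB N hN z hz hK m' hm' a'
    · push Not at hK
      obtain ⟨i₀, hi₀⟩ := hK
      exact caseA N z i₀ hi₀ m' hm' a'

end Pool.Agent.W2helper76.SP
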