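import Pool.Agent.W2helper76.SP.CaseB2

/-!
# The theorem, with algebraic coefficients
-/

set_option autoImplicit false
set_option linter.unusedSectionVars false

namespace Pool.Agent.W2helper76.SP

open Pool.Agent.W2helper76.UE Polynomial

/-- constants are algebraically closed -/
lemma const_of_alg {κ C : Type} [Field κ] [Field C] [Algebra κ C] [CharZero C]
    (D : Derivation κ C C) (k₀ : IntermediateField κ C) (h : ∀ a ∈ k₀, D a = 0) {a : C}
    (ha : IsAlgebraic k₀ a) : D a = 0 := by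
  have : CharZero k₀ := (RingHom.charZero_iff (algebraMap k₀ C).injective).2 inferInstance
  let D' : Derivation k₀ C C := Derivation.mk'
    { toFun := fun y => D y
      map_add' := fun y z => map_add D y z
      map_smul' := fun c y => by
        show D ((c : C) * y) = (c : C) * D y
        rw [Derivation.leibniz, h c c.2]
        simp }
    (fun y z => D.leibniz y z)
  have h1 : D' (aeval a (minpoly k₀ a)) = aeval a (derivative (minpoly k₀ a)) • D' a :=
    Derivation.map_aeval _ _ _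
  rw [minpoly.aeval, map_zero] at h1
  have hsep : aeval a (derivative (minpoly k₀ a)) ≠ 0 :=
    (minpoly.irreducible ha.isIntegral).separable.aeval_derivative_ne_zero (minpoly.aeval k₀ a)
  exact (mul_eq_zero.1 h1.symm).resolve_left hsep

/-- derivations killing a transcendental number -/
lemma exists_Dx {κ C Γ : Type} [Field κ] [Field C] [Algebra κ C] [AddCommGroup Γ] [Module ℚ Γ]
    {E : Multiplicative Γ →* C} [CharZero κ] (h : LWI κ E) (χ : Γ →+ C) {x : C}
    (hx : x ∉ AV κ E ⊤) :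
    ∃ D : Derivation κ C C, (∀ γ, D (ex E γ) = χ γ * ex E γ) ∧ D x = 0 := by
  classical
  have : CharZero C := charZero_of_injective_algebraMap (algebraMap κ C).injective
  let b := Module.Basis.ofVectorSpace ℚ Γ
  have hb := algind h b b.linearIndependent
  have hind : AlgebraicIndependent κ
      (fun o : Option _ => o.elim x (fun i => ex E (b i))) := by
    rw [hb.option_iff_transcendental]
    intro halg
    apply hx
    obtain ⟨q, hq0, hq⟩ := halg
    refine mem_of_poly (q.map (algebraMap _ C)) ?_ ?_ ?_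
    · rw [Ne, Polynomial.map_eq_zero_iff (FaithfulSMul.algebraMap_injective _ C)]
      exact hq0
    · intro i
      rw [Polynomial.coeff_map]
      have h1 : Algebra.adjoin κ (Set.range fun i => ex E (b i)) ≤ (AV κ E ⊤).toSubalgebra := by
        refine Algebra.adjoin_le ?_
        rintro _ ⟨i, rfl⟩
        exact ex_mem_AV Submodule.mem_top
      exact h1 (q.coeff i).2
    · rw [Polynomial.eval_map_algebraMap]
      exact hq
  obtain ⟨D, hD⟩ := Pool.Agent.H135R2.VS.exists_der hind
    (fun o => o.elim 0 (fun i => χ (b i) * ex E (b i)))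
  have hDx : D x = 0 := hD none
  have hDb : ∀ i, D (ex E (b i)) = χ (b i) * ex E (b i) := fun i => hD (some i)
  refine ⟨D, ?_, hDx⟩
  let Φ : Γ →+ C :=
    { toFun := fun γ => D (ex E γ) / ex E γ
      map_zero' := by
        show D (ex E (0 : Γ)) / ex E (0 : Γ) = 0
        rw [ex_zero, Derivation.map_one_eq_zero, zero_div]
      map_add' := by
        intro a c
        show D (ex E (a + c)) / ex E (a + c) = D (ex E a) / ex E a + D (ex E c) / ex E c
        rw [ex_add, Derivation.leibniz, smul_eq_mul, smul_eq_mul]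
        have h1 := ex_ne E a
        have h2 := ex_ne E c
        field_simp
        ring }
  have hΦ : Φ.toRatLinearMap = χ.toRatLinearMap := by
    apply b.ext
    intro i
    show D (ex E (b i)) / ex E (b i) = χ (b i)
    rw [hDb, mul_div_assoc, div_self (ex_ne E _), mul_one]
  intro γ
  have h1 : D (ex E γ) / ex E γ = χ γ := by
    have := LinearMap.congr_fun hΦ γ
    exact this
  rw [div_eq_iff (ex_ne E γ)] at h1
  exact h1

/-- transcendental numbers over the field of all exponentials -/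
lemma freeDeg_of_notMem (N : ℕ) {x : ℂ} (hx : x ∉ AV QB expQ ⊤) : FreeDeg N x := by
  classical
  have hac : IsAlgClosed QB := isAlgClosed_QB
  obtain ⟨D, hD, hDx⟩ := exists_Dx lwiQ (algebraMap QB ℂ).toAddMonoidHom hx
  refine ⟨?_, ?_⟩
  · intro P hP
    by_contra hP0
    obtain ⟨c, hc⟩ := alg_mem_range (⟨P, hP0, hP⟩ : IsAlgebraic QB x)
    exact hx (hc ▸ (AV QB expQ ⊤).algebraMap_mem c)
  · intro k hk M γ hγ _ c hck hrel j
    have h0 : ∀ a ∈ IntermediateField.adjoin QB {x}, D a = 0 := by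
      intro a ha
      induction ha using IntermediateField.adjoin_induction with
      | mem y hy => rw [Set.mem_singleton_iff.1 hy, hDx]
      | algebraMap c => exact D.map_algebraMap c
      | add y z _ _ h1 h2 => rw [map_add, h1, h2, add_zero]
      | inv y _ h1 => rw [Derivation.leibniz_inv, h1, smul_zero]
      | mul y z _ _ h1 h2 => rw [Derivation.leibniz, h1, h2, smul_zero, smul_zero, add_zero]
    have h1 : ∀ j, D (c j) = 0 := by
      intro j
      refine const_of_alg D _ h0 ?_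
      have h5 : IsAlgebraic (IntermediateField.adjoin QB {x}) (⟨c j, hck j⟩ : k) :=
        Algebra.IsAlgebraic.isAlgebraic _
      exact h5.algebraMap
    exact eigen_der D (fun j => Complex.exp (γ j)) (fun j => ((γ j : QB) : ℂ))
      (fun j => Complex.exp_ne_zero _) (fun j => hD (γ j)) (fun j => D.map_algebraMap (γ j)) _
      Finset.univ rfl (fun i _ i' _ hh => hγ (Subtype.ext hh)) c (fun j _ => h1 j) hrel j
      (Finset.mem_univ j)

theorem caseA' (N : ℕ) (z : Fin N → ℂ) (i₀ : Fin N) (hi₀ : z i₀ ∉ AV QB expQ ⊤)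
    (m' : ℕ) (hm' : 0 < m') (a' : Fin N → ℤ) :
    ∃ (m : ℕ) (a : Fin N → ℤ), 0 < m ∧ m' ∣ m ∧ (∀ i, a i ≡ a' i [ZMOD m']) ∧
      ∀ b : Fin N → ℤ, (∀ i, b i ≡ a i [ZMOD m]) → (∑ i, (b i : ℂ) * z i) ∉ AV QB expQ ⊤ := by
  classical
  set K := AV QB expQ (⊤ : Submodule ℚ QB) with hK
  set Ks : Submodule ℚ ℂ := (Subalgebra.toSubmodule K.toSubalgebra).restrictScalars ℚ with hKs
  obtain ⟨f, hf⟩ := Module.exists_dual_forall_apply_ne_zero (K := ℚ)
    (fun _ : Unit => Ks.mkQ (z i₀)) (fun _ => by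
      rw [Ne, Submodule.mkQ_apply, Submodule.Quotient.mk_eq_zero]
      exact hi₀)
  set g : ℂ →ₗ[ℚ] ℚ := f.comp Ks.mkQ with hg
  have hgK : ∀ w ∈ K, g w = 0 := by
    intro w hw
    rw [hg, LinearMap.comp_apply, Submodule.mkQ_apply, (Submodule.Quotient.mk_eq_zero Ks).2 hw,
      map_zero]
  have hg0 : g (z i₀) ≠ 0 := hf ()
  -- integral coordinates
  set k : ℕ := ∏ j, (g (z j)).den with hk
  have hk0 : k ≠ 0 := Finset.prod_ne_zero_iff.2 fun j _ => (g (z j)).den_ne_zero
  have hu : ∀ j, ∃ u : ℤ, (u : ℚ) = k * g (z j) := by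
    intro j
    obtain ⟨t, ht⟩ := Finset.dvd_prod_of_mem (fun j => (g (z j)).den) (Finset.mem_univ j)
    refine ⟨t * (g (z j)).num, ?_⟩
    rw [hk, ht]
    push_cast
    rw [← Rat.den_mul_eq_num (g (z j))]
    ring
  choose u hu using hu
  have hui : u i₀ ≠ 0 := by
    intro h0
    have := hu i₀
    rw [h0, Int.cast_zero] at this
    rcases mul_eq_zero.1 this.symm with h | h
    · exact hk0 (by exact_mod_cast h)
    · exact hg0 h
  obtain ⟨a, ha, haU⟩ : ∃ a : Fin N → ℤ, (∀ i, a i ≡ a' i [ZMOD m']) ∧ ∑ i, u i * a i ≠ 0 := by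
    by_cases h : ∑ i, u i * a' i = 0
    · refine ⟨fun i => a' i + if i = i₀ then (m' : ℤ) else 0, fun i => ?_, ?_⟩
      · show a' i + (if i = i₀ then (m' : ℤ) else 0) ≡ a' i [ZMOD m']
        by_cases hi : i = i₀
        · rw [if_pos hi]
          exact Int.add_modEq_right
        · rw [if_neg hi, add_zero]
      · simp only [mul_add, Finset.sum_add_distrib, h, zero_add, mul_ite, mul_zero,
          Finset.sum_ite_eq', Finset.mem_univ, if_true]
        exact mul_ne_zero hui (by exact_mod_cast hm'.ne')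
    · exact ⟨a', fun i => Int.ModEq.refl _, h⟩
  set U := ∑ i, u i * a i with hU
  refine ⟨m' * (U.natAbs + 1), a, Nat.mul_pos hm' (Nat.succ_pos _), Dvd.intro _ rfl, ha, ?_⟩
  intro b hb hmem
  have h1 := hgK _ hmem
  have h2 : ∑ i, u i * b i = 0 := by
    have h3 : ((∑ i, u i * b i : ℤ) : ℚ) = k * g (∑ i, (b i : ℂ) * z i) := by
      push_cast
      rw [map_sum, Finset.mul_sum]
      refine Finset.sum_congr rfl fun i _ => ?_
      have h4 : (b i : ℂ) * z i = (b i : ℤ) • z i := by rw [zsmul_eq_mul]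
      rw [h4, map_zsmul, hu, zsmul_eq_mul]
      ring
    rw [h1, mul_zero] at h3
    exact_mod_cast h3
  have h5 : ((U.natAbs + 1 : ℕ) : ℤ) ∣ U := by
    have h6 : U ≡ ∑ i, u i * b i [ZMOD ((U.natAbs + 1 : ℕ) : ℤ)] := by
      rw [hU]
      refine Int.ModEq.sum fun i _ => ?_
      refine Int.ModEq.mul_left _ ?_
      refine (Int.ModEq.of_dvd ?_ (hb i)).symm
      push_cast
      exact Dvd.intro_left _ rfl
    rw [h2] at h6
    exact Int.modEq_zero_iff_dvd.1 h6
  apply haU
  apply Int.eq_zero_of_dvd_of_natAbs_lt_natAbs h5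
  rw [Int.natAbs_natCast]
  omega

/-- the general theorem -/
theorem main' (N : ℕ) (hN : 0 < N) (z : Fin N → ℂ)
    (hz : ∀ (c₀ : QB) (c : Fin N → QB), (c₀ : ℂ) + ∑ i, (c i : ℂ) * z i = 0 → c = 0)
    (m' : ℕ) (hm' : 0 < m') (a' : Fin N → ℤ) :
    ∃ (m : ℕ) (a : Fin N → ℤ), 0 < m ∧ m' ∣ m ∧ (∀ i, a i ≡ a' i [ZMOD m']) ∧
      ∀ b : Fin N → ℤ, (∀ i, b i ≡ a i [ZMOD m]) → FreeDeg N (∑ i, (b i : ℂ) * z i) := by
  by_cases hK : ∀ i, z i ∈ AV QB expQ ⊤
  · exact caseB' N hN z hz hK m' hm' a'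
  · push Not at hK
    obtain ⟨i₀, hi₀⟩ := hK
    obtain ⟨m, a, h1, h2, h3, h4⟩ := caseA' N z i₀ hi₀ m' hm' a'
    exact ⟨m, a, h1, h2, h3, fun b hb => freeDeg_of_notMem N (h4 b hb)⟩

end Pool.Agent.W2helper76.SP
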