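import Pool.Agent.W2helper76.SP.Taylor

/-!
# Norms of `p ^ n / n!`
-/

set_option autoImplicit false
set_option linter.unusedSectionVars false

namespace Pool.Agent.W2helper76.SP

variable {p : ℕ} [Fact p.Prime] {Ω : Type*} [NormedField Ω] [NormedAlgebra ℚ_[p] Ω]

lemma norm_nat (n : ℕ) : ‖(n : Ω)‖ = ‖(n : ℚ_[p])‖ := by
  rw [← map_natCast (algebraMap ℚ_[p] Ω), norm_algebraMap']

lemma norm_nat_unit {n : ℕ} (h0 : 0 < n) (h : n < p) : ‖(n : ℚ_[p])‖ = 1 := by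
  rw [Padic.norm_natCast_eq_one_iff]
  exact (Nat.coprime_of_lt_prime (by omega) h Fact.out)

lemma norm_fact (n : ℕ) : ‖(n.factorial : ℚ_[p])‖ = ((p : ℝ) ^ (padicValNat p n.factorial))⁻¹ := by
  have h0 : (n.factorial : ℚ_[p]) ≠ 0 := by exact_mod_cast n.factorial_ne_zero
  rw [Padic.norm_eq_zpow_neg_valuation h0, Padic.valuation_natCast, zpow_neg, zpow_natCast]

lemma norm_ee (n : ℕ) : ‖ee (p : Ω) n‖ = ((p : ℝ)⁻¹) ^ n * (p : ℝ) ^ (padicValNat p n.factorial) := by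
  rw [ee, norm_div, norm_pow, norm_nat (p := p) (Ω := Ω) p, norm_nat (p := p) (Ω := Ω) n.factorial,
    Padic.norm_p, norm_fact (p := p) n, div_inv_eq_mul]

lemma val_fact_lt {n : ℕ} (h : n < p) : padicValNat p n.factorial = 0 := by
  apply padicValNat.eq_zero_of_not_dvd
  rw [(Fact.out : p.Prime).dvd_factorial]
  omega

lemma val_fact_le {n N : ℕ} (hp : N + 2 ≤ p) (h : N < n) : padicValNat p n.factorial + (N + 1) ≤ n := by
  by_cases hn : n < p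
  · rw [val_fact_lt hn]; omega
  · push Not at hn
    set v := padicValNat p n.factorial with hv
    have h1 : (p - 1) * v < n := sub_one_mul_padicValNat_factorial_lt_of_ne_zero p (by omega)
    by_contra hcon
    push Not at hcon
    have h3 : (p - 1) * v ≤ n - 1 := by omega
    have h4 : 1 ≤ v := by omega
    obtain ⟨q, rfl⟩ : ∃ q, p = N + 2 + q := ⟨p - (N + 2), by omega⟩
    have h5 : N + 2 + q - 1 = N + 1 + q := by omega
    rw [h5] at h3
    have h6 : n ≤ v + N := by omega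
    have h7 : (N + 1 + q) * v ≤ v + N - 1 := by omega
    have h8 : (N + 1 + q) * v = v + N * v + q * v := by ring
    have h9 : N ≤ N * v := Nat.le_mul_of_pos_right _ h4
    omega

lemma norm_ee_lt {n : ℕ} (h : n < p) : ‖ee (p : Ω) n‖ = ((p : ℝ)⁻¹) ^ n := by
  rw [norm_ee, val_fact_lt h, pow_zero, mul_one]

lemma norm_ee_le {n N : ℕ} (hp : N + 2 ≤ p) (h : N < n) : ‖ee (p : Ω) n‖ ≤ ((p : ℝ)⁻¹) ^ (N + 1) := by
  have hp0 : (0 : ℝ) < p := by exact_mod_cast (Fact.out : p.Prime).pos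
  have hp1 : (1 : ℝ) ≤ p := by exact_mod_cast (Fact.out : p.Prime).one_le
  obtain ⟨k, hk⟩ := Nat.exists_eq_add_of_le (val_fact_le hp h)
  rw [norm_ee]
  have h1 : ((p : ℝ)⁻¹) ^ n = ((p : ℝ)⁻¹) ^ (padicValNat p n.factorial) * ((p : ℝ)⁻¹) ^ (N + 1) *
      ((p : ℝ)⁻¹) ^ k := by
    rw [← pow_add, ← pow_add, ← hk]
  have h2 : ((p : ℝ)⁻¹) ^ (padicValNat p n.factorial) * (p : ℝ) ^ (padicValNat p n.factorial) = 1 := by
    rw [← mul_pow, inv_mul_cancel₀ hp0.ne', one_pow]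
  calc ((p : ℝ)⁻¹) ^ n * (p : ℝ) ^ (padicValNat p n.factorial)
      = (((p : ℝ)⁻¹) ^ (padicValNat p n.factorial) * (p : ℝ) ^ (padicValNat p n.factorial)) *
        (((p : ℝ)⁻¹) ^ (N + 1) * ((p : ℝ)⁻¹) ^ k) := by rw [h1]; ring
    _ = ((p : ℝ)⁻¹) ^ (N + 1) * ((p : ℝ)⁻¹) ^ k := by rw [h2, one_mul]
    _ ≤ ((p : ℝ)⁻¹) ^ (N + 1) * 1 := by
        gcongr
        exact pow_le_one₀ (by positivity) (inv_le_one_of_one_le₀ hp1)
    _ = _ := mul_one _

lemma norm_ee_le_one {n N : ℕ} (hp : N + 2 ≤ p) : ‖ee (p : Ω) n‖ ≤ 1 := by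
  have hp0 : (0 : ℝ) < p := by exact_mod_cast (Fact.out : p.Prime).pos
  have hp1 : (1 : ℝ) ≤ p := by exact_mod_cast (Fact.out : p.Prime).one_le
  have h1 : ∀ k : ℕ, ((p : ℝ)⁻¹) ^ k ≤ 1 := fun k =>
    pow_le_one₀ (by positivity) (inv_le_one_of_one_le₀ hp1)
  by_cases h : N < n
  · exact (norm_ee_le hp h).trans (h1 _)
  · rw [norm_ee_lt (by omega)]
    exact h1 _

end Pool.Agent.W2helper76.SP
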