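import Mathlib

/-!
# Exponential sums as power series over ultrametric fields
-/

set_option autoImplicit false
set_option linter.unusedSectionVars false

namespace Pool.Agent.W2helper76.SP

open PowerSeries Finset

variable {Ω : Type*} [NormedField Ω] [IsUltrametricDist Ω]

/-- bounded coefficients -/
def Bdd (F : PowerSeries Ω) : Prop := ∃ C : ℝ, 0 ≤ C ∧ ∀ n, ‖coeff n F‖ ≤ C

lemma bdd_zero : Bdd (0 : PowerSeries Ω) := ⟨0, le_rfl, by simp⟩

lemma norm_sum_le' {ι : Type*} (s : Finset ι) (f : ι → Ω) {C : ℝ} (hC : 0 ≤ C)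
    (h : ∀ i ∈ s, ‖f i‖ ≤ C) : ‖∑ i ∈ s, f i‖ ≤ C :=
  IsUltrametricDist.norm_sum_le_of_forall_le_of_nonneg hC h

lemma bdd_add {F G : PowerSeries Ω} (hF : Bdd F) (hG : Bdd G) : Bdd (F + G) := by
  obtain ⟨C, hC, h⟩ := hF
  obtain ⟨D, hD, h'⟩ := hG
  refine ⟨max C D, le_max_of_le_left hC, fun n => ?_⟩
  rw [map_add]
  exact (IsUltrametricDist.norm_add_le_max _ _).trans (max_le_max (h n) (h' n))

lemma bdd_mul {F G : PowerSeries Ω} (hF : Bdd F) (hG : Bdd G) : Bdd (F * G) := by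
  obtain ⟨C, hC, h⟩ := hF
  obtain ⟨D, hD, h'⟩ := hG
  refine ⟨C * D, mul_nonneg hC hD, fun n => ?_⟩
  rw [coeff_mul]
  refine norm_sum_le' _ _ (mul_nonneg hC hD) fun i _ => ?_
  rw [norm_mul]
  exact mul_le_mul (h _) (h' _) (norm_nonneg _) hC

lemma bdd_C (a : Ω) : Bdd (C a) := by
  refine ⟨‖a‖, norm_nonneg a, fun n => ?_⟩
  rw [coeff_C]
  split_ifs with h
  · exact le_rfl
  · simp

lemma bdd_sum {ι : Type*} (s : Finset ι) (F : ι → PowerSeries Ω) (h : ∀ i ∈ s, Bdd (F i)) :
    Bdd (∑ i ∈ s, F i) := by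
  classical
  induction s using Finset.induction_on with
  | empty => simpa using bdd_zero
  | insert i s hi ih =>
    rw [sum_insert hi]
    exact bdd_add (h i (mem_insert_self i s)) (ih fun j hj => h j (mem_insert_of_mem hj))

lemma bdd_aeval {L : PowerSeries Ω} (hL : Bdd L) (Q : Polynomial Ω) :
    Bdd (Polynomial.aeval L Q) := by
  induction Q using Polynomial.induction_on' with
  | add p q hp hq => rw [map_add]; exact bdd_add hp hq
  | monomial n a =>
    rw [Polynomial.aeval_monomial]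
    refine bdd_mul (bdd_C a) ?_
    induction n with
    | zero => rw [pow_zero]; exact bdd_C 1
    | succ n ih => rw [pow_succ]; exact bdd_mul ih hL

/-- a Gauss lemma -/
lemma gauss {g h : PowerSeries Ω} {N : ℕ} {ρ : ℝ} (hρ0 : 0 ≤ ρ) (hρ : ρ < 1)
    (hgN : ‖coeff N g‖ = 1) (hg : ∀ i, i ≠ N → ‖coeff i g‖ ≤ ρ) (hh : Bdd h) (h0 : h ≠ 0) :
    ∃ n, N ≤ n ∧ ∀ k, ρ * ‖coeff k (g * h)‖ < ‖coeff n (g * h)‖ := by
  obtain ⟨C, hC, hCh⟩ := hh
  set S : Set ℝ := Set.range fun n => ‖coeff n h‖ with hS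
  have hbdd : BddAbove S := ⟨C, by rintro _ ⟨n, rfl⟩; exact hCh n⟩
  have hne : S.Nonempty := ⟨_, 0, rfl⟩
  set M := sSup S with hM
  have hle : ∀ n, ‖coeff n h‖ ≤ M := fun n => le_csSup hbdd ⟨n, rfl⟩
  have hMpos : 0 < M := by
    by_contra hcon
    apply h0
    ext n
    have := (hle n).trans (not_lt.1 hcon)
    rw [map_zero]
    exact norm_le_zero_iff.1 this
  obtain ⟨_, ⟨n₀, rfl⟩, hn₀⟩ := exists_lt_of_lt_csSup hne (show ρ * M < M by nlinarith)
  have hn₀' : ρ * M < ‖coeff n₀ h‖ := hn₀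
  have hgle : ∀ i, ‖coeff i g‖ ≤ 1 := by
    intro i
    by_cases hi : i = N
    · rw [hi, hgN]
    · exact (hg i hi).trans hρ.le
  have hall : ∀ k, ‖coeff k (g * h)‖ ≤ M := by
    intro k
    rw [coeff_mul]
    refine norm_sum_le' _ _ hMpos.le fun i _ => ?_
    rw [norm_mul]
    calc ‖coeff i.1 g‖ * ‖coeff i.2 h‖ ≤ 1 * M :=
          mul_le_mul (hgle _) (hle _) (norm_nonneg _) zero_le_one
      _ = M := one_mul M
  refine ⟨N + n₀, by omega, fun k => ?_⟩
  have hmem : (N, n₀) ∈ antidiagonal (N + n₀) := by simp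
  have hsplit : coeff (N + n₀) (g * h) = coeff N g * coeff n₀ h +
      ∑ i ∈ (antidiagonal (N + n₀)).erase (N, n₀), coeff i.1 g * coeff i.2 h := by
    rw [coeff_mul, ← Finset.add_sum_erase _ _ hmem]
  have hrest : ‖∑ i ∈ (antidiagonal (N + n₀)).erase (N, n₀), coeff i.1 g * coeff i.2 h‖ ≤
      ρ * M := by
    refine norm_sum_le' _ _ (mul_nonneg hρ0 hMpos.le) fun i hi => ?_
    rw [Finset.mem_erase, HasAntidiagonal.mem_antidiagonal] at hi
    have hi1 : i.1 ≠ N := by
      intro h1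
      apply hi.1
      ext
      · exact h1
      · simp only; omega
    rw [norm_mul]
    exact mul_le_mul (hg _ hi1) (hle _) (norm_nonneg _) hρ0
  have hmain : ‖coeff N g * coeff n₀ h‖ = ‖coeff n₀ h‖ := by rw [norm_mul, hgN, one_mul]
  have hlt : ‖∑ i ∈ (antidiagonal (N + n₀)).erase (N, n₀), coeff i.1 g * coeff i.2 h‖ <
      ‖coeff N g * coeff n₀ h‖ := by
    rw [hmain]; exact lt_of_le_of_lt hrest hn₀'
  have heq : ‖coeff (N + n₀) (g * h)‖ = ‖coeff n₀ h‖ := by
    rw [hsplit, IsUltrametricDist.norm_add_eq_max_of_norm_ne_norm (ne_of_gt hlt), hmain,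
      max_eq_left]
    rw [← hmain]; exact hlt.le
  rw [heq]
  calc ρ * ‖coeff k (g * h)‖ ≤ ρ * M := mul_le_mul_of_nonneg_left (hall k) hρ0
    _ < ‖coeff n₀ h‖ := hn₀'

/-- linear recurrences with integral coefficients -/
lemma rec_bound {J : Type*} [DecidableEq J] (s : Finset J) (δ c : J → Ω)
    (hδ : ∀ j ∈ s, ‖δ j‖ ≤ 1) {A : ℝ} (hA : 0 ≤ A)
    (h : ∀ k < s.card, ‖∑ j ∈ s, c j * δ j ^ k‖ ≤ A) (n : ℕ) :
    ‖∑ j ∈ s, c j * δ j ^ n‖ ≤ A := by
  classical
  set P : Polynomial Ω := ∏ j ∈ s, (Polynomial.X - Polynomial.C (δ j)) with hP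
  have hmon : P.Monic := Polynomial.monic_prod_of_monic _ _ fun j _ => Polynomial.monic_X_sub_C _
  have hdeg : P.natDegree = s.card := by
    rw [hP, Polynomial.natDegree_prod_of_monic _ _ fun j _ => Polynomial.monic_X_sub_C _]
    simp
  have hcoef : ∀ i, ‖P.coeff i‖ ≤ 1 := by
    rw [hP]
    clear h hmon hdeg hP P
    induction s using Finset.induction_on with
    | empty =>
      intro i
      rw [prod_empty, Polynomial.coeff_one]
      split_ifs <;> simp
    | insert j s hj ih =>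
      intro i
      rw [prod_insert hj, sub_mul, Polynomial.coeff_sub, Polynomial.coeff_C_mul]
      have ih' := ih fun k hk => hδ k (mem_insert_of_mem hk)
      rw [sub_eq_add_neg]; refine (IsUltrametricDist.norm_add_le_max _ _).trans (max_le ?_ ?_)
      · cases i with
        | zero => simp
        | succ i => rw [Polynomial.coeff_X_mul]; exact ih' i
      · rw [norm_neg, norm_mul]
        exact mul_le_one₀ (hδ j (mem_insert_self j s)) (norm_nonneg _) (ih' i)
  have hroot : ∀ j ∈ s, ∀ n, s.card ≤ n → δ j ^ n =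
      - ∑ i ∈ range s.card, P.coeff i * δ j ^ (n - s.card + i) := by
    intro j hj n hn
    have h0 : P.eval (δ j) = 0 := by
      rw [hP, Polynomial.eval_prod]
      exact prod_eq_zero hj (by simp)
    rw [Polynomial.eval_eq_sum_range, hdeg, sum_range_succ, ← hdeg, hmon.coeff_natDegree, one_mul,
      hdeg] at h0
    have h1 : δ j ^ n = δ j ^ (n - s.card) * δ j ^ s.card := by
      rw [← pow_add]; congr 1; omega
    have h2 : δ j ^ s.card = - ∑ i ∈ range s.card, P.coeff i * δ j ^ i := by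
      linear_combination h0
    rw [h1, h2, mul_neg, mul_sum]
    congr 1
    apply sum_congr rfl
    intro i _
    rw [pow_add]; ring
  induction n using Nat.strong_induction_on with
  | _ n ih =>
    by_cases hn : n < s.card
    · exact h n hn
    · push Not at hn
      have : ∑ j ∈ s, c j * δ j ^ n = - ∑ i ∈ range s.card, P.coeff i *
          ∑ j ∈ s, c j * δ j ^ (n - s.card + i) := by
        rw [sum_congr rfl fun j hj => by rw [hroot j hj n hn]]
        simp only [mul_neg, mul_sum, sum_neg_distrib]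
        congr 1
        rw [sum_comm]
        apply sum_congr rfl
        intro i _
        apply sum_congr rfl
        intro j _
        ring
      rw [this, norm_neg]
      refine norm_sum_le' _ _ hA fun i hi => ?_
      rw [norm_mul]
      have hi' := mem_range.1 hi
      calc ‖P.coeff i‖ * ‖∑ j ∈ s, c j * δ j ^ (n - s.card + i)‖ ≤ 1 * A :=
            mul_le_mul (hcoef i) (ih _ (by omega)) (norm_nonneg _) zero_le_one
        _ = A := one_mul A

/-- the first `s.card` power sums determine the coefficients -/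
lemma vander {F J : Type*} [Field F] [DecidableEq J] (s : Finset J) (δ c : J → F)
    (hδ : Set.InjOn δ s)
    (h : ∀ k < s.card, ∑ j ∈ s, c j * δ j ^ k = 0) : ∀ j ∈ s, c j = 0 := by
  classical
  have hpoly : ∀ Q : Polynomial F, Q.natDegree < s.card → ∑ j ∈ s, c j * Q.eval (δ j) = 0 := by
    intro Q hQ
    simp only [Polynomial.eval_eq_sum_range, mul_sum]
    rw [sum_comm]
    apply sum_eq_zero
    intro k hk
    have := h k (by have := mem_range.1 hk; omega)
    calc ∑ j ∈ s, c j * (Q.coeff k * δ j ^ k) = Q.coeff k * ∑ j ∈ s, c j * δ j ^ k := by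
          rw [mul_sum]; apply sum_congr rfl; intro j _; ring
      _ = 0 := by rw [this, mul_zero]
  intro j hj
  set Q : Polynomial F := ∏ i ∈ s.erase j, (Polynomial.X - Polynomial.C (δ i)) with hQ
  have hdeg : Q.natDegree < s.card := by
    rw [hQ, Polynomial.natDegree_prod_of_monic _ _ fun i _ => Polynomial.monic_X_sub_C _]
    simp only [Polynomial.natDegree_X_sub_C, sum_const, smul_eq_mul, mul_one]
    exact card_erase_lt_of_mem hj
  have h1 := hpoly Q hdeg
  rw [← Finset.add_sum_erase _ _ hj] at h1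
  have h2 : ∑ i ∈ s.erase j, c i * Q.eval (δ i) = 0 := by
    apply sum_eq_zero
    intro i hi
    have : Q.eval (δ i) = 0 := by
      rw [hQ, Polynomial.eval_prod]
      exact prod_eq_zero hi (by simp)
    rw [this, mul_zero]
  rw [h2, add_zero] at h1
  have h3 : Q.eval (δ j) ≠ 0 := by
    rw [hQ, Polynomial.eval_prod]
    apply prod_ne_zero_iff.2
    intro i hi
    rw [Finset.mem_erase] at hi
    simp only [Polynomial.eval_sub, Polynomial.eval_X, Polynomial.eval_C]
    exact sub_ne_zero.2 fun he => hi.1 (hδ hi.2 hj he.symm)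
  exact (mul_eq_zero.1 h1).resolve_right h3

/-- **the main lemma**: an exponential sum of at most `N` terms is not divisible by a series with
exactly one coefficient of norm one, at `N` -/
lemma no_factor {J : Type*} [DecidableEq J] {s : Finset J} {δ c : J → Ω} {N : ℕ} {ρ : ℝ}
    {e : ℕ → Ω} (hρ0 : 0 ≤ ρ) (hρ : ρ < 1) (hs : s.card ≤ N) (hδ : ∀ j ∈ s, ‖δ j‖ ≤ 1)
    (hinj : Set.InjOn δ s) (hc : ∃ j ∈ s, c j ≠ 0) (he0 : ∀ k < N, e k ≠ 0)
    (he : ∀ n, N ≤ n → ∀ k < N, ‖e n‖ ≤ ρ * ‖e k‖) {g h : PowerSeries Ω}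
    (hgN : ‖coeff N g‖ = 1) (hg : ∀ i, i ≠ N → ‖coeff i g‖ ≤ ρ) (hh : Bdd h)
    (hf : ∀ n, coeff n (g * h) = (∑ j ∈ s, c j * δ j ^ n) * e n) : False := by
  classical
  -- the largest among the first sums
  have hspos : 0 < s.card := by
    obtain ⟨j, hj, -⟩ := hc
    exact card_pos.2 ⟨j, hj⟩
  obtain ⟨k, hk, hmax⟩ := Finset.exists_max_image (range s.card)
    (fun k => ‖∑ j ∈ s, c j * δ j ^ k‖) ⟨0, mem_range.2 hspos⟩
  rw [mem_range] at hk
  have hall : ∀ n, ‖∑ j ∈ s, c j * δ j ^ n‖ ≤ ‖∑ j ∈ s, c j * δ j ^ k‖ := fun n =>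
    rec_bound s δ c hδ (norm_nonneg _) (fun i hi => hmax i (mem_range.2 hi)) n
  have hne : ∑ j ∈ s, c j * δ j ^ k ≠ 0 := by
    intro h0
    obtain ⟨j, hj, hcj⟩ := hc
    apply hcj
    refine vander s δ c hinj (fun i _ => ?_) j hj
    have := hall i
    rw [h0, norm_zero] at this
    exact norm_le_zero_iff.1 this
  have hkN : k < N := by omega
  have hh0 : h ≠ 0 := by
    rintro rfl
    have := hf k
    rw [mul_zero, map_zero] at this
    rcases mul_eq_zero.1 this.symm with h1 | h1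
    · exact hne h1
    · exact he0 k hkN h1
  obtain ⟨n, hn, hlt⟩ := gauss hρ0 hρ hgN hg hh hh0
  have h1 := hlt k
  rw [hf, hf, norm_mul, norm_mul] at h1
  have h2 := he n hn k hkN
  have h3 : ‖∑ j ∈ s, c j * δ j ^ n‖ * ‖e n‖ ≤
      ‖∑ j ∈ s, c j * δ j ^ k‖ * (ρ * ‖e k‖) :=
    mul_le_mul (hall n) h2 (norm_nonneg _) (norm_nonneg _)
  nlinarith

end Pool.Agent.W2helper76.SP
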