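import Pool.Agent.W2helper76.SP.Idx

/-!
# Reduction to exponents with bounded denominators
-/

set_option autoImplicit false
set_option linter.unusedSectionVars false

namespace Pool.Agent.W2helper76.SP

open Pool.Agent.W2helper76.UE Polynomial

variable {κ C Γ : Type} [Field κ] [Field C] [Algebra κ C] [AddCommGroup Γ] [Module ℚ Γ]
  {E : Multiplicative Γ →* C}

/-- clearing denominators -/
lemma clear {x : C} {J : Type} (s : Finset J) (f e : J → C)
    (hf : ∀ j ∈ s, f j ∈ IntermediateField.adjoin κ {x} ∧ f j ≠ 0)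
    (hrel : ∑ j ∈ s, f j * e j = 0) :
    ∃ Q : J → κ[X], (∀ j ∈ s, aeval x (Q j) ≠ 0) ∧ ∑ j ∈ s, aeval x (Q j) * e j = 0 := by
  classical
  have h1 : ∀ j, ∃ r t : κ[X], j ∈ s → (f j = aeval x r / aeval x t ∧ aeval x r ≠ 0 ∧
      aeval x t ≠ 0) := by
    intro j
    by_cases hj : j ∈ s
    · obtain ⟨r, t, hrt⟩ := (IntermediateField.mem_adjoin_simple_iff κ (f j)).1 (hf j hj).1
      refine ⟨r, t, fun _ => ⟨hrt, ?_, ?_⟩⟩
      · intro h0
        apply (hf j hj).2
        rw [hrt, h0, zero_div]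
      · intro h0
        apply (hf j hj).2
        rw [hrt, h0, div_zero]
    · exact ⟨0, 0, fun h => absurd h hj⟩
  choose r t h using h1
  have hprod : ∏ i ∈ s, aeval x (t i) ≠ 0 := Finset.prod_ne_zero_iff.2 fun i hi => (h i hi).2.2
  have key : ∀ j ∈ s, aeval x (r j * ∏ i ∈ s.erase j, t i) = (∏ i ∈ s, aeval x (t i)) * f j := by
    intro j hj
    rw [map_mul, map_prod, ← Finset.mul_prod_erase s _ hj, (h j hj).1]
    have := (h j hj).2.2
    field_simp
  refine ⟨fun j => r j * ∏ i ∈ s.erase j, t i, fun j hj => ?_, ?_⟩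
  · rw [key j hj]
    exact mul_ne_zero hprod (hf j hj).2
  · have h2 : ∑ j ∈ s, aeval x (r j * ∏ i ∈ s.erase j, t i) * e j =
        (∏ i ∈ s, aeval x (t i)) * ∑ j ∈ s, f j * e j := by
      rw [Finset.mul_sum]
      refine Finset.sum_congr rfl fun j hj => ?_
      rw [key j hj, mul_assoc]
    rw [h2, hrel, mul_zero]

theorem reduce [CharZero κ] [IsAlgClosed κ] [IsAlgClosed C] (h : LWI κ E)
    (ρ : Multiplicative ℚ →* κ) (hρ : ∀ q : ℚ, q ≠ 0 → ρ (Multiplicative.ofAdd q) ≠ 1) (G : Set Γ)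
    (F : IntermediateField (FL κ E (AddSubgroup.closure G)) C)
    [FiniteDimensional (FL κ E (AddSubgroup.closure G)) F]
    {x : C} (hxF : x ∈ F) (hxV : x ∈ AV κ E (Submodule.span ℚ G))
    (hx : ∀ p : κ[X], aeval x p = 0 → p = 0)
    {J : Type} [Fintype J] (γ : J → Γ) (P : J → κ[X]) (j₀ : J) (hP : P j₀ ≠ 0)
    (hrel : ∑ j, aeval x (P j) * ex E (γ j) = 0) :
    ∃ (s : Finset J) (j₁ : J) (Q : J → κ[X]), j₁ ∈ s ∧ (∀ j ∈ s, aeval x (Q j) ≠ 0) ∧
      ∑ j ∈ s, aeval x (Q j) * ex E (γ j - γ j₁) = 0 ∧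
      ∀ j ∈ s, ∃ k : ℕ, 0 < k ∧ k ≤ Module.finrank (FL κ E (AddSubgroup.closure G)) F ∧
        k • (γ j - γ j₁) ∈ AddSubgroup.closure G := by
  classical
  set V := Submodule.span ℚ G with hV
  have hxp : ∀ p : κ[X], aeval x p ∈ IntermediateField.adjoin κ {x} := by
    intro p
    rw [IntermediateField.mem_adjoin_simple_iff]
    exact ⟨p, 1, by rw [map_one, div_one]⟩
  have hxV' : IntermediateField.adjoin κ {x} ≤ AV κ E V := by
    rw [IntermediateField.adjoin_simple_le_iff]
    exact hxV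
  have h1 := cosets h ρ hρ V Finset.univ γ (fun j => aeval x (P j))
    (fun j _ => hxV' (hxp _)) hrel (Finset.mem_univ j₀)
  set s₀ := Finset.univ.filter (fun j => γ j - γ j₀ ∈ V) with hs₀
  set s₁ := s₀.filter (fun j => aeval x (P j) ≠ 0) with hs₁
  have h2 : ∑ j ∈ s₁, aeval x (P j) * ex E (γ j - γ j₀) = 0 := by
    rw [← h1]
    refine Finset.sum_subset (Finset.filter_subset _ _) fun j hj hj' => ?_
    have : aeval x (P j) = 0 := by
      by_contra hne
      exact hj' (Finset.mem_filter.2 ⟨hj, hne⟩)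
    rw [this, zero_mul]
  have hne : s₁.Nonempty := by
    refine ⟨j₀, Finset.mem_filter.2 ⟨Finset.mem_filter.2 ⟨Finset.mem_univ _, ?_⟩, ?_⟩⟩
    · rw [sub_self]; exact V.zero_mem
    · intro h0
      exact hP (hx _ h0)
  have h0 : IntermediateField.adjoin κ {x} ≤ F.restrictScalars κ := by
    rw [IntermediateField.adjoin_simple_le_iff, IntermediateField.mem_restrictScalars]
    exact hxF
  obtain ⟨s', -, hs'ne, f', hf', hrel', hratio⟩ := kummer (F.restrictScalars κ)
    (IntermediateField.adjoin κ {x}) h0 (fun j => ex E (γ j - γ j₀)) (fun j => ex_ne E _) s₁.card s₁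
    rfl hne (fun j hj => by
      obtain ⟨m, hm, hmem⟩ := ex_alg_FL (κ := κ) (E := E)
        ((Finset.mem_filter.1 (Finset.mem_filter.1 hj).1).2)
      refine ⟨m, hm, ?_⟩
      rw [IntermediateField.mem_restrictScalars]
      exact F.algebraMap_mem ⟨_, hmem⟩)
    (fun j => aeval x (P j)) (fun j hj => ⟨hxp _, (Finset.mem_filter.1 hj).2⟩) h2
  obtain ⟨Q, hQ, hQrel⟩ := clear s' f' (fun j => ex E (γ j - γ j₀)) hf' hrel'
  obtain ⟨j₁, hj₁⟩ := hs'ne
  have hquot : ∀ j, ex E (γ j - γ j₀) / ex E (γ j₁ - γ j₀) = ex E (γ j - γ j₁) := by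
    intro j
    rw [div_eq_iff (ex_ne E _), ← ex_add]
    congr 1
    abel
  refine ⟨s', j₁, Q, hj₁, hQ, ?_, ?_⟩
  · have h3 : ∑ j ∈ s', aeval x (Q j) * ex E (γ j - γ j₁) =
        (∑ j ∈ s', aeval x (Q j) * ex E (γ j - γ j₀)) / ex E (γ j₁ - γ j₀) := by
      rw [Finset.sum_div]
      refine Finset.sum_congr rfl fun j _ => ?_
      rw [mul_div_assoc, hquot]
    rw [h3, hQrel, zero_div]
  · intro j hj
    have h4 := hratio j hj j₁ hj₁
    rw [hquot, IntermediateField.mem_restrictScalars] at h4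
    exact index_bound h _ F h4

/-- the restriction of a derivation -/
noncomputable def resK (D : Derivation κ C C) (K : IntermediateField κ C)
    (h : ∀ x ∈ K, D x ∈ K) : Derivation κ K K :=
  Derivation.mk' (A := K) (M := K)
    { toFun := fun x => ⟨D x, h x x.2⟩
      map_add' := fun x y => Subtype.ext (map_add D (x : C) (y : C))
      map_smul' := fun n x => Subtype.ext (D.map_smul n (x : C)) }
    (fun x y => Subtype.ext (D.leibniz (x : C) (y : C)))

lemma resK_coe (D : Derivation κ C C) (K : IntermediateField κ C) (h : ∀ x ∈ K, D x ∈ K) (x : K) :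
    ((resK D K h x : K) : C) = D x := rfl

lemma resK_iter (D : Derivation κ C C) (K : IntermediateField κ C) (h : ∀ x ∈ K, D x ∈ K)
    (n : ℕ) (x : K) : (((resK D K h)^[n] x : K) : C) = D^[n] x := by
  induction n with
  | zero => rfl
  | succ n ih => rw [Function.iterate_succ_apply', Function.iterate_succ_apply', resK_coe, ih]

/-- the Wronskian of elements which are independent modulo constants -/
theorem wr_ne [CharZero κ] [IsAlgClosed κ] (D : Derivation κ C C) (χ : Γ → κ)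
    (hχi : Function.Injective χ) (hχ : ∀ γ, D (ex E γ) = algebraMap κ C (χ γ) * ex E γ) {N : ℕ}
    (z : Fin N → C) (hzK : ∀ i, z i ∈ AV κ E ⊤)
    (hz : ∀ (c₀ : κ) (c : Fin N → κ), algebraMap κ C c₀ + ∑ i, algebraMap κ C (c i) * z i = 0 →
      c = 0) :
    (Matrix.of fun k i : Fin N => D^[(k : ℕ)] (D (z i))).det ≠ 0 := by
  classical
  set K := AV κ E (⊤ : Submodule ℚ Γ) with hK
  have hst : ∀ x ∈ K, D x ∈ K := fun x hx => AV_stable D χ hχ ⊤ hx
  have h1 := wronskian_det (resK D K hst) N (fun i => (⟨D (z i), hst _ (hzK i)⟩ : K)) (by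
    intro c hc hrel
    have h2 : ∀ i, ∃ c' : κ, algebraMap κ C c' = (c i : C) := fun i =>
      alg_mem_range (const_alg D χ hχi hχ (c i).2 (congrArg Subtype.val (hc i)))
    choose c' hc' using h2
    have h3 : ∑ i, (c i : C) * D (z i) = 0 := by
      have := congrArg (fun a : K => (a : C)) hrel
      simpa using this
    have h4 : D (∑ i, algebraMap κ C (c' i) * z i) = 0 := by
      rw [map_sum, ← h3]
      refine Finset.sum_congr rfl fun i _ => ?_
      rw [Derivation.leibniz, D.map_algebraMap, hc' i]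
      simp
    have h5 : ∑ i, algebraMap κ C (c' i) * z i ∈ K := K.sum_mem fun i _ =>
      K.mul_mem (K.algebraMap_mem _) (hzK i)
    obtain ⟨c₀, hc₀⟩ := alg_mem_range (const_alg D χ hχi hχ h5 h4)
    have h6 := hz (-c₀) c' (by rw [map_neg, hc₀, neg_add_cancel])
    ext i
    rw [← hc' i, h6]
    simp)
  intro h0
  apply h1
  apply Subtype.ext
  have h7 := RingHom.map_det K.val.toRingHom
    (Matrix.of fun k i : Fin N => (resK D K hst)^[(k : ℕ)] (⟨D (z i), hst _ (hzK i)⟩ : K))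
  have h8 : K.val.toRingHom.mapMatrix
      (Matrix.of fun k i : Fin N => (resK D K hst)^[(k : ℕ)] (⟨D (z i), hst _ (hzK i)⟩ : K)) =
      Matrix.of fun k i : Fin N => D^[(k : ℕ)] (D (z i)) := by
    ext k i
    exact resK_iter D K hst _ _
  rw [h8, h0] at h7
  exact h7

end Pool.Agent.W2helper76.SP
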