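import Pool.Agent.W2helper76.SP.Pad

/-!
# Taylor maps to power series over ultrametric fields
-/

set_option autoImplicit false
set_option linter.unusedSectionVars false

namespace Pool.Agent.W2helper76.SP

open PowerSeries Finset

section padic

variable {Ω : Type*} [NormedField Ω] [IsUltrametricDist Ω]

/-- no relation between few exponentials over the field generated by a series which is close to
a multiple of `s ^ N` -/
lemma no_relation {J : Type*} [DecidableEq J] {s : Finset J} {δ u : J → Ω} {N : ℕ} {ρ : ℝ}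
    {e l : ℕ → Ω} (P : J → Polynomial Ω) (hρ0 : 0 ≤ ρ) (hρ : ρ < 1) (hs : s.card ≤ N)
    (hδ : ∀ j ∈ s, ‖δ j‖ ≤ 1) (hinj : Set.InjOn δ s)
    (hc : ∃ j ∈ s, (P j).eval (l 0) * u j ≠ 0) (he0 : ∀ k ≤ N, e k ≠ 0) (he00 : e 0 = 1)
    (heb : ∀ n, ‖e n‖ ≤ 1)
    (he : ∀ n, N ≤ n → ∀ k < N, ‖e n‖ ≤ ρ * ‖e k‖)
    (hlN : ‖l N‖ = 1) (hl : ∀ i, i ≠ 0 → i ≠ N → ‖l i * e i‖ ≤ ρ * ‖e N‖)
    (hrel : ∑ j ∈ s, Polynomial.aeval (mk fun n => l n * e n) (P j) *
      (C (u j) * mk fun n => δ j ^ n * e n) = 0) : False := by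
  classical
  have hN : 0 < N := by
    obtain ⟨j, hj, -⟩ := hc
    have := card_pos.2 ⟨j, hj⟩
    omega
  set L : PowerSeries Ω := mk fun n => l n * e n with hL
  set X : J → PowerSeries Ω := fun j => mk fun n => δ j ^ n * e n with hX
  set x := l 0 with hx
  have heN : e N ≠ 0 := he0 N le_rfl
  -- boundedness
  have hLb : Bdd L := by
    refine ⟨max ‖l 0‖ 1, le_max_of_le_right zero_le_one, fun n => ?_⟩
    rw [hL, coeff_mk]
    by_cases h0 : n = 0
    · rw [h0, he00, mul_one]; exact le_max_left _ _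
    · refine le_max_of_le_right ?_
      by_cases hnN : n = N
      · rw [hnN, norm_mul, hlN, one_mul]; exact heb N
      · refine (hl n h0 hnN).trans ?_
        exact mul_le_one₀ hρ.le (norm_nonneg _) (heb N)
  have hXb : ∀ j ∈ s, Bdd (X j) := by
    intro j hj
    refine ⟨1, zero_le_one, fun n => ?_⟩
    rw [hX, coeff_mk, norm_mul, norm_pow]
    exact mul_le_one₀ (pow_le_one₀ (norm_nonneg _) (hδ j hj)) (norm_nonneg _) (heb n)
  -- division by `L - x`
  have hdiv : ∀ j, ∃ Q : Polynomial Ω, P j = Polynomial.C ((P j).eval x) +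
      (Polynomial.X - Polynomial.C x) * Q := by
    intro j
    have : (Polynomial.X - Polynomial.C x) ∣ P j - Polynomial.C ((P j).eval x) := by
      rw [Polynomial.dvd_iff_isRoot]
      simp
    obtain ⟨Q, hQ⟩ := this
    exact ⟨Q, by rw [← hQ]; ring⟩
  choose Q hQ using hdiv
  have hPL : ∀ j, Polynomial.aeval L (P j) = C ((P j).eval x) +
      (L - C x) * Polynomial.aeval L (Q j) := by
    intro j
    conv_lhs => rw [hQ j]
    rw [map_add, map_mul, map_sub, Polynomial.aeval_C, Polynomial.aeval_X, Polynomial.aeval_C]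
    rfl
  set g : PowerSeries Ω := (L - C x) * C (e N)⁻¹ with hg
  set h : PowerSeries Ω := -(C (e N) * ∑ j ∈ s, Polynomial.aeval L (Q j) * (C (u j) * X j)) with hh
  have hgh : g * h = ∑ j ∈ s, C ((P j).eval x) * (C (u j) * X j) := by
    have h1 : ∑ j ∈ s, (C ((P j).eval x) + (L - C x) * Polynomial.aeval L (Q j)) *
        (C (u j) * X j) = 0 := by
      rw [← hrel]
      exact sum_congr rfl fun j _ => by rw [hPL]
    have h2 : (C (e N)⁻¹ * C (e N) : PowerSeries Ω) = 1 := by
      rw [← map_mul, inv_mul_cancel₀ heN, map_one]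
    have h3 : ∑ j ∈ s, (C ((P j).eval x) + (L - C x) * Polynomial.aeval L (Q j)) *
        (C (u j) * X j) = ∑ j ∈ s, C ((P j).eval x) * (C (u j) * X j) +
          (L - C x) * ∑ j ∈ s, Polynomial.aeval L (Q j) * (C (u j) * X j) := by
      rw [mul_sum, ← sum_add_distrib]
      exact sum_congr rfl fun j _ => by ring
    rw [h3] at h1
    calc g * h = -((C (e N)⁻¹ * C (e N)) * ((L - C x) *
          ∑ j ∈ s, Polynomial.aeval L (Q j) * (C (u j) * X j))) := by rw [hg, hh]; ring
      _ = ∑ j ∈ s, C ((P j).eval x) * (C (u j) * X j) := by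
          rw [h2, one_mul]
          linear_combination (-1 : PowerSeries Ω) * h1
  have hcg : ∀ i, coeff i g = if i = 0 then 0 else l i * e i * (e N)⁻¹ := by
    intro i
    rw [hg, mul_comm, coeff_C_mul, map_sub, hL, coeff_mk, coeff_C]
    split_ifs with h0
    · rw [h0, he00, mul_one, sub_self, mul_zero]
    · rw [sub_zero]; ring
  refine no_factor (c := fun j => (P j).eval x * u j) (g := g) (h := h) (N := N) (e := e) hρ0 hρ hs
    hδ hinj hc (fun k hk => he0 k hk.le) he ?_ ?_ ?_ ?_
  · rw [hcg, if_neg hN.ne', mul_assoc, mul_inv_cancel₀ heN, mul_one, hlN]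
  · intro i hi
    rw [hcg]
    split_ifs with h0
    · rw [norm_zero]; exact hρ0
    · rw [norm_mul, norm_inv, ← div_eq_mul_inv, div_le_iff₀ (norm_pos_iff.2 heN)]
      exact hl i h0 hi
  · rw [hh]
    have : Bdd (C (e N) * ∑ j ∈ s, Polynomial.aeval L (Q j) * (C (u j) * X j)) :=
      bdd_mul (bdd_C _) (bdd_sum _ _ fun j hj => bdd_mul (bdd_aeval hLb _)
        (bdd_mul (bdd_C _) (hXb j hj)))
    obtain ⟨C', hC', hb⟩ := this
    exact ⟨C', hC', fun n => by rw [map_neg, norm_neg]; exact hb n⟩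
  · intro n
    rw [hgh, map_sum, sum_mul]
    apply sum_congr rfl
    intro j _
    rw [coeff_C_mul, coeff_C_mul, hX, coeff_mk]
    ring

end padic

section taylor

variable {E Ω : Type*} [Field E] [Field Ω] [CharZero Ω] (D : Derivation ℤ E E) (σ : E →+* Ω)
  (ϖ : Ω)

/-- the coefficients `ϖ ^ n / n!` -/
noncomputable def ee (n : ℕ) : Ω := ϖ ^ n / (n.factorial : Ω)

/-- the Taylor series -/
noncomputable def tay (y : E) : PowerSeries Ω := mk fun n => σ (D^[n] y) * ee ϖ n

lemma tay_coeff (y : E) (n : ℕ) : coeff n (tay D σ ϖ y) = σ (D^[n] y) * ee ϖ n := by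
  rw [tay, coeff_mk]

lemma ee_zero : ee ϖ 0 = 1 := by simp [ee]

lemma ee_succ (n : ℕ) : ((n : Ω) + 1) * ee ϖ (n + 1) = ϖ * ee ϖ n := by
  have h1 : ((n : Ω) + 1) ≠ 0 := by exact_mod_cast n.succ_ne_zero
  have h2 : (n.factorial : Ω) ≠ 0 := by exact_mod_cast n.factorial_ne_zero
  rw [ee, ee, Nat.factorial_succ]
  push_cast
  field_simp
  ring

lemma iter_add (x y : E) (n : ℕ) : D^[n] (x + y) = D^[n] x + D^[n] y := by
  induction n generalizing x y with
  | zero => rfl
  | succ n ih => rw [Function.iterate_succ_apply, map_add, ih]; rfl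

lemma tay_add (x y : E) : tay D σ ϖ (x + y) = tay D σ ϖ x + tay D σ ϖ y := by
  ext n
  rw [map_add, tay_coeff, tay_coeff, tay_coeff, iter_add, map_add]
  ring

/-- the differential equation -/
lemma tay_D (y : E) (n : ℕ) :
    ((n : Ω) + 1) * coeff (n + 1) (tay D σ ϖ y) = ϖ * coeff n (tay D σ ϖ (D y)) := by
  rw [tay_coeff, tay_coeff, Function.iterate_succ_apply]
  linear_combination σ (D^[n] (D y)) * ee_succ ϖ n

lemma deriv_coeff (F : PowerSeries Ω) (n : ℕ) :
    coeff n (PowerSeries.derivative Ω F) = coeff (n + 1) F * ((n : Ω) + 1) := by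
  rw [PowerSeries.coeff_derivative]

lemma tay_deriv (y : E) : PowerSeries.derivative Ω (tay D σ ϖ y) = C ϖ * tay D σ ϖ (D y) := by
  ext n
  rw [deriv_coeff, coeff_C_mul, ← tay_D]
  ring

lemma tay_mul_aux (n : ℕ) : ∀ x y : E, coeff n (tay D σ ϖ (x * y)) =
    coeff n (tay D σ ϖ x * tay D σ ϖ y) := by
  induction n with
  | zero =>
    intro x y
    rw [coeff_mul, HasAntidiagonal.antidiagonal_zero, sum_singleton, tay_coeff, tay_coeff, tay_coeff]
    simp [ee_zero]
  | succ n ih =>
    intro x y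
    have h1 : ((n : Ω) + 1) ≠ 0 := by exact_mod_cast n.succ_ne_zero
    apply mul_left_cancel₀ h1
    rw [tay_D]
    have h2 : ((n : Ω) + 1) * coeff (n + 1) (tay D σ ϖ x * tay D σ ϖ y) =
        coeff n (PowerSeries.derivative Ω (tay D σ ϖ x * tay D σ ϖ y)) := by
      rw [deriv_coeff]; ring
    have h5 : PowerSeries.derivative Ω (tay D σ ϖ x * tay D σ ϖ y) =
        tay D σ ϖ x * PowerSeries.derivative Ω (tay D σ ϖ y) +
          tay D σ ϖ y * PowerSeries.derivative Ω (tay D σ ϖ x) :=
      (PowerSeries.derivative Ω).leibniz _ _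
    rw [h2, h5, tay_deriv, tay_deriv, D.leibniz, tay_add, map_add,
      smul_eq_mul, smul_eq_mul, ih, ih, map_add]
    have h3 : tay D σ ϖ x * (C ϖ * tay D σ ϖ (D y)) = C ϖ * (tay D σ ϖ x * tay D σ ϖ (D y)) := by
      ring
    have h4 : tay D σ ϖ y * (C ϖ * tay D σ ϖ (D x)) = C ϖ * (tay D σ ϖ y * tay D σ ϖ (D x)) := by
      ring
    rw [h3, h4, coeff_C_mul, coeff_C_mul]
    ring

/-- the Taylor map -/
noncomputable def tayHom : E →+* PowerSeries Ω where
  toFun := tay D σ ϖ
  map_one' := by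
    ext n
    rw [tay_coeff, coeff_one]
    cases n with
    | zero => simp [ee_zero]
    | succ n =>
      rw [Function.iterate_succ_apply, Derivation.map_one_eq_zero, if_neg n.succ_ne_zero]
      have : D^[n] (0 : E) = 0 := by
        induction n with
        | zero => rfl
        | succ n ih => rw [Function.iterate_succ_apply, map_zero, ih]
      rw [this, map_zero, zero_mul]
  map_mul' x y := by ext n; exact tay_mul_aux D σ ϖ n x y
  map_zero' := by
    ext n
    rw [tay_coeff, map_zero]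
    have : D^[n] (0 : E) = 0 := by
      induction n with
      | zero => rfl
      | succ n ih => rw [Function.iterate_succ_apply, map_zero, ih]
    rw [this, map_zero, zero_mul]
  map_add' := tay_add D σ ϖ

lemma iter_zero (n : ℕ) : D^[n] (0 : E) = 0 := by
  induction n with
  | zero => rfl
  | succ n ih => rw [Function.iterate_succ_apply, map_zero, ih]

lemma tay_const {c : E} (h : D c = 0) : tay D σ ϖ c = C (σ c) := by
  ext n
  rw [tay_coeff, coeff_C]
  cases n with
  | zero => simp [ee_zero]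
  | succ n =>
    rw [Function.iterate_succ_apply, h, iter_zero, map_zero, zero_mul, if_neg n.succ_ne_zero]

lemma iter_exp {y δ : E} (hδ : D δ = 0) (h : D y = δ * y) (n : ℕ) : D^[n] y = δ ^ n * y := by
  induction n with
  | zero => simp
  | succ n ih =>
    rw [Function.iterate_succ_apply', ih, Derivation.leibniz, h, Derivation.leibniz_pow, hδ]
    simp only [smul_eq_mul, mul_zero, smul_zero, add_zero]
    ring

lemma tay_exp {y δ : E} (hδ : D δ = 0) (h : D y = δ * y) :
    tay D σ ϖ y = C (σ y) * mk fun n => (σ δ) ^ n * ee ϖ n := by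
  ext n
  rw [tay_coeff, coeff_C_mul, coeff_mk, iter_exp D hδ h, map_mul, map_pow]
  ring

end taylor

end Pool.Agent.W2helper76.SP
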